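import Mathlib

/-! # Asymptotics of the parameters -/

set_option autoImplicit false
set_option maxHeartbeats 1000000

open Filter Topology Real

namespace Pool.Agent.N965.LE

/-- the degree -/
noncomputable def mm (κ a : ℝ) : ℕ := ⌈κ * a / Real.log a⌉₊

/-- the height -/
noncomputable def th (a : ℝ) : ℝ := a ^ (2 / 5 : ℝ)

/-- the number of zeros -/
noncomputable def nn (K a : ℝ) : ℕ := ⌊K * (1 + a ^ (4 / 5 : ℝ))⌋₊

lemma log_div_rpow {c : ℝ} (hc : 0 < c) : Tendsto (fun a : ℝ => Real.log a / a ^ c) atTop (𝓝 0) :=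
  (isLittleO_log_rpow_atTop hc).tendsto_div_nhds_zero

lemma inv_log_tendsto : Tendsto (fun a : ℝ => 1 / Real.log a) atTop (𝓝 0) := by
  refine (Real.tendsto_log_atTop.inv_tendsto_atTop).congr fun a => ?_
  simp

lemma mm_div (κ : ℝ) (hκ : 0 < κ) : Tendsto (fun a : ℝ => (mm κ a : ℝ) / a) atTop (𝓝 0) := by
  have h0 : Tendsto (fun a : ℝ => 1 / a) atTop (𝓝 0) := by
    refine (tendsto_inv_atTop_zero (𝕜 := ℝ)).congr fun a => ?_
    simp
  have h1 : Tendsto (fun a : ℝ => κ * (1 / Real.log a) + 1 / a) atTop (𝓝 (κ * 0 + 0)) :=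
    (inv_log_tendsto.const_mul κ).add h0
  rw [mul_zero, zero_add] at h1
  refine tendsto_of_tendsto_of_tendsto_of_le_of_le' tendsto_const_nhds h1 ?_ ?_
  · filter_upwards [eventually_gt_atTop 0] with a ha
    positivity
  · filter_upwards [eventually_gt_atTop 1] with a ha
    have hl : 0 < Real.log a := Real.log_pos ha
    have h2 : (mm κ a : ℝ) < κ * a / Real.log a + 1 := Nat.ceil_lt_add_one (by positivity)
    have ha0 : 0 < a := by linarith
    rw [div_le_iff₀ ha0]
    have : (κ * (1 / Real.log a) + 1 / a) * a = κ * a / Real.log a + 1 := by field_simp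
    rw [this]
    exact h2.le

lemma mm_ge {κ a : ℝ} (ha : 1 < a) : κ * a ≤ mm κ a * Real.log a := by
  have hl : 0 < Real.log a := Real.log_pos ha
  have h2 : κ * a / Real.log a ≤ (mm κ a : ℝ) := Nat.le_ceil _
  rwa [div_le_iff₀ hl] at h2

/-- if `u a / a → 0` then `exp (u a) ≤ exp (ε a)` eventually -/
lemma ev_exp {u : ℝ → ℝ} (hu : Tendsto (fun a => u a / a) atTop (𝓝 0)) {ε : ℝ} (hε : 0 < ε) :
    ∀ᶠ a in atTop, u a ≤ ε * a := by
  filter_upwards [hu.eventually (gt_mem_nhds hε), eventually_gt_atTop 0] with a h1 h2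
  rw [div_lt_iff₀ h2] at h1
  exact h1.le

lemma nn_log (K C : ℝ) (hK : 0 < K) (hC : 1 ≤ C) (j : ℕ) :
    Tendsto (fun a : ℝ => ((nn K a + j : ℕ) : ℝ) * Real.log (C + 2 * th a) / a) atTop (𝓝 0) := by
  -- the majorant
  have e1 : Tendsto (fun a : ℝ => (2 * K + j) * (Real.log (3 * C) * a ^ (-(1 / 5) : ℝ) + Real.log a / a ^ (1 / 5 : ℝ))) atTop
      (𝓝 ((2 * K + j) * (Real.log (3 * C) * 0 + 0))) :=
    (((tendsto_rpow_neg_atTop (by norm_num : (0 : ℝ) < 1 / 5)).const_mul _).add (log_div_rpow (by norm_num))).const_mul _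
  rw [mul_zero, zero_add, mul_zero] at e1
  refine tendsto_of_tendsto_of_tendsto_of_le_of_le' tendsto_const_nhds e1 ?_ ?_
  · filter_upwards [eventually_ge_atTop 1] with a ha
    have h1 : 0 ≤ th a := Real.rpow_nonneg (by linarith) _
    have h2 : 0 ≤ Real.log (C + 2 * th a) := Real.log_nonneg (by linarith)
    positivity
  · filter_upwards [eventually_ge_atTop 1] with a ha
    have ha0 : 0 < a := by linarith
    have h1 : 1 ≤ a ^ (2 / 5 : ℝ) := Real.one_le_rpow ha (by norm_num)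
    have h2 : a ^ (2 / 5 : ℝ) ≤ a := by
      calc a ^ (2 / 5 : ℝ) ≤ a ^ (1 : ℝ) := Real.rpow_le_rpow_of_exponent_le ha (by norm_num)
        _ = a := Real.rpow_one a
    have h3 : Real.log (C + 2 * th a) ≤ Real.log (3 * C) + Real.log a := by
      rw [← Real.log_mul (by positivity) (by positivity)]
      refine Real.log_le_log (by unfold th; positivity) ?_
      unfold th
      nlinarith
    have h4 : ((nn K a + j : ℕ) : ℝ) ≤ (2 * K + j) * a ^ (4 / 5 : ℝ) := by
      have h5 : (1 : ℝ) ≤ a ^ (4 / 5 : ℝ) := Real.one_le_rpow ha (by norm_num)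
      have h6 : (nn K a : ℝ) ≤ K * (1 + a ^ (4 / 5 : ℝ)) := Nat.floor_le (by positivity)
      push_cast
      have h7 : (0 : ℝ) ≤ j := Nat.cast_nonneg j
      nlinarith
    have h5 : 0 ≤ Real.log (3 * C) + Real.log a := add_nonneg (Real.log_nonneg (by linarith)) (Real.log_nonneg ha)
    have h6 : 0 ≤ Real.log (C + 2 * th a) := Real.log_nonneg (by unfold th; linarith)
    rw [div_le_iff₀ ha0]
    have h7 : a ^ (4 / 5 : ℝ) = a ^ (-(1 / 5) : ℝ) * a := by
      rw [← Real.rpow_add_one ha0.ne']; norm_num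
    have h8 : a ^ (4 / 5 : ℝ) = a / a ^ (1 / 5 : ℝ) := by
      rw [h7, Real.rpow_neg ha0.le]
      field_simp
    calc ((nn K a + j : ℕ) : ℝ) * Real.log (C + 2 * th a) ≤ ((2 * K + j) * a ^ (4 / 5 : ℝ)) * (Real.log (3 * C) + Real.log a) :=
          mul_le_mul h4 h3 h6 (by positivity)
      _ = (2 * K + j) * (Real.log (3 * C) * a ^ (4 / 5 : ℝ) + Real.log a * a ^ (4 / 5 : ℝ)) := by ring
      _ = _ := by
          nth_rewrite 1 [h7]
          rw [h8]
          ring

lemma pow_le_exp {x : ℝ} (hx : 1 ≤ x) {n : ℕ} {y : ℝ} (h : n * Real.log x ≤ y) : x ^ n ≤ Real.exp y := by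
  have hx0 : 0 < x := by linarith
  rw [← Real.exp_log (pow_pos hx0 n), Real.log_pow]
  exact Real.exp_le_exp.2 h

/-- **all the inequalities between the parameters** -/
theorem asym {κ h K C ε : ℝ} (hκ : 0 < κ) (hκh : 5 * h < 4 * κ) (hK : 0 < K) (hC : 1 ≤ C) (hε : 0 < ε) :
    ∀ᶠ a in atTop, 1 < a ∧ 1 ≤ mm κ a ∧ 4 * (mm κ a : ℝ) ≤ a ∧ nn K a + 4 ≤ 2 * mm κ a ∧
      (2 * (mm κ a : ℝ) + 1) * (a / mm κ a) ^ (2 * mm κ a) ≤ Real.exp (ε * a) ∧
      C * (C + 2 * th a) ^ (nn K a + 3) ≤ Real.exp (ε * a) ∧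
      C ^ (2 * mm κ a + 1) ≤ Real.exp (ε * a) ∧
      C * Real.exp (h * a) * (3 * th a) ^ (nn K a + 2) * 2 ^ (2 * mm κ a + 1) ≤ th a ^ (2 * mm κ a) ∧
      C ≤ th a ∧ 2 * a ≤ Real.exp (ε * a) := by
  have hmd := mm_div κ hκ
  -- the size of the degree
  have h1 : ∀ᶠ a in atTop, 4 * (mm κ a : ℝ) ≤ a := by
    filter_upwards [hmd.eventually (gt_mem_nhds (by norm_num : (0 : ℝ) < 1 / 4)), eventually_gt_atTop 0] with a h h0
    rw [div_lt_iff₀ h0] at h
    linarith
  have h2 : ∀ᶠ a in atTop, nn K a + 4 ≤ 2 * mm κ a := by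
    have e1 : Tendsto (fun a : ℝ => (2 * K + 4) * (Real.log a / a ^ (1 / 5 : ℝ))) atTop (𝓝 ((2 * K + 4) * 0)) :=
      (log_div_rpow (by norm_num)).const_mul _
    rw [mul_zero] at e1
    filter_upwards [e1.eventually (gt_mem_nhds (by linarith : (0 : ℝ) < 2 * κ)), eventually_gt_atTop 1] with a h ha
    have ha0 : 0 < a := by linarith
    have hl : 0 < Real.log a := Real.log_pos ha
    have h5 : (1 : ℝ) ≤ a ^ (4 / 5 : ℝ) := Real.one_le_rpow ha.le (by norm_num)
    have h6 : (nn K a : ℝ) ≤ K * (1 + a ^ (4 / 5 : ℝ)) := Nat.floor_le (by positivity)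
    have h7 : (nn K a : ℝ) + 4 ≤ (2 * K + 4) * a ^ (4 / 5 : ℝ) := by nlinarith
    have h8 : a ^ (4 / 5 : ℝ) = a / a ^ (1 / 5 : ℝ) := by
      have : a ^ (4 / 5 : ℝ) = a ^ (-(1 / 5) : ℝ) * a := by
        rw [← Real.rpow_add_one ha0.ne']; norm_num
      rw [this, Real.rpow_neg ha0.le]
      field_simp
    have h9 := mm_ge (κ := κ) ha
    have h10 : ((nn K a : ℝ) + 4) * Real.log a ≤ 2 * (mm κ a : ℝ) * Real.log a := by
      calc ((nn K a : ℝ) + 4) * Real.log a ≤ ((2 * K + 4) * a ^ (4 / 5 : ℝ)) * Real.log a := mul_le_mul_of_nonneg_right h7 hl.le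
        _ = (2 * K + 4) * (Real.log a / a ^ (1 / 5 : ℝ)) * a := by rw [h8]; ring
        _ ≤ 2 * κ * a := mul_le_mul_of_nonneg_right h.le ha0.le
        _ ≤ _ := by linarith
    have h11 := le_of_mul_le_mul_right h10 hl
    exact_mod_cast h11
  have h3 : ∀ᶠ a in atTop, (2 * (mm κ a : ℝ) + 1) * (a / mm κ a) ^ (2 * mm κ a) ≤ Real.exp (ε * a) := by
    have e1 : Tendsto (fun a : ℝ => 2 * ((mm κ a : ℝ) / a) + 2 * Real.negMulLog ((mm κ a : ℝ) / a)) atTop (𝓝 (2 * 0 + 2 * Real.negMulLog 0)) :=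
      (hmd.const_mul 2).add (((Real.continuous_negMulLog.tendsto 0).comp hmd).const_mul 2)
    rw [Real.negMulLog_zero, mul_zero, add_zero] at e1
    filter_upwards [e1.eventually (gt_mem_nhds hε), eventually_gt_atTop 1, h1, h2] with a h ha hm1 hm2
    have ha0 : 0 < a := by linarith
    have hm : 0 < (mm κ a : ℝ) := by
      have : 0 < mm κ a := by omega
      exact_mod_cast this
    have h4 : 1 ≤ a / mm κ a := by rw [le_div_iff₀ hm]; linarith
    have h5 : (a / mm κ a) ^ (2 * mm κ a) ≤ Real.exp (2 * (mm κ a : ℝ) * Real.log (a / mm κ a)) :=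
      pow_le_exp h4 (by push_cast; exact le_rfl)
    have h6 : 2 * (mm κ a : ℝ) + 1 ≤ Real.exp (2 * (mm κ a : ℝ)) := Real.add_one_le_exp _
    have h7 : 2 * (mm κ a : ℝ) * Real.log (a / mm κ a) = 2 * Real.negMulLog ((mm κ a : ℝ) / a) * a := by
      unfold Real.negMulLog
      have : Real.log (a / mm κ a) = -Real.log ((mm κ a : ℝ) / a) := by rw [← Real.log_inv, inv_div]
      rw [this]
      field_simp
    calc (2 * (mm κ a : ℝ) + 1) * (a / mm κ a) ^ (2 * mm κ a) ≤
        Real.exp (2 * (mm κ a : ℝ)) * Real.exp (2 * (mm κ a : ℝ) * Real.log (a / mm κ a)) :=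
          mul_le_mul h6 h5 (by positivity) (Real.exp_pos _).le
      _ = Real.exp ((2 * ((mm κ a : ℝ) / a) + 2 * Real.negMulLog ((mm κ a : ℝ) / a)) * a) := by
          rw [← Real.exp_add, h7]
          congr 1
          field_simp
      _ ≤ _ := Real.exp_le_exp.2 (mul_le_mul_of_nonneg_right h.le ha0.le)
  have h4 : ∀ᶠ a in atTop, C * (C + 2 * th a) ^ (nn K a + 3) ≤ Real.exp (ε * a) := by
    filter_upwards [ev_exp (nn_log K C hK hC 4) hε, eventually_gt_atTop 1] with a h ha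
    have h1 : 0 ≤ th a := Real.rpow_nonneg (by linarith) _
    have h2 := pow_le_exp (x := C + 2 * th a) (by linarith) h
    refine le_trans ?_ h2
    have h3 : (C + 2 * th a) ^ (nn K a + 4) = (C + 2 * th a) * (C + 2 * th a) ^ (nn K a + 3) := by ring
    rw [h3]
    exact mul_le_mul_of_nonneg_right (by linarith) (by positivity)
  have h5 : ∀ C' : ℝ, 1 ≤ C' → ∀ ε' : ℝ, 0 < ε' → ∀ᶠ a in atTop, C' ^ (2 * mm κ a + 1) ≤ Real.exp (ε' * a) := by
    intro C' hC' ε' hε'
    have e1 : Tendsto (fun a : ℝ => (2 * ((mm κ a : ℝ) / a) + 1 / a) * Real.log C') atTop (𝓝 ((2 * 0 + 0) * Real.log C')) := by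
      refine ((hmd.const_mul 2).add ?_).mul_const _
      refine (tendsto_inv_atTop_zero (𝕜 := ℝ)).congr fun a => ?_
      simp
    rw [mul_zero, zero_add, zero_mul] at e1
    filter_upwards [e1.eventually (gt_mem_nhds hε'), eventually_gt_atTop 0] with a h ha
    refine pow_le_exp hC' ?_
    have : ((2 * mm κ a + 1 : ℕ) : ℝ) * Real.log C' = (2 * ((mm κ a : ℝ) / a) + 1 / a) * Real.log C' * a := by
      push_cast; field_simp
    rw [this]
    exact mul_le_mul_of_nonneg_right h.le ha.le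
  have h6 : ∀ᶠ a in atTop, C * Real.exp (h * a) * (3 * th a) ^ (nn K a + 2) * 2 ^ (2 * mm κ a + 1) ≤ th a ^ (2 * mm κ a) := by
    set δ : ℝ := (4 / 5 * κ - h) / 3 with hδ
    have hδ0 : 0 < δ := by rw [hδ]; linarith
    filter_upwards [h5 2 (by norm_num) δ hδ0,
      ev_exp (u := fun a => Real.log C + 2 * (((nn K a + 2 : ℕ) : ℝ) * Real.log (1 + 2 * th a))) (ε := δ) (by
        have e1 := (nn_log K 1 hK le_rfl 2).const_mul 2
        have e2 : Tendsto (fun a : ℝ => Real.log C / a) atTop (𝓝 0) := tendsto_const_nhds.div_atTop tendsto_id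
        have := e2.add e1
        rw [mul_zero, add_zero] at this
        refine this.congr fun a => ?_
        rw [add_div]
        ring) hδ0, eventually_gt_atTop 1,
      (tendsto_rpow_atTop (by norm_num : (0 : ℝ) < 2 / 5)).eventually (eventually_ge_atTop 1)] with a q1 q2 ha q4
    have ha0 : 0 < a := by linarith
    have hT1 : 1 ≤ th a := q4
    have hT0 : 0 < th a := by linarith
    have hm := mm_ge (κ := κ) ha
    -- the right hand side
    have r1 : Real.exp (4 / 5 * κ * a) ≤ th a ^ (2 * mm κ a) := by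
      rw [← Real.exp_log (pow_pos hT0 _), Real.log_pow]
      refine Real.exp_le_exp.2 ?_
      have : Real.log (th a) = 2 / 5 * Real.log a := by unfold th; rw [Real.log_rpow ha0]
      rw [this]
      push_cast
      linarith
    have r2 : C * (3 * th a) ^ (nn K a + 2) ≤ Real.exp (δ * a) := by
      have s1 : (3 * th a) ^ (nn K a + 2) ≤ ((1 + 2 * th a) ^ 2) ^ (nn K a + 2) :=
        pow_le_pow_left₀ (by positivity) (by nlinarith) _
      rw [← pow_mul] at s1
      have s2 : (1 + 2 * th a) ^ (2 * (nn K a + 2)) ≤ Real.exp (2 * (((nn K a + 2 : ℕ) : ℝ) * Real.log (1 + 2 * th a))) :=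
        pow_le_exp (by linarith) (by push_cast; linarith)
      calc C * (3 * th a) ^ (nn K a + 2) ≤ Real.exp (Real.log C) * Real.exp (2 * (((nn K a + 2 : ℕ) : ℝ) * Real.log (1 + 2 * th a))) := by
            rw [Real.exp_log (by linarith)]
            exact mul_le_mul_of_nonneg_left (s1.trans s2) (by linarith)
        _ ≤ _ := by
            rw [← Real.exp_add]
            exact Real.exp_le_exp.2 q2
    calc C * Real.exp (h * a) * (3 * th a) ^ (nn K a + 2) * 2 ^ (2 * mm κ a + 1) =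
        Real.exp (h * a) * (C * (3 * th a) ^ (nn K a + 2)) * 2 ^ (2 * mm κ a + 1) := by ring
      _ ≤ Real.exp (h * a) * Real.exp (δ * a) * Real.exp (δ * a) := by gcongr
      _ = Real.exp ((h + 2 * δ) * a) := by rw [← Real.exp_add, ← Real.exp_add]; congr 1; ring
      _ ≤ Real.exp (4 / 5 * κ * a) := by
          refine Real.exp_le_exp.2 (mul_le_mul_of_nonneg_right ?_ ha0.le)
          rw [hδ]; linarith
      _ ≤ _ := r1
  have h7 : ∀ᶠ a in atTop, C ≤ th a := (tendsto_rpow_atTop (by norm_num : (0 : ℝ) < 2 / 5)).eventually (eventually_ge_atTop C)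
  have h8 : ∀ᶠ a in atTop, 2 * a ≤ Real.exp (ε * a) := by
    have e1 : Tendsto (fun a : ℝ => Real.log 2 / a + Real.log a / a ^ (1 : ℝ)) atTop (𝓝 (0 + 0)) :=
      (tendsto_const_nhds.div_atTop tendsto_id).add (log_div_rpow one_pos)
    rw [add_zero] at e1
    filter_upwards [e1.eventually (gt_mem_nhds hε), eventually_gt_atTop 0] with a h ha
    rw [← Real.exp_log (by positivity : 0 < 2 * a)]
    refine Real.exp_le_exp.2 ?_
    rw [Real.log_mul (by norm_num) ha.ne']
    rw [Real.rpow_one, ← add_div, div_lt_iff₀ ha] at h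
    exact h.le
  filter_upwards [h1, h2, h3, h4, h5 C hC ε hε, h6, h7, h8, eventually_gt_atTop 1] with a k1 k2 k3 k4 k5 k6 k7 k8 k9
  exact ⟨k9, by omega, k1, k2, k3, k4, k5, k6, k7, k8⟩

end Pool.Agent.N965.LE
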