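import Pool.Agent.N965.LE.Up

/-! # The exponents of the eigenvalues -/

set_option autoImplicit false
set_option linter.unusedSectionVars false
set_option maxHeartbeats 2000000

open Complex Filter Topology Set MeasureTheory
open scoped ComplexConjugate

namespace Pool.Agent.N965.LE

open Pool.Agent.Y23 Pool.Agent.Y23.G

variable [D : ZD]

/-- the zeros to the right of `θ` -/
def Rt (θ : ℝ) : Set ℂ := {s | s ∈ D.Zs ∧ θ < s.re}

/-- the `k`-th largest real part -/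
noncomputable def bet (k : ℕ) : ℝ := sInf {θ : ℝ | 1 / 2 ≤ θ ∧ (Rt θ).encard < k}

/-- a subspace of dimension `k` on which the form is at most `r` -/
def Neg (a : ℝ) (ν : ℕ∞) (k : ℕ) (r : ℝ) : Prop := ∃ f : Fin k → ℝ → ℂ, (∀ i, Hn a ν (f i)) ∧
  (∀ x : Fin k → ℂ, x ≠ 0 → 0 < N2 (fun t => ∑ i, x i * f i t)) ∧
  ∀ x : Fin k → ℂ, QQ (fun t => ∑ i, x i * f i t) ≤ r * N2 (fun t => ∑ i, x i * f i t)

/-- the `k`-th eigenvalue -/
noncomputable def eg (a : ℝ) (ν : ℕ∞) (k : ℕ) : ℝ := sInf {r | Neg a ν k r}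

lemma Rt_anti {θ θ' : ℝ} (h : θ ≤ θ') : Rt θ' ⊆ Rt θ := fun _ hs => ⟨hs.1, lt_of_le_of_lt h hs.2⟩

lemma Rt_empty {θ : ℝ} (h : 3 / 2 ≤ θ) : Rt θ = ∅ := by
  rw [Set.eq_empty_iff_forall_notMem]
  rintro s ⟨h1, h2⟩
  have := D.strip s h1
  rw [abs_le] at this
  linarith [this.2]

lemma bet_bdd (k : ℕ) : BddBelow {θ : ℝ | 1 / 2 ≤ θ ∧ (Rt θ).encard < k} := ⟨1 / 2, fun _ h => h.1⟩

lemma bet_ne {k : ℕ} (hk : 1 ≤ k) : {θ : ℝ | 1 / 2 ≤ θ ∧ (Rt θ).encard < k}.Nonempty := by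
  refine ⟨3 / 2, by norm_num, ?_⟩
  rw [Rt_empty le_rfl, Set.encard_empty]
  exact_mod_cast hk

lemma bet_ge {k : ℕ} (hk : 1 ≤ k) : 1 / 2 ≤ bet k := le_csInf (bet_ne hk) fun _ h => h.1

lemma few_of_gt {k : ℕ} (hk : 1 ≤ k) {θ : ℝ} (h : bet k < θ) : (Rt θ).encard < k := by
  obtain ⟨θ', h1, h2⟩ := exists_lt_of_csInf_lt (bet_ne hk) h
  exact lt_of_le_of_lt (Set.encard_le_encard (Rt_anti h2.le)) h1.2

lemma many_of_lt {k : ℕ} {θ : ℝ} (hθ : 1 / 2 ≤ θ) (h : θ < bet k) : (k : ℕ∞) ≤ (Rt θ).encard := by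
  by_contra hc
  rw [not_le] at hc
  have := csInf_le (bet_bdd k) (show θ ∈ {θ : ℝ | 1 / 2 ≤ θ ∧ (Rt θ).encard < k} from ⟨hθ, hc⟩)
  unfold bet at h
  linarith

lemma re_le_bet {s : ℂ} (hs : s ∈ D.Zs) : s.re ≤ bet 1 := by
  by_contra hc
  rw [not_le] at hc
  obtain ⟨θ', h1, h2⟩ := exists_lt_of_csInf_lt (bet_ne le_rfl) hc
  have h3 : (Rt θ').encard < 1 := by simpa using h1.2
  rw [Set.encard_lt_one] at h3
  have h4 : s ∈ Rt θ' := ⟨hs, h2⟩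
  rw [h3] at h4
  exact h4

lemma abs_wz_le (σ : Zt) : |(wz σ).re| ≤ bet 1 - 1 / 2 := by
  have h1 := re_le_bet σ.2
  have h2 := re_le_bet (D.refl _ σ.2)
  have e1 : (wz σ).re = (σ : ℂ).re - 1 / 2 := by unfold wz; simp
  have e2 : (1 - conj (σ : ℂ)).re = 1 - (σ : ℂ).re := by simp
  rw [e2] at h2
  rw [e1, abs_le]
  constructor <;> linarith

/-- zeros to the right give negative directions -/
theorem dir {κ θ : ℝ} {k : ℕ} (hκ : 0 < κ) (hθ : 1 / 2 ≤ θ) (hκθ : 5 * (bet 1 - θ) < 4 * κ) (hk : (k : ℕ∞) ≤ (Rt θ).encard) :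
    ∃ δ : ℝ, 0 < δ ∧ ∀ᶠ a in atTop, ∀ ν : ℕ∞, ((mm κ a : ℕ) : ℕ∞) ≤ ν → Neg a ν k (-Real.exp ((2 * θ - 1 + δ) * a)) := by
  classical
  obtain ⟨t, htR, htk⟩ := Set.exists_subset_encard_eq hk
  have hfin : t.Finite := Set.finite_of_encard_eq_coe htk
  set S : Finset Zt := hfin.toFinset.subtype (fun s => s ∈ D.Zs) with hS
  have hScard : S.card = k := by
    rw [hS, Finset.card_subtype, Finset.filter_true_of_mem]
    · have h1 := hfin.encard_eq_coe_toFinset_card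
      rw [htk] at h1
      exact_mod_cast h1.symm
    · intro s hs
      rw [Set.Finite.mem_toFinset] at hs
      exact (htR hs).1
  have hSre : ∀ ρ ∈ S, θ - 1 / 2 < (wz ρ).re := by
    intro ρ hρ
    rw [hS, Finset.mem_subtype, Set.Finite.mem_toFinset] at hρ
    have := (htR hρ).2
    have e1 : (wz ρ).re = (ρ : ℂ).re - 1 / 2 := by unfold wz; simp
    rw [e1]; linarith
  obtain ⟨δ, hδ, hev⟩ := multi hκ abs_wz_le S (η := θ - 1 / 2) (by linarith) (by linarith) hSre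
  refine ⟨2 * δ, by positivity, ?_⟩
  filter_upwards [hev] with a ⟨f, hfH, hf⟩ ν hν
  set e : Fin k ≃ S := (S.equivFinOfCardEq hScard).symm with he
  refine ⟨fun i => f (e i : Zt), fun i => (hfH _ (e i).2).mono hν, ?_⟩
  have key : ∀ x : Fin k → ℂ, ∃ x' : Zt → ℂ, (∀ i, x' (e i : Zt) = x i) ∧
      (fun t => ∑ i, x i * f (e i : Zt) t) = fun t => ∑ ρ ∈ S, x' ρ * f ρ t := by
    intro x
    have hx' : ∀ i, (if h : (e i : Zt) ∈ S then x (e.symm ⟨(e i : Zt), h⟩) else 0) = x i := by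
      intro i
      rw [dif_pos (e i).2]
      congr 1
      rw [Subtype.coe_eta, Equiv.symm_apply_apply]
    refine ⟨fun ρ => if h : ρ ∈ S then x (e.symm ⟨ρ, h⟩) else 0, hx', ?_⟩
    funext t
    rw [← Finset.sum_coe_sort S, ← e.sum_comp]
    refine Finset.sum_congr rfl fun i _ => ?_
    show x i * f (e i : Zt) t = (if h : (e i : Zt) ∈ S then x (e.symm ⟨(e i : Zt), h⟩) else 0) * f (e i : Zt) t
    rw [hx']
  have key2 : ∀ x : Fin k → ℂ, x ≠ 0 → 0 < N2 (fun t => ∑ i, x i * f (e i : Zt) t) ∧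
      QQ (fun t => ∑ i, x i * f (e i : Zt) t) ≤ -Real.exp ((2 * θ - 1 + 2 * δ) * a) * N2 (fun t => ∑ i, x i * f (e i : Zt) t) := by
    intro x hx
    obtain ⟨x', h1, h2⟩ := key x
    rw [h2]
    obtain ⟨i, hi⟩ := Function.ne_iff.1 hx
    have h3 := hf x' ⟨(e i : Zt), (e i).2, by rw [h1]; exact hi⟩
    refine ⟨h3.1, h3.2.trans (le_of_eq ?_)⟩
    have e3 : 2 * (θ - 1 / 2 + δ) * a = (2 * θ - 1 + 2 * δ) * a := by ring
    rw [e3]; ring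
  refine ⟨fun x hx => (key2 x hx).1, fun x => ?_⟩
  by_cases hx : x = 0
  · subst hx
    have e4 : (fun t => ∑ i, (0 : Fin k → ℂ) i * f (e i : Zt) t) = fun _ => (0 : ℂ) := by
      funext t; simp
    rw [e4]
    have e5 : ∀ w, TT (fun _ : ℝ => (0 : ℂ)) w = 0 := fun w => by unfold TT; simp
    have e6 : QQ (fun _ : ℝ => (0 : ℂ)) = 0 := by
      unfold QQ GG
      simp [e5]
    have e7 : N2 (fun _ : ℝ => (0 : ℂ)) = 0 := by unfold N2; simp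
    rw [e6, e7, mul_zero]
  · exact (key2 x hx).2

/-- linear algebra -/
lemma kern {k : ℕ} (Z : Finset Zt) (hZ : Z.card < k) {a : ℝ} {f : Fin k → ℝ → ℂ} (hf : ∀ i, Fa a (f i)) :
    ∃ x : Fin k → ℂ, x ≠ 0 ∧ ∀ σ ∈ Z, TT (fun t => ∑ i, x i * f i t) (wz σ) = 0 := by
  classical
  set φ : (Fin k → ℂ) →ₗ[ℂ] (Z → ℂ) := Matrix.mulVecLin (Matrix.of fun (σ : Z) (i : Fin k) => TT (f i) (wz (σ : Zt))) with hφ
  have h1 : LinearMap.ker φ ≠ ⊥ := by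
    apply LinearMap.ker_ne_bot_of_finrank_lt
    rw [Module.finrank_fintype_fun_eq_card, Module.finrank_fintype_fun_eq_card, Fintype.card_coe, Fintype.card_fin]
    exact hZ
  obtain ⟨x, hx, hx0⟩ := Submodule.exists_mem_ne_zero_of_ne_bot h1
  refine ⟨x, hx0, fun σ hσ => ?_⟩
  rw [TT_comb Finset.univ (fun i _ => hf i)]
  have h2 := congrFun (LinearMap.mem_ker.1 hx) ⟨σ, hσ⟩
  rw [hφ, Matrix.mulVecLin_apply, Matrix.mulVec, dotProduct] at h2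
  simp only [Matrix.of_apply, Pi.zero_apply] at h2
  rw [← h2]
  exact Finset.sum_congr rfl fun i _ => mul_comm _ _

lemma few_finset {θ : ℝ} {k : ℕ} (h : (Rt θ).encard < k) : ∃ Z : Finset Zt, Z.card < k ∧
    ∀ ρ : Zt, θ - 1 / 2 < (wz ρ).re → ρ ∈ Z := by
  classical
  have hfin : (Rt θ).Finite := Set.finite_of_encard_le_coe h.le
  refine ⟨hfin.toFinset.subtype (fun s => s ∈ D.Zs), ?_, fun ρ hρ => ?_⟩
  · rw [Finset.card_subtype]
    refine lt_of_le_of_lt (Finset.card_filter_le _ _) ?_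
    rw [hfin.encard_eq_coe_toFinset_card] at h
    exact_mod_cast h
  · rw [Finset.mem_subtype, Set.Finite.mem_toFinset]
    refine ⟨ρ.2, ?_⟩
    have e1 : (wz ρ).re = (ρ : ℂ).re - 1 / 2 := by unfold wz; simp
    rw [e1] at hρ; linarith

lemma Hn_comb {a : ℝ} {ν : ℕ∞} {k : ℕ} {f : Fin k → ℝ → ℂ} (hf : ∀ i, Hn a ν (f i)) (x : Fin k → ℂ) :
    Hn a ν (fun t => ∑ i, x i * f i t) := Hn_sum Finset.univ fun i _ => (hf i).smul (x i)

/-- the lower bound for the form, in terms of the norm -/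
theorem form_ge : ∃ C : ℝ, 0 < C ∧ ∀ (a : ℝ) (n : ℕ) (η : ℝ) (f : ℝ → ℂ), 1 ≤ a → 0 ≤ η → Hn a n f →
    (∀ ρ : Zt, η < (wz ρ).re → TT f (wz ρ) = 0) →
    -(C * a ^ 2 * Real.log (n + 3) * Real.exp (2 * η * a)) * N2 f ≤ QQ f := by
  obtain ⟨K, hK, h1⟩ := QQ_ge (D := D)
  obtain ⟨C, hC, h2⟩ := LL_le
  refine ⟨K * C, by positivity, fun a n η f ha hη hf hv => ?_⟩
  have h3 := h1 a η f ha hη hf.hd hv
  have h4 := h2 a n f ha hf
  have h5 : K * a ^ 2 * Real.exp (2 * η * a) * LL f ≤ K * a ^ 2 * Real.exp (2 * η * a) * (C * Real.log (n + 3) * N2 f) :=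
    mul_le_mul_of_nonneg_left h4 (by positivity)
  calc -(K * C * a ^ 2 * Real.log (n + 3) * Real.exp (2 * η * a)) * N2 f =
      -(K * a ^ 2 * Real.exp (2 * η * a) * (C * Real.log (n + 3) * N2 f)) := by ring
    _ ≤ -(K * a ^ 2 * Real.exp (2 * η * a) * LL f) := neg_le_neg h5
    _ ≤ _ := h3

theorem neg_ge : ∃ C : ℝ, 0 < C ∧ ∀ (a : ℝ) (n k : ℕ) (θ r : ℝ), 1 ≤ a → 1 / 2 ≤ θ → (Rt θ).encard < k → Neg a n k r →
    -(C * a ^ 2 * Real.log (n + 3) * Real.exp ((2 * θ - 1) * a)) ≤ r := by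
  obtain ⟨C, hC, h⟩ := form_ge (D := D)
  refine ⟨C, hC, fun a n k θ r ha hθ hfew hr => ?_⟩
  obtain ⟨f, hf, hpos, hle⟩ := hr
  obtain ⟨Z, hZ, hZm⟩ := few_finset hfew
  obtain ⟨x, hx, hv⟩ := kern Z hZ fun i => (hf i).1
  have h1 := h a n (θ - 1 / 2) _ ha (by linarith) (Hn_comb hf x) fun ρ hρ => hv ρ (hZm ρ hρ)
  have h2 := h1.trans (hle x)
  have h3 := le_of_mul_le_mul_right h2 (hpos x hx)
  have e : 2 * (θ - 1 / 2) * a = (2 * θ - 1) * a := by ring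
  rw [e] at h3
  exact h3

theorem eg_ge : ∃ C : ℝ, 0 < C ∧ ∀ (a : ℝ) (n k : ℕ) (θ : ℝ), 1 ≤ a → 1 / 2 ≤ θ → (Rt θ).encard < k →
    -(C * a ^ 2 * Real.log (n + 3) * Real.exp ((2 * θ - 1) * a)) ≤ eg a n k := by
  obtain ⟨C, hC, h⟩ := neg_ge (D := D)
  refine ⟨C, hC, fun a n k θ ha hθ hfew => ?_⟩
  refine Real.le_sInf (fun r hr => h a n k θ r ha hθ hfew hr) ?_
  have : 0 ≤ Real.log ((n : ℝ) + 3) := Real.log_nonneg (by have : (0 : ℝ) ≤ n := Nat.cast_nonneg n; linarith)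
  rw [neg_nonpos]
  positivity

lemma eg_le {a : ℝ} {n k : ℕ} {r : ℝ} (ha : 1 ≤ a) (hk : 1 ≤ k) (hr : Neg a n k r) : eg a n k ≤ r := by
  obtain ⟨C, hC, h⟩ := neg_ge (D := D)
  refine csInf_le ⟨_, fun r hr => h a n k (3 / 2) r ha (by norm_num) ?_ hr⟩ hr
  rw [Rt_empty le_rfl, Set.encard_empty]
  exact_mod_cast hk

/-- the index -/
theorem index_le {a : ℝ} {ν : ℕ∞} {k : ℕ} (h : (Rt (1 / 2)).encard < k) {f : Fin k → ℝ → ℂ} (hf : ∀ i, Hn a ν (f i)) :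
    ∃ x : Fin k → ℂ, x ≠ 0 ∧ 0 ≤ QQ (fun t => ∑ i, x i * f i t) := by
  obtain ⟨Z, hZ, hZm⟩ := few_finset h
  obtain ⟨x, hx, hv⟩ := kern Z hZ fun i => (hf i).1
  exact ⟨x, hx, QQ_nonneg_of fun ρ hρ => hv ρ (hZm ρ (by rw [sub_self]; exact hρ))⟩

end Pool.Agent.N965.LE
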