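import Pool.Agent.Y23.PP

/-! # Plancherel-Polya in the strip with an explicit constant -/

set_option autoImplicit false

open MeasureTheory Complex Filter Topology Set
open scoped ComplexConjugate

namespace Pool.Agent.N965.LE

open Pool.Agent.Y23

/-- the reproducing kernel with support `[-a-1, a+1]` -/
noncomputable def kp (a x : ℝ) : ℂ := (a + 1 : ℝ) * (tent (a + 1) x : ℂ) - (a : ℝ) * (tent a x : ℂ)

lemma Fa_kp {a : ℝ} (ha : 0 < a) : Fa (a + 1) (kp a) :=
  ((Fa_tent (by linarith : 0 < a + 1)).smul _).sub (((Fa_tent ha).mono (by linarith)).smul _)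

lemma kp_one {a x : ℝ} (ha : 0 < a) (hx : |x| ≤ a) : kp a x = 1 := by
  unfold kp tent
  rw [if_pos (by linarith), if_pos hx]
  have h1 : (a : ℂ) ≠ 0 := by exact_mod_cast ha.ne'
  have h2 : (a : ℂ) + 1 ≠ 0 := by
    have : ((a + 1 : ℝ) : ℂ) ≠ 0 := by exact_mod_cast (by linarith : a + 1 ≠ 0)
    push_cast at this
    exact this
  push_cast
  field_simp
  ring

lemma kp_conj (a x : ℝ) : conj (kp a x) = kp a x := by
  unfold kp
  simp only [map_sub, map_mul, conj_ofReal]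

lemma kp_norm_le {a : ℝ} (ha : 0 < a) (x : ℝ) : ‖kp a x‖ ≤ 1 := by
  unfold kp tent
  by_cases h1 : |x| ≤ a
  · have := kp_one ha h1
    unfold kp tent at this
    rw [this]; simp
  · rw [if_neg h1]
    push Not at h1
    by_cases h2 : |x| ≤ a + 1
    · rw [if_pos h2]
      have h3 : ((a + 1 : ℝ) : ℂ) * ((1 - |x| / (a + 1) : ℝ) : ℂ) - ((a : ℝ) : ℂ) * ((0 : ℝ) : ℂ) = ((a + 1 - |x| : ℝ) : ℂ) := by
        rw [← Complex.ofReal_mul, ofReal_zero, mul_zero, sub_zero]
        congr 1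
        field_simp
      rw [h3, Complex.norm_real, Real.norm_eq_abs, abs_le]
      constructor <;> linarith
    · rw [if_neg h2]; simp

lemma TT_kp_sq {a : ℝ} (ha : 0 < a) (w : ℂ) : w ^ 2 * TT (kp a) w =
    cexp ((a + 1 : ℝ) * w) + cexp (-((a + 1 : ℝ) * w)) - cexp (a * w) - cexp (-(a * w)) := by
  have h1 := TT_tent (by linarith : 0 < a + 1) w
  have h2 := TT_tent ha w
  have h3 : TT (kp a) w = (a + 1 : ℝ) * TT (fun x => (tent (a + 1) x : ℂ)) w - (a : ℝ) * TT (fun x => (tent a x : ℂ)) w := by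
    have := TT_sub ((Fa_tent (by linarith : 0 < a + 1)).smul ((a + 1 : ℝ) : ℂ)) (((Fa_tent ha).mono (by linarith : a ≤ a + 1)).smul ((a : ℝ) : ℂ)) w
    rw [TT_smul, TT_smul] at this
    exact this
  rw [h3, mul_sub, mul_left_comm, h1, mul_left_comm, h2]
  have h4 : (a : ℂ) ≠ 0 := by exact_mod_cast ha.ne'
  have h5 : ((a + 1 : ℝ) : ℂ) ≠ 0 := by exact_mod_cast (by linarith : a + 1 ≠ 0)
  rw [mul_div_cancel₀ _ h5, mul_div_cancel₀ _ h4]
  ring

lemma exp_c_le {c : ℝ} (hc : 0 ≤ c) (w : ℂ) : ‖cexp ((c : ℂ) * w)‖ ≤ Real.exp (c * |w.re|) ∧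
    ‖cexp (-((c : ℂ) * w))‖ ≤ Real.exp (c * |w.re|) := by
  have hre : ((c : ℂ) * w).re = c * w.re := by simp
  constructor
  · rw [Complex.norm_exp, hre]
    exact Real.exp_le_exp.2 (mul_le_mul_of_nonneg_left (le_abs_self _) hc)
  · rw [Complex.norm_exp, neg_re, hre]
    refine Real.exp_le_exp.2 ?_
    have := mul_le_mul_of_nonneg_left (neg_abs_le w.re) hc
    linarith

/-- the kernel decays quadratically in the strip -/
lemma kp_bound {a : ℝ} (ha : 1 ≤ a) (w : ℂ) (hw : |w.re| ≤ 1) :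
    ‖TT (kp a) w‖ ≤ (24 * a * Real.exp (a * |w.re|)) / (1 + w.im ^ 2) := by
  have ha0 : 0 < a := by linarith
  set E : ℝ := Real.exp ((a + 1) * |w.re|) with hE
  have hE0 : 0 < E := Real.exp_pos _
  have hEa : E ≤ 3 * Real.exp (a * |w.re|) := by
    rw [hE, add_mul, one_mul, Real.exp_add, mul_comm]
    refine mul_le_mul_of_nonneg_right ?_ (Real.exp_pos _).le
    have h1 : Real.exp |w.re| ≤ Real.exp 1 := Real.exp_le_exp.2 hw
    have := Real.exp_one_lt_d9
    linarith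
  -- the trivial bound
  have h1 : ‖TT (kp a) w‖ ≤ 2 * (a + 1) * E := by
    unfold TT
    have h2 : (fun x : ℝ => kp a x * cexp (w * x)) = (Icc (-(a + 1)) (a + 1)).indicator (fun x : ℝ => kp a x * cexp (w * x)) := by
      funext x
      by_cases hx : x ∈ Icc (-(a + 1)) (a + 1)
      · rw [indicator_of_mem hx]
      · rw [indicator_of_notMem hx]
        rw [mem_Icc, ← abs_le, not_le] at hx
        rw [(Fa_kp ha0).2 x hx, zero_mul]
    rw [h2, integral_indicator measurableSet_Icc]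
    refine (norm_setIntegral_le_of_norm_le_const (C := E) (by simp) fun x hx => ?_).trans (le_of_eq ?_)
    · rw [norm_mul, Complex.norm_exp]
      have h3 : (w * x).re ≤ (a + 1) * |w.re| := by
        have h4 : (w * x).re = w.re * x := by simp
        rw [h4]
        rw [mem_Icc, ← abs_le] at hx
        calc w.re * x ≤ |w.re * x| := le_abs_self _
          _ = |x| * |w.re| := by rw [abs_mul, mul_comm]
          _ ≤ _ := mul_le_mul_of_nonneg_right hx (abs_nonneg _)
      have h4 := Real.exp_le_exp.2 h3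
      have h5 := kp_norm_le ha0 x
      calc ‖kp a x‖ * Real.exp (w * x).re ≤ 1 * E := mul_le_mul h5 h4 (Real.exp_pos _).le zero_le_one
        _ = E := one_mul _
    · rw [Measure.real, Real.volume_Icc, ENNReal.toReal_ofReal (by linarith)]
      ring
  have h2 : ‖w‖ ^ 2 * ‖TT (kp a) w‖ ≤ 4 * E := by
    rw [← norm_pow, ← norm_mul, TT_kp_sq ha0]
    obtain ⟨h4, h5⟩ := exp_c_le (by linarith : (0 : ℝ) ≤ a + 1) w
    obtain ⟨h6, h7⟩ := exp_c_le ha0.le w
    have h8 : Real.exp (a * |w.re|) ≤ E := Real.exp_le_exp.2 (by nlinarith [abs_nonneg w.re])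
    calc _ ≤ ‖cexp ((a + 1 : ℝ) * w)‖ + ‖cexp (-((a + 1 : ℝ) * w))‖ + ‖cexp (a * w)‖ + ‖cexp (-(a * w))‖ := by
          refine (norm_sub_le _ _).trans (add_le_add_left ?_ _)
          refine (norm_sub_le _ _).trans (add_le_add_left ?_ _)
          exact norm_add_le _ _
      _ ≤ _ := by linarith
  have h3 : w.im ^ 2 ≤ ‖w‖ ^ 2 := by
    rw [← Complex.normSq_eq_norm_sq, Complex.normSq_apply]
    nlinarith [sq_nonneg w.re]
  rw [le_div_iff₀ (by positivity)]
  have h4 : w.im ^ 2 * ‖TT (kp a) w‖ ≤ 4 * E :=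
    (mul_le_mul_of_nonneg_right h3 (norm_nonneg _)).trans h2
  have h5 : ‖TT (kp a) w‖ * (1 + w.im ^ 2) ≤ (2 * (a + 1) + 4) * E := by nlinarith
  have h6 : (2 * (a + 1) + 4) * E ≤ (8 * a) * E := mul_le_mul_of_nonneg_right (by linarith) hE0.le
  have h7 : (8 * a) * E ≤ (8 * a) * (3 * Real.exp (a * |w.re|)) := mul_le_mul_of_nonneg_left hEa (by linarith)
  linarith

/-- the reproducing formula -/
lemma reproduce2 {a : ℝ} (ha : 0 < a) {f : ℝ → ℂ} (hf : Fa a f) (w : ℂ) :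
    ∫ t : ℝ, TT f (t * I) * TT (kp a) (w - t * I) = 2 * Real.pi * TT f w := by
  have hg : Fa (a + 1) (fun x => kp a x * cexp (conj w * x)) := (Fa_kp ha).mul_bdd (by fun_prop)
  have h := parseval hf hg
  have e1 : ∫ x : ℝ, f x * conj (kp a x * cexp (conj w * x)) = TT f w := by
    unfold TT
    congr 1
    funext x
    by_cases hx : a < |x|
    · rw [hf.2 x hx]; simp
    · rw [not_lt] at hx
      rw [kp_one ha hx, one_mul, ← Complex.exp_conj, map_mul, conj_ofReal, conj_conj]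
  rw [e1] at h
  rw [← h]
  congr 1
  funext t
  rw [TT_mul_exp, TT_conj]
  simp only [kp_conj]
  congr 2
  rw [map_add, conj_conj, map_mul, conj_I, conj_ofReal]
  ring

/-- Plancherel-Polya in the strip, explicitly -/
lemma pp2 {a : ℝ} (ha : 1 ≤ a) {f : ℝ → ℂ} (hf : Fa a f) (w : ℂ) (hw : |w.re| ≤ 1) :
    ‖TT f w‖ ^ 2 ≤ (24 * a * Real.exp (a * |w.re|)) ^ 2 * ∫ t : ℝ, ‖TT f (t * I)‖ ^ 2 * (1 / (1 + (w.im - t) ^ 2)) := by
  have ha0 : 0 < a := by linarith
  set C : ℝ := 24 * a * Real.exp (a * |w.re|) with hCd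
  have hC : 0 < C := by positivity
  have hF := memLp_TT hf
  have hk := int_kernel w.im
  have hk0 : ∀ t : ℝ, 0 ≤ 1 / (1 + (w.im - t) ^ 2) := fun t => by positivity
  have hk1 : ∀ t : ℝ, 1 / (1 + (w.im - t) ^ 2) ≤ 1 := fun t => by
    rw [div_le_one (by positivity)]; nlinarith [sq_nonneg (w.im - t)]
  set v : ℝ → ℝ := fun t => Real.sqrt (1 / (1 + (w.im - t) ^ 2)) with hv
  have hvm : AEStronglyMeasurable v volume := by
    have : Continuous v := by
      refine Real.continuous_sqrt.comp (Continuous.div continuous_const (by fun_prop) fun t => ?_)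
      positivity
    exact this.aestronglyMeasurable
  have hv2 : ∀ t, v t ^ 2 = 1 / (1 + (w.im - t) ^ 2) := fun t => Real.sq_sqrt (hk0 t)
  have hvL : MemLp v 2 volume := by
    rw [memLp_two_iff_integrable_sq hvm]
    simp only [hv2]
    exact hk.1
  have hv1 : ∀ t, v t ≤ 1 := fun t => Real.sqrt_le_one.2 (hk1 t)
  have hu : MemLp (fun t : ℝ => ‖TT f (t * I)‖ * v t) 2 volume := by
    refine hF.norm.mono (hF.norm.1.mul hvm) (Eventually.of_forall fun t => ?_)
    rw [norm_mul]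
    have : ‖v t‖ ≤ 1 := by
      rw [Real.norm_eq_abs, abs_of_nonneg (Real.sqrt_nonneg _)]; exact hv1 t
    exact mul_le_of_le_one_right (norm_nonneg _) this
  have h1 : ‖2 * Real.pi * TT f w‖ ≤ ∫ t : ℝ, (‖TT f (t * I)‖ * v t) * (C * v t) := by
    rw [← reproduce2 ha0 hf w]
    refine norm_integral_le_of_norm_le (hu.integrable_mul (hvL.const_mul C)) (Eventually.of_forall fun t => ?_)
    rw [norm_mul]
    have h2 := kp_bound ha (w - t * I) (by simpa using hw)
    have h3 : (w - t * I).im = w.im - t := by simp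
    have h3' : (w - t * I).re = w.re := by simp
    rw [h3, h3', ← hCd] at h2
    have h4 : (‖TT f (t * I)‖ * v t) * (C * v t) = ‖TT f (t * I)‖ * (C / (1 + (w.im - t) ^ 2)) := by
      calc _ = ‖TT f (t * I)‖ * (C * v t ^ 2) := by ring
        _ = _ := by rw [hv2]; ring
    rw [h4]
    exact mul_le_mul_of_nonneg_left h2 (norm_nonneg _)
  have h2 := cs_int hu (hvL.const_mul C) (fun t => mul_nonneg (norm_nonneg _) (Real.sqrt_nonneg _))
    (fun t => mul_nonneg hC.le (Real.sqrt_nonneg _))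
  have e1 : ∫ t : ℝ, (‖TT f (t * I)‖ * v t) ^ 2 =
      ∫ t : ℝ, ‖TT f (t * I)‖ ^ 2 * (1 / (1 + (w.im - t) ^ 2)) := by
    congr 1
    funext t
    rw [mul_pow, hv2]
  have e2 : ∫ t : ℝ, (C * v t) ^ 2 = C ^ 2 * Real.pi := by
    have : (fun t => (C * v t) ^ 2) = fun t => C ^ 2 * (1 / (1 + (w.im - t) ^ 2)) := by
      funext t
      rw [mul_pow, hv2]
    rw [this, integral_const_mul, hk.2]
  rw [e1, e2] at h2
  set J := ∫ t : ℝ, ‖TT f (t * I)‖ ^ 2 * (1 / (1 + (w.im - t) ^ 2)) with hJ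
  have hJ0 : 0 ≤ J := integral_nonneg fun t => mul_nonneg (by positivity) (hk0 t)
  have h3 : ‖2 * Real.pi * TT f w‖ ^ 2 ≤ J * (C ^ 2 * Real.pi) :=
    (pow_le_pow_left₀ (norm_nonneg _) h1 2).trans h2
  have h4 : ‖2 * Real.pi * TT f w‖ ^ 2 = (2 * Real.pi) ^ 2 * ‖TT f w‖ ^ 2 := by
    rw [norm_mul, mul_pow]
    congr 2
    have : ‖((2 * Real.pi : ℝ) : ℂ)‖ = 2 * Real.pi := by
      rw [Complex.norm_real, Real.norm_eq_abs, abs_of_pos (by positivity)]
    push_cast at this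
    exact this
  rw [h4] at h3
  have hpi := Real.pi_gt_three
  have h5 : 0 ≤ C ^ 2 * J := by positivity
  have h6 : Real.pi * ‖TT f w‖ ^ 2 ≤ Real.pi * (C ^ 2 * J) := by
    nlinarith [sq_nonneg ‖TT f w‖, Real.pi_pos, mul_nonneg Real.pi_pos.le (sq_nonneg ‖TT f w‖)]
  exact le_of_mul_le_mul_left h6 Real.pi_pos

end Pool.Agent.N965.LE
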