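import Pool.Agent.Y23.G.Fm
import Pool.Agent.N965.LE.PP

/-! # Functions whose Fourier coefficients of large index vanish -/

set_option autoImplicit false
set_option linter.unusedSectionVars false
set_option maxHeartbeats 2000000

open Complex Filter Topology Set MeasureTheory
open scoped ComplexConjugate

namespace Pool.Agent.N965.LE

open Pool.Agent.Y23 Pool.Agent.Y23.G

/-- the node of index `k` -/
noncomputable def nd (a : ℝ) (k : ℤ) : ℂ := ((Real.pi * k / a : ℝ) : ℂ) * I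

/-- the form domain with the condition on the Fourier coefficients -/
def Hn (a : ℝ) (ν : ℕ∞) (f : ℝ → ℂ) : Prop := Fa a f ∧ Integrable (fun v : ℝ => Lg v * ‖TT f (v * I)‖ ^ 2) ∧
  ∀ k : ℤ, ν < (k.natAbs : ℕ∞) → TT f (nd a k) = 0

/-- admissible points -/
def ad (a : ℝ) (ν : ℕ∞) (z : ℂ) : Prop := ∀ k : ℤ, ν < (k.natAbs : ℕ∞) → z ≠ nd a k

lemma nd_re (a : ℝ) (k : ℤ) : (nd a k).re = 0 := by simp [nd]

lemma nd_im (a : ℝ) (k : ℤ) : (nd a k).im = Real.pi * k / a := by simp [nd]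

lemma conj_nd (a : ℝ) (k : ℤ) : conj (nd a k) = nd a (-k) := by
  apply Complex.ext
  · rw [Complex.conj_re, nd_re, nd_re]
  · rw [Complex.conj_im, nd_im, nd_im]; push_cast; ring

lemma neg_nd (a : ℝ) (k : ℤ) : -nd a k = nd a (-k) := by
  apply Complex.ext
  · rw [Complex.neg_re, nd_re, nd_re]; simp
  · rw [Complex.neg_im, nd_im, nd_im]; push_cast; ring

lemma ad_off {a : ℝ} {ν : ℕ∞} {z : ℂ} (hz : z.re ≠ 0) : ad a ν z := by
  intro k _ h
  rw [h, nd_re] at hz
  exact hz rfl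

lemma Hn.hd {a : ℝ} {ν : ℕ∞} {f : ℝ → ℂ} (hf : Hn a ν f) : Hd a f := ⟨hf.1, hf.2.1⟩

lemma Hn.zero {a : ℝ} {ν : ℕ∞} : Hn a ν (fun _ => (0 : ℂ)) := by
  have h : Hd a (fun _ => (0 : ℂ)) := Hd.zero
  exact ⟨h.1, h.2, fun k _ => by unfold TT; simp⟩

lemma Hn.smul {a : ℝ} {ν : ℕ∞} {f : ℝ → ℂ} (hf : Hn a ν f) (c : ℂ) : Hn a ν (fun x => c * f x) := by
  have h := hf.hd.smul c
  exact ⟨h.1, h.2, fun k hk => by rw [TT_smul, hf.2.2 k hk, mul_zero]⟩

lemma Hn.add {a : ℝ} {ν : ℕ∞} {f g : ℝ → ℂ} (hf : Hn a ν f) (hg : Hn a ν g) : Hn a ν (fun x => f x + g x) := by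
  have h := hf.hd.add hg.hd
  exact ⟨h.1, h.2, fun k hk => by rw [TT_add hf.1 hg.1, hf.2.2 k hk, hg.2.2 k hk, add_zero]⟩

lemma Hn.sub {a : ℝ} {ν : ℕ∞} {f g : ℝ → ℂ} (hf : Hn a ν f) (hg : Hn a ν g) : Hn a ν (fun x => f x - g x) := by
  have h := hf.hd.sub hg.hd
  exact ⟨h.1, h.2, fun k hk => by rw [TT_sub hf.1 hg.1, hf.2.2 k hk, hg.2.2 k hk, sub_zero]⟩

lemma Hn.div {a : ℝ} {ν : ℕ∞} (ha : 0 < a) {f : ℝ → ℂ} (hf : Hn a ν f) (w0 : ℂ) (hw0 : ad a ν w0) (h0 : TT f w0 = 0) :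
    ∃ g : ℝ → ℂ, Hn a ν g ∧ (∀ w, (w - w0) * TT g w = TT f w) ∧ (w0.re = 0 → N2 g ≤ 4 * a ^ 2 * N2 f) := by
  obtain ⟨g, hg, h1, h2⟩ := hf.hd.div ha w0 h0
  refine ⟨g, ⟨hg.1, hg.2, fun k hk => ?_⟩, h1, h2⟩
  have h3 := h1 (nd a k)
  rw [hf.2.2 k hk] at h3
  exact (mul_eq_zero.1 h3).resolve_left (sub_ne_zero.2 fun h => hw0 k hk h.symm)

/-- the indicator of the interval -/
noncomputable def box (a x : ℝ) : ℂ := (Icc (-a) a).indicator (fun _ => (1 : ℂ)) x

lemma Fa_box {a : ℝ} : Fa a (box a) := by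
  refine ⟨?_, fun x hx => ?_⟩
  · unfold box
    exact memLp_indicator_const 2 measurableSet_Icc 1 (Or.inr (by simp))
  · unfold box
    rw [indicator_of_notMem]
    rw [mem_Icc, ← abs_le, not_le]
    exact hx

lemma TT_box {a : ℝ} (ha : 0 < a) (u : ℂ) : u * TT (box a) u = cexp (a * u) - cexp (-(a * u)) := by
  have h1 : TT (box a) u = ∫ x in (-a)..a, cexp (u * x) := by
    unfold TT
    rw [intervalIntegral.integral_of_le (by linarith), ← integral_Icc_eq_integral_Ioc, ← integral_indicator measurableSet_Icc]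
    congr 1
    funext x
    unfold box
    by_cases hx : x ∈ Icc (-a) a
    · rw [indicator_of_mem hx, indicator_of_mem hx, one_mul]
    · rw [indicator_of_notMem hx, indicator_of_notMem hx, zero_mul]
  rcases eq_or_ne u 0 with h | h
  · rw [h]; simp
  · rw [h1, integral_exp_mul_complex h, mul_div_cancel₀ _ h]
    congr 2
    · ring
    · push_cast; ring

lemma TT_box_le {a : ℝ} (ha : 0 < a) (u : ℂ) : ‖TT (box a) u‖ ≤ 2 * a * Real.exp (a * |u.re|) := by
  unfold TT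
  have h1 : (fun x : ℝ => box a x * cexp (u * x)) = (Icc (-a) a).indicator (fun x : ℝ => cexp (u * x)) := by
    funext x
    unfold box
    by_cases hx : x ∈ Icc (-a) a
    · rw [indicator_of_mem hx, indicator_of_mem hx, one_mul]
    · rw [indicator_of_notMem hx, indicator_of_notMem hx, zero_mul]
  rw [h1, integral_indicator measurableSet_Icc]
  refine (norm_setIntegral_le_of_norm_le_const (C := Real.exp (a * |u.re|)) (by simp) fun x hx => ?_).trans (le_of_eq ?_)
  · rw [Complex.norm_exp]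
    apply Real.exp_le_exp.2
    have h2 : (u * x).re = u.re * x := by simp
    rw [h2]
    rw [mem_Icc, ← abs_le] at hx
    calc u.re * x ≤ |u.re * x| := le_abs_self _
      _ = |x| * |u.re| := by rw [abs_mul, mul_comm]
      _ ≤ _ := mul_le_mul_of_nonneg_right hx (abs_nonneg _)
  · rw [Measure.real, Real.volume_Icc, ENNReal.toReal_ofReal (by linarith)]
    ring

lemma TT_box_le2 {a : ℝ} (ha : 0 < a) (u : ℂ) : (1 + |u.im|) * ‖TT (box a) u‖ ≤ (2 * a + 2) * Real.exp (a * |u.re|) := by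
  have h1 := TT_box_le ha u
  have h2 : ‖u‖ * ‖TT (box a) u‖ ≤ 2 * Real.exp (a * |u.re|) := by
    rw [← norm_mul, TT_box ha]
    refine (norm_sub_le _ _).trans ?_
    have h3 : ∀ c : ℝ, |c| ≤ a * |u.re| → Real.exp c ≤ Real.exp (a * |u.re|) := fun c hc =>
      Real.exp_le_exp.2 ((le_abs_self c).trans hc)
    rw [Complex.norm_exp, Complex.norm_exp]
    have e1 : ((a : ℂ) * u).re = a * u.re := by simp
    rw [Complex.neg_re, e1]
    have h4 := h3 (a * u.re) (by rw [abs_mul, abs_of_pos ha])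
    have h5 := h3 (-(a * u.re)) (by rw [abs_neg, abs_mul, abs_of_pos ha])
    linarith
  have h3 : |u.im| * ‖TT (box a) u‖ ≤ ‖u‖ * ‖TT (box a) u‖ :=
    mul_le_mul_of_nonneg_right (Complex.abs_im_le_norm u) (norm_nonneg _)
  linarith

/-- the lower bound near the origin -/
lemma TT_box_ge {a : ℝ} (ha : 0 < a) {u : ℂ} (hu : a * |u.im| ≤ Real.pi / 2) : a ≤ ‖TT (box a) u‖ := by
  have hpi := Real.pi_pos
  rcases eq_or_ne u 0 with h | h
  · have h1 : TT (box a) u = 2 * a := by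
      rw [h]
      unfold TT box
      simp only [zero_mul, Complex.exp_zero, mul_one]
      rw [integral_indicator measurableSet_Icc]
      simp only [integral_const, Measure.real, Measure.restrict_apply_univ, Real.volume_Icc]
      rw [ENNReal.toReal_ofReal (by linarith)]
      simp
      ring
    rw [h1]
    have : ‖(2 * a : ℂ)‖ = 2 * a := by
      rw [norm_mul, Complex.norm_real, Real.norm_eq_abs, abs_of_pos ha]; simp
    rw [this]; linarith
  · have hu0 : 0 < ‖u‖ := norm_pos_iff.2 h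
    have h1 : ‖u‖ * ‖TT (box a) u‖ = ‖cexp (a * u) - cexp (-(a * u))‖ := by rw [← norm_mul, TT_box ha]
    have h2 : cexp (a * u) - cexp (-(a * u)) = 2 * Complex.sinh (a * u) := by
      rw [Complex.sinh]; ring
    -- the modulus of the hyperbolic sine
    set x := a * u.re with hx
    set y := a * u.im with hy
    have e1 : (a : ℂ) * u = x + y * I := by
      apply Complex.ext <;> simp [hx, hy]
    have h3 : ‖Complex.sinh (a * u)‖ ^ 2 = Real.sinh x ^ 2 + Real.sin y ^ 2 := by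
      rw [e1, Complex.sinh_add, Complex.cosh_mul_I, Complex.sinh_mul_I, ← Complex.ofReal_sinh, ← Complex.ofReal_cosh,
        ← Complex.ofReal_sin, ← Complex.ofReal_cos, ← Complex.normSq_eq_norm_sq]
      have : ((Real.sinh x : ℝ) : ℂ) * ((Real.cos y : ℝ) : ℂ) + ((Real.cosh x : ℝ) : ℂ) * (((Real.sin y : ℝ) : ℂ) * I) =
          ((Real.sinh x * Real.cos y : ℝ) : ℂ) + ((Real.cosh x * Real.sin y : ℝ) : ℂ) * I := by push_cast; ring
      rw [this, Complex.normSq_add_mul_I]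
      have h4 := Real.cosh_sq x
      have h5 := Real.sin_sq_add_cos_sq y
      have : (Real.sinh x * Real.cos y) ^ 2 + (Real.cosh x * Real.sin y) ^ 2 =
          Real.sinh x ^ 2 * Real.cos y ^ 2 + Real.cosh x ^ 2 * Real.sin y ^ 2 := by ring
      rw [this, h4]
      have h6 : Real.cos y ^ 2 = 1 - Real.sin y ^ 2 := by linarith
      rw [h6]; ring
    have h4 : x ^ 2 ≤ Real.sinh x ^ 2 := by
      rw [← sq_abs x, ← sq_abs (Real.sinh x), Real.abs_sinh]
      exact pow_le_pow_left₀ (abs_nonneg _) (Real.self_le_sinh_iff.2 (abs_nonneg _)) 2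
    have hyb : |y| ≤ Real.pi / 2 := by
      rw [hy, abs_mul, abs_of_pos ha]; exact hu
    have h5 : (y / 2) ^ 2 ≤ Real.sin y ^ 2 := by
      have h6 : 2 / Real.pi * |y| ≤ Real.sin |y| := Real.mul_le_sin (abs_nonneg _) hyb
      have h7 : |y| / 2 ≤ 2 / Real.pi * |y| := by
        have h8 : (1 : ℝ) / 2 ≤ 2 / Real.pi := by
          rw [div_le_div_iff₀ (by norm_num) hpi]
          linarith [Real.pi_lt_d2]
        have := mul_le_mul_of_nonneg_right h8 (abs_nonneg y)
        linarith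
      have h8 : (|y| / 2) ^ 2 ≤ Real.sin |y| ^ 2 := pow_le_pow_left₀ (by positivity) (h7.trans h6) 2
      have h9 : Real.sin |y| ^ 2 = Real.sin y ^ 2 := by
        rcases abs_choice y with h | h
        · rw [h]
        · rw [h, Real.sin_neg]; ring
      rw [h9, div_pow, sq_abs, ← div_pow] at h8
      exact h8
    have h6 : (a * ‖u‖ / 2) ^ 2 ≤ ‖Complex.sinh (a * u)‖ ^ 2 := by
      rw [h3]
      have h7 : ‖u‖ ^ 2 = u.re ^ 2 + u.im ^ 2 := by
        rw [← Complex.normSq_eq_norm_sq, Complex.normSq_apply]; ring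
      have h8 : (a * ‖u‖ / 2) ^ 2 = x ^ 2 / 4 + (y / 2) ^ 2 := by
        rw [div_pow, mul_pow, h7, hx, hy]; ring
      rw [h8]
      have := sq_nonneg x
      linarith
    have h7 : a * ‖u‖ / 2 ≤ ‖Complex.sinh (a * u)‖ := abs_le_of_sq_le_sq' h6 (norm_nonneg _) |>.2
    rw [h2, norm_mul] at h1
    have h8 : ‖(2 : ℂ)‖ = 2 := by simp
    rw [h8] at h1
    have h9 : ‖u‖ * a ≤ ‖u‖ * ‖TT (box a) u‖ := by rw [h1]; linarith
    exact le_of_mul_le_mul_left h9 hu0

/-- the exponentials -/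
noncomputable def ek (a : ℝ) (k : ℤ) (x : ℝ) : ℂ := box a x * cexp (-nd a k * x)

lemma Fa_ek {a : ℝ} (k : ℤ) : Fa a (ek a k) := Fa_box.mul_bdd (by fun_prop)

lemma TT_ek {a : ℝ} (k : ℤ) (w : ℂ) : TT (ek a k) w = TT (box a) (-nd a k + w) := TT_mul_exp _ _ _

lemma TT_ek_nd {a : ℝ} (ha : 0 < a) {j k : ℤ} (h : j ≠ k) : TT (ek a k) (nd a j) = 0 := by
  rw [TT_ek]
  have h1 := TT_box ha (-nd a k + nd a j)
  have h2 : (a : ℂ) * (-nd a k + nd a j) = ((j - k : ℤ) : ℂ) * (Real.pi * I) := by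
    unfold nd
    have : (a : ℂ) ≠ 0 := by exact_mod_cast ha.ne'
    push_cast
    field_simp
    ring
  have h3 : cexp (a * (-nd a k + nd a j)) - cexp (-(a * (-nd a k + nd a j))) = 0 := by
    have h4 : cexp (a * (-nd a k + nd a j)) = cexp (-(a * (-nd a k + nd a j))) * cexp (((j - k : ℤ) : ℂ) * (2 * Real.pi * I)) := by
      rw [← Complex.exp_add, h2]
      congr 1
      ring
    rw [h4, Complex.exp_int_mul_two_pi_mul_I, mul_one, sub_self]
  rw [h3] at h1
  refine (mul_eq_zero.1 h1).resolve_left fun h4 => h ?_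
  have h5 : (-nd a k + nd a j).im = 0 := by rw [h4]; simp
  rw [Complex.add_im, Complex.neg_im, nd_im, nd_im] at h5
  have h6 : (Real.pi / a) * ((j : ℝ) - k) = 0 := by
    have : (Real.pi / a) * ((j : ℝ) - k) = -(Real.pi * k / a) + Real.pi * j / a := by ring
    rw [this, h5]
  have h7 : (j : ℝ) - k = 0 := (mul_eq_zero.1 h6).resolve_left (by positivity)
  have : (j : ℝ) = k := by linarith
  exact_mod_cast this

lemma TT_ek_self {a : ℝ} (ha : 0 < a) (k : ℤ) : TT (ek a k) (nd a k) = 2 * a := by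
  rw [TT_ek, neg_add_cancel]
  unfold TT box
  simp only [zero_mul, Complex.exp_zero, mul_one]
  rw [integral_indicator measurableSet_Icc]
  simp only [integral_const, Measure.real, Measure.restrict_apply_univ, Real.volume_Icc]
  rw [ENNReal.toReal_ofReal (by linarith)]
  simp
  ring

/-- a criterion for the form domain -/
lemma Hd_of_bound {a : ℝ} {f : ℝ → ℂ} (hf : Fa a f) {C c : ℝ}
    (h : ∀ v : ℝ, (1 + |v - c|) * ‖TT f (v * I)‖ ≤ C) : Hd a f := by
  refine ⟨hf, ?_⟩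
  have hC : 0 ≤ C := le_trans (by positivity) (h 0)
  obtain ⟨K, hK, hKb⟩ : ∃ K : ℝ, 0 < K ∧ ∀ v : ℝ, Lg v ≤ K * (1 + |v - c|) ^ (1 / 2 : ℝ) := by
    refine ⟨4 * (1 + |c|), by positivity, fun v => ?_⟩
    unfold Lg
    have h1 : 3 + |v| ≤ (3 + |c|) * (1 + |v - c|) := by
      have : |v| ≤ |v - c| + |c| := by
        have := abs_add_le (v - c) c
        simpa using this
      nlinarith [abs_nonneg c, abs_nonneg (v - c)]
    have h2 : 0 < 1 + |v - c| := by positivity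
    calc Real.log (3 + |v|) ≤ Real.log ((3 + |c|) * (1 + |v - c|)) := Real.log_le_log (by positivity) h1
      _ = Real.log (3 + |c|) + Real.log (1 + |v - c|) := Real.log_mul (by positivity) (by positivity)
      _ ≤ (2 + |c|) + 2 * (1 + |v - c|) ^ (1 / 2 : ℝ) := by
          refine add_le_add ?_ ?_
          · have := Real.log_le_sub_one_of_pos (show 0 < 3 + |c| by positivity)
            linarith
          · have := Real.log_le_rpow_div h2.le (show (0 : ℝ) < 1 / 2 by norm_num)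
            linarith
      _ ≤ _ := by
          have h3 : 1 ≤ (1 + |v - c|) ^ (1 / 2 : ℝ) := Real.one_le_rpow (by linarith [abs_nonneg (v - c)]) (by norm_num)
          nlinarith [abs_nonneg c, mul_nonneg (abs_nonneg c) (sub_nonneg.2 h3)]
  have hbig : Integrable (fun v : ℝ => (K * C ^ 2) * (1 + |v - c|) ^ (-(3 / 2) : ℝ)) := by
    refine Integrable.const_mul ?_ _
    have h1 : Integrable (fun x : ℝ => (1 + ‖x‖) ^ (-(3 / 2) : ℝ)) :=
      integrable_one_add_norm (by simp; norm_num)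
    exact h1.comp_sub_right c
  refine hbig.mono' (LL_cont hf).aestronglyMeasurable (Eventually.of_forall fun v => ?_)
  rw [Real.norm_eq_abs, abs_of_nonneg (mul_nonneg (Lg_pos v).le (sq_nonneg _))]
  have h2 : 0 < 1 + |v - c| := by positivity
  have h3 := h v
  have h4 : ‖TT f (v * I)‖ ≤ C / (1 + |v - c|) := by rw [le_div_iff₀ h2]; linarith
  have h5 := pow_le_pow_left₀ (norm_nonneg _) h4 2
  calc Lg v * ‖TT f (v * I)‖ ^ 2 ≤ (K * (1 + |v - c|) ^ (1 / 2 : ℝ)) * (C / (1 + |v - c|)) ^ 2 :=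
        mul_le_mul (hKb v) h5 (by positivity) (by positivity)
    _ = _ := by
        rw [div_pow]
        have h6 : (1 + |v - c|) ^ (-(3 / 2) : ℝ) = (1 + |v - c|) ^ (1 / 2 : ℝ) / (1 + |v - c|) ^ 2 := by
          rw [← Real.rpow_natCast, ← Real.rpow_sub h2]
          norm_num
        rw [h6]; ring

lemma Hd_ek {a : ℝ} (ha : 0 < a) (k : ℤ) : Hd a (ek a k) := by
  refine Hd_of_bound (Fa_ek k) (C := 2 * a + 2) (c := (nd a k).im) fun v => ?_
  rw [TT_ek]
  have h1 := TT_box_le2 ha (-nd a k + v * I)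
  have e1 : (-nd a k + (v : ℂ) * I).im = v - (nd a k).im := by simp; ring
  have e2 : (-nd a k + (v : ℂ) * I).re = 0 := by simp [nd_re]
  rw [e1, e2, abs_zero, mul_zero, Real.exp_zero, mul_one] at h1
  exact h1

lemma Hn_ek {a : ℝ} (ha : 0 < a) {ν : ℕ∞} {k : ℤ} (hk : (k.natAbs : ℕ∞) ≤ ν) : Hn a ν (ek a k) := by
  have h := Hd_ek ha k
  refine ⟨h.1, h.2, fun j hj => TT_ek_nd ha ?_⟩
  intro h1
  rw [h1] at hj
  exact absurd hk (not_le.2 hj)

lemma N2_box {a : ℝ} (ha : 0 < a) : N2 (box a) = 2 * a := by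
  unfold N2 box
  have : (fun x : ℝ => ‖(Icc (-a) a).indicator (fun _ => (1 : ℂ)) x‖ ^ 2) = (Icc (-a) a).indicator (fun _ => (1 : ℝ)) := by
    funext x
    by_cases hx : x ∈ Icc (-a) a
    · rw [indicator_of_mem hx, indicator_of_mem hx]; simp
    · rw [indicator_of_notMem hx, indicator_of_notMem hx]; simp
  rw [this, integral_indicator measurableSet_Icc]
  simp only [integral_const, Measure.real, Measure.restrict_apply_univ, Real.volume_Icc]
  rw [ENNReal.toReal_ofReal (by linarith)]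
  simp
  ring

lemma N2_ek {a : ℝ} (ha : 0 < a) (k : ℤ) : N2 (ek a k) = 2 * a := by
  rw [← N2_box ha]
  unfold N2 ek
  refine integral_congr_ae (Eventually.of_forall fun x => ?_)
  simp only
  rw [norm_mul, Complex.norm_exp]
  have : (-nd a k * x).re = 0 := by
    rw [Complex.mul_re, Complex.neg_re, nd_re, Complex.ofReal_im]; ring
  rw [this, Real.exp_zero, mul_one]

/-- limits -/
lemma Hn.lim {a : ℝ} (ha : 0 < a) {ν : ℕ∞} {f : ℕ → ℝ → ℂ} (hf : ∀ j, Hn a ν (f j)) {g : ℝ → ℂ} (hg : Hd a g)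
    (h : ∀ ε : ℝ, 0 < ε → ∃ N : ℕ, ∀ j, N ≤ j → LL (fun x => f j x - g x) ≤ ε) : Hn a ν g := by
  refine ⟨hg.1, hg.2, fun k hk => ?_⟩
  have key : ∀ ε : ℝ, 0 < ε → ‖TT g (nd a k)‖ ^ 2 ≤ ε := by
    intro ε hε
    obtain ⟨N, hN⟩ := h (ε / (2 * a)) (by positivity)
    have h1 := hN N le_rfl
    have hd := (hf N).hd.sub hg
    have h2 := norm_TT_le ha hd.1 (nd a k)
    rw [nd_re, abs_zero, mul_zero, Real.exp_zero, mul_one, TT_sub (hf N).1 hg.1, (hf N).2.2 k hk, zero_sub, norm_neg] at h2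
    have h3 := N2_le_LL hd
    have h4 := N2_nonneg (fun x => f N x - g x)
    have h5 : N2 (fun x => f N x - g x) ≤ ε / (2 * a) := by nlinarith [Real.pi_gt_three]
    calc ‖TT g (nd a k)‖ ^ 2 ≤ 2 * a * N2 (fun x => f N x - g x) := h2
      _ ≤ 2 * a * (ε / (2 * a)) := mul_le_mul_of_nonneg_left h5 (by positivity)
      _ = ε := by field_simp
  have h2 : ‖TT g (nd a k)‖ ^ 2 = 0 :=
    le_antisymm (le_of_forall_pos_le_add fun ε hε => by rw [zero_add]; exact key ε hε) (sq_nonneg _)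
  exact norm_eq_zero.1 (pow_eq_zero_iff two_ne_zero |>.1 h2)

end Pool.Agent.N965.LE
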