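import Mathlib

/-! # Interpolation at separated points of a line -/

set_option autoImplicit false
set_option linter.unusedSectionVars false
set_option maxHeartbeats 1000000

open Complex Filter Topology Set Polynomial

namespace Pool.Agent.N965.LE

/-- division of an entire function by its zeros -/
lemma div_zeros (S : Finset ℂ) : ∀ {G : ℂ → ℂ}, Differentiable ℂ G → (∀ w ∈ S, G w = 0) →
    ∃ H : ℂ → ℂ, Differentiable ℂ H ∧ ∀ z, G z = (∏ w ∈ S, (z - w)) * H z := by
  classical
  induction S using Finset.induction_on with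
  | empty => intro G hG _; exact ⟨G, hG, fun z => by simp⟩
  | insert w S hw ih =>
    intro G hG h0
    have h1 : Differentiable ℂ (dslope G w) := by
      rw [← differentiableOn_univ]
      exact (Complex.differentiableOn_dslope univ_mem).2 hG.differentiableOn
    have h2 : ∀ z, G z = (z - w) * dslope G w z := by
      intro z
      have := sub_smul_dslope G w z
      rw [smul_eq_mul, h0 w (Finset.mem_insert_self w S), sub_zero] at this
      exact this.symm
    obtain ⟨H, hH, h3⟩ := ih h1 (fun u hu => by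
      have h4 := h2 u
      rw [h0 u (Finset.mem_insert_of_mem hu)] at h4
      have h5 : u - w ≠ 0 := sub_ne_zero.2 (fun h => hw (h ▸ hu))
      exact (mul_eq_zero.1 h4.symm).resolve_left h5)
    refine ⟨H, hH, fun z => ?_⟩
    rw [h2, h3, Finset.prod_insert hw, mul_assoc]

lemma sep_card {s : ℝ} (hs : 0 < s) (U : Finset ℝ) : (∀ x ∈ U, s ≤ x) → (∀ x ∈ U, ∀ y ∈ U, x ≠ y → s ≤ |x - y|) →
    ∀ b : ℝ, 0 ≤ b → (∀ x ∈ U, x ≤ b) → (U.card : ℝ) * s ≤ b := by
  classical
  induction U using Finset.induction_on_max with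
  | empty => intro _ _ b hb _; simpa using hb
  | insert m U hm ih =>
    intro h1 h2 b hb hmax
    have hmU : m ∉ U := fun h => lt_irrefl _ (hm m h)
    have h3 := h1 m (Finset.mem_insert_self m U)
    have h4 := ih (fun x hx => h1 x (Finset.mem_insert_of_mem hx))
      (fun x hx y hy => h2 x (Finset.mem_insert_of_mem hx) y (Finset.mem_insert_of_mem hy)) (m - s) (by linarith)
      (fun x hx => by
        have h5 := hm x hx
        have h6 := h2 m (Finset.mem_insert_self m U) x (Finset.mem_insert_of_mem hx) (ne_of_gt h5)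
        rw [abs_of_pos (by linarith)] at h6
        linarith)
    have h5 := hmax m (Finset.mem_insert_self m U)
    rw [Finset.card_insert_of_notMem hmU]
    push_cast
    linarith

lemma sep_prod {s : ℝ} (hs : 0 < s) (U : Finset ℝ) : (∀ x ∈ U, s ≤ x) → (∀ x ∈ U, ∀ y ∈ U, x ≠ y → s ≤ |x - y|) →
    s ^ U.card * (U.card.factorial : ℝ) ≤ ∏ x ∈ U, x := by
  classical
  induction U using Finset.induction_on_max with
  | empty => intro _ _; simp
  | insert m U hm ih =>
    intro h1 h2
    have hmU : m ∉ U := fun h => lt_irrefl _ (hm m h)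
    have h3 := h1 m (Finset.mem_insert_self m U)
    have h4 := ih (fun x hx => h1 x (Finset.mem_insert_of_mem hx))
      (fun x hx y hy => h2 x (Finset.mem_insert_of_mem hx) y (Finset.mem_insert_of_mem hy))
    have h5 := sep_card hs (insert m U) h1 h2 m (by linarith) (fun x hx => by
      rcases Finset.mem_insert.1 hx with h | h
      · exact h.le
      · exact (hm x h).le)
    rw [Finset.card_insert_of_notMem hmU] at h5 ⊢
    rw [Finset.prod_insert hmU, pow_succ, Nat.factorial_succ]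
    push_cast at h5 ⊢
    have h6 : 0 ≤ s ^ U.card * (U.card.factorial : ℝ) := by positivity
    calc s ^ U.card * s * ((U.card + 1) * (U.card.factorial : ℝ)) = ((U.card + 1) * s) * (s ^ U.card * (U.card.factorial : ℝ)) := by ring
      _ ≤ m * ∏ x ∈ U, x := mul_le_mul h5 h4 h6 (by linarith)

lemma fact_ge (k : ℕ) : ((k : ℝ) / 3) ^ k ≤ (k.factorial : ℝ) := by
  have h1 := Real.pow_div_factorial_le_exp (x := (k : ℝ)) (Nat.cast_nonneg k) k
  have h2 : (0 : ℝ) < k.factorial := by exact_mod_cast Nat.factorial_pos k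
  rw [div_le_iff₀ h2] at h1
  have h3 : Real.exp (k : ℝ) ≤ 3 ^ k := by
    rw [← Real.exp_one_pow]
    exact pow_le_pow_left₀ (Real.exp_pos 1).le (by have := Real.exp_one_lt_d9; linarith) k
  rw [div_pow, div_le_iff₀ (by positivity)]
  calc (k : ℝ) ^ k ≤ Real.exp k * k.factorial := h1
    _ ≤ 3 ^ k * k.factorial := mul_le_mul_of_nonneg_right h3 h2.le
    _ = _ := mul_comm _ _

/-- the product of the distances -/
lemma sep_prod2 {s : ℝ} (hs : 0 < s) (Γ : Finset ℝ) (h2 : ∀ x ∈ Γ, ∀ y ∈ Γ, x ≠ y → s ≤ |x - y|) {γ : ℝ} (hγ : γ ∈ Γ)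
    {k : ℕ} (hk : Γ.card = k + 1) : (s * k / 6) ^ k ≤ ∏ x ∈ Γ.erase γ, |γ - x| := by
  classical
  set U := ((Γ.erase γ).filter fun x => γ < x).image (fun x => x - γ) with hU
  set V := ((Γ.erase γ).filter fun x => ¬ γ < x).image (fun x => γ - x) with hV
  have hUi : ∀ x y : ℝ, x - γ = y - γ → x = y := fun x y h => by linarith
  have hVi : ∀ x y : ℝ, γ - x = γ - y → x = y := fun x y h => by linarith
  have hUc : U.card = ((Γ.erase γ).filter fun x => γ < x).card := Finset.card_image_of_injOn fun x _ y _ h => hUi x y h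
  have hVc : V.card = ((Γ.erase γ).filter fun x => ¬ γ < x).card := Finset.card_image_of_injOn fun x _ y _ h => hVi x y h
  have hsum : U.card + V.card = k := by
    rw [hUc, hVc, Finset.card_filter_add_card_filter_not, Finset.card_erase_of_mem hγ, hk]; rfl
  have hUp : ∏ x ∈ U, x = ∏ x ∈ (Γ.erase γ).filter (fun x => γ < x), |γ - x| := by
    rw [hU, Finset.prod_image (fun x _ y _ h => hUi x y h)]
    refine Finset.prod_congr rfl fun x hx => ?_
    have := (Finset.mem_filter.1 hx).2
    rw [abs_sub_comm, abs_of_pos (by linarith)]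
  have hVp : ∏ x ∈ V, x = ∏ x ∈ (Γ.erase γ).filter (fun x => ¬ γ < x), |γ - x| := by
    rw [hV, Finset.prod_image (fun x _ y _ h => hVi x y h)]
    refine Finset.prod_congr rfl fun x hx => ?_
    have := (Finset.mem_filter.1 hx).2
    rw [abs_of_nonneg (by linarith [not_lt.1 this])]
  have h3 : s ^ U.card * (U.card.factorial : ℝ) ≤ ∏ x ∈ U, x := by
    refine sep_prod hs U (fun x hx => ?_) (fun x hx y hy hne => ?_)
    · rw [hU, Finset.mem_image] at hx
      obtain ⟨y, hy, rfl⟩ := hx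
      rw [Finset.mem_filter, Finset.mem_erase] at hy
      have := h2 y hy.1.2 γ hγ hy.1.1
      rwa [abs_of_pos (by linarith [hy.2])] at this
    · rw [hU, Finset.mem_image] at hx hy
      obtain ⟨x', hx', rfl⟩ := hx
      obtain ⟨y', hy', rfl⟩ := hy
      rw [Finset.mem_filter, Finset.mem_erase] at hx' hy'
      have := h2 x' hx'.1.2 y' hy'.1.2 (fun h => hne (by rw [h]))
      have e : x' - γ - (y' - γ) = x' - y' := by ring
      rwa [e]
  have h4 : s ^ V.card * (V.card.factorial : ℝ) ≤ ∏ x ∈ V, x := by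
    refine sep_prod hs V (fun x hx => ?_) (fun x hx y hy hne => ?_)
    · rw [hV, Finset.mem_image] at hx
      obtain ⟨y, hy, rfl⟩ := hx
      rw [Finset.mem_filter, Finset.mem_erase] at hy
      have := h2 y hy.1.2 γ hγ hy.1.1
      rwa [abs_of_nonpos (by linarith [not_lt.1 hy.2]), neg_sub] at this
    · rw [hV, Finset.mem_image] at hx hy
      obtain ⟨x', hx', rfl⟩ := hx
      obtain ⟨y', hy', rfl⟩ := hy
      rw [Finset.mem_filter, Finset.mem_erase] at hx' hy'
      have := h2 x' hx'.1.2 y' hy'.1.2 (fun h => hne (by rw [h]))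
      have e : γ - x' - (γ - y') = -(x' - y') := by ring
      rwa [e, abs_neg]
  have h5 : (k.factorial : ℝ) ≤ 2 ^ k * (U.card.factorial * V.card.factorial) := by
    have h6 := Nat.add_choose_mul_factorial_mul_factorial U.card V.card
    rw [hsum] at h6
    have h7 : (k.choose V.card : ℝ) ≤ 2 ^ k := by exact_mod_cast Nat.choose_le_two_pow k V.card
    have h8 : (k.factorial : ℝ) = (k.choose V.card) * (U.card.factorial * V.card.factorial) := by
      rw [← h6]; push_cast; ring
    rw [h8]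
    exact mul_le_mul_of_nonneg_right h7 (by positivity)
  have h9 : ∏ x ∈ Γ.erase γ, |γ - x| = (∏ x ∈ U, x) * ∏ x ∈ V, x := by
    rw [hUp, hVp, Finset.prod_filter_mul_prod_filter_not]
  rw [h9]
  have h10 : (s * k / 6) ^ k = s ^ k * ((k : ℝ) / 3) ^ k / 2 ^ k := by
    rw [← mul_pow, ← div_pow]; congr 1; ring
  rw [h10, div_le_iff₀ (by positivity)]
  calc s ^ k * ((k : ℝ) / 3) ^ k ≤ s ^ k * (2 ^ k * (U.card.factorial * V.card.factorial)) :=
        mul_le_mul_of_nonneg_left ((fact_ge k).trans h5) (by positivity)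
    _ = (s ^ U.card * (U.card.factorial : ℝ)) * (s ^ V.card * (V.card.factorial : ℝ)) * 2 ^ k := by
        rw [← hsum, pow_add s]; ring
    _ ≤ _ := by
        refine mul_le_mul_of_nonneg_right (mul_le_mul h3 h4 (by positivity) ?_) (by positivity)
        exact le_trans (by positivity) h3

/-- **small on separated points implies small on the interval** -/
theorem small_on {F : ℂ → ℂ} (hF : Differentiable ℂ F) {T s μ B D : ℝ} (hT : 0 < T) (hs : 0 < s) (hμ0 : 0 ≤ μ)
    (Γ : Finset ℝ) {k : ℕ} (hk : Γ.card = k + 1) (hk1 : 1 ≤ k) (hΓ : ∀ γ ∈ Γ, |γ| ≤ T)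
    (hsep : ∀ x ∈ Γ, ∀ y ∈ Γ, x ≠ y → s ≤ |x - y|) (hμ : ∀ γ ∈ Γ, ‖F (γ * I)‖ ≤ μ)
    (hB : ∀ ζ : ℂ, ‖ζ‖ = 8 * T → ‖F ζ‖ ≤ B) (hD : 54 * T ≤ D * (s * k)) :
    ∀ z : ℂ, ‖z‖ ≤ T → ‖F z‖ ≤ 2 * ((k + 1) * D ^ k * μ) + (2 / 7) ^ (k + 1) * B := by
  classical
  set v : ℝ → ℂ := fun γ => γ * I with hv
  have hvi : Function.Injective v := by
    intro x y h
    simp only [hv] at h
    have := mul_right_cancel₀ I_ne_zero h
    exact_mod_cast this
  have hvn : ∀ x y : ℝ, ‖v x - v y‖ = |x - y| := by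
    intro x y
    simp only [hv]
    rw [← sub_mul, norm_mul, norm_I, mul_one, ← ofReal_sub, norm_real, Real.norm_eq_abs]
  have hk0 : (0 : ℝ) < k := by exact_mod_cast hk1
  have hsk : 0 < s * k := by positivity
  have hD0 : 0 < D := by
    by_contra h
    rw [not_lt] at h
    have := mul_nonpos_of_nonpos_of_nonneg h hsk.le
    linarith
  set L : ℂ[X] := Lagrange.interpolate Γ v (fun γ => F (γ * I)) with hL
  -- the basis polynomials
  have hbas : ∀ γ ∈ Γ, ∀ z : ℂ, ‖z‖ ≤ 8 * T → ‖(Lagrange.basis Γ v γ).eval z‖ ≤ D ^ k := by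
    intro γ hγ z hz
    rw [Lagrange.basis, eval_prod, norm_prod]
    have e1 : ∀ x ∈ Γ.erase γ, ‖(Lagrange.basisDivisor (v γ) (v x)).eval z‖ = ‖z - v x‖ / |γ - x| := by
      intro x hx
      simp only [Lagrange.basisDivisor, eval_mul, eval_C, eval_sub, eval_X]
      rw [norm_mul, norm_inv, hvn, div_eq_inv_mul]
    rw [Finset.prod_congr rfl e1, Finset.prod_div_distrib]
    have h1 := sep_prod2 hs Γ hsep hγ hk
    have h2 : ∏ x ∈ Γ.erase γ, ‖z - v x‖ ≤ (9 * T) ^ k := by
      have hc : (Γ.erase γ).card = k := by rw [Finset.card_erase_of_mem hγ, hk]; rfl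
      rw [← hc, ← Finset.prod_const]
      refine Finset.prod_le_prod (fun _ _ => norm_nonneg _) fun x hx => ?_
      have h3 := hΓ x (Finset.mem_of_mem_erase hx)
      have h4 : ‖v x‖ = |x| := by
        simp only [hv]; rw [norm_mul, norm_I, mul_one, norm_real, Real.norm_eq_abs]
      have := norm_sub_le z (v x)
      linarith
    have h3 : 0 < (s * k / 6) ^ k := by positivity
    rw [div_le_iff₀ (lt_of_lt_of_le h3 h1)]
    refine h2.trans (le_trans ?_ (mul_le_mul_of_nonneg_left h1 (by positivity)))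
    rw [← mul_pow]
    refine pow_le_pow_left₀ (by positivity) ?_ k
    linarith
  have hLz : ∀ z : ℂ, ‖z‖ ≤ 8 * T → ‖L.eval z‖ ≤ (k + 1) * D ^ k * μ := by
    intro z hz
    rw [hL, Lagrange.interpolate_apply, eval_finsetSum]
    refine (norm_sum_le _ _).trans ?_
    have h1 : ∀ γ ∈ Γ, ‖(C (F (γ * I)) * Lagrange.basis Γ v γ).eval z‖ ≤ D ^ k * μ := by
      intro γ hγ
      rw [eval_mul, eval_C, norm_mul, mul_comm (D ^ k)]
      exact mul_le_mul (hμ γ hγ) (hbas γ hγ z hz) (norm_nonneg _) hμ0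
    refine (Finset.sum_le_card_nsmul _ _ _ h1).trans (le_of_eq ?_)
    rw [nsmul_eq_mul, hk]; push_cast; ring
  -- division
  obtain ⟨H, hH, hGH⟩ := div_zeros (Γ.image v) (G := fun z => F z - L.eval z) (hF.sub L.differentiable) (fun w hw => by
    rw [Finset.mem_image] at hw
    obtain ⟨γ, hγ, rfl⟩ := hw
    have h1 := Lagrange.eval_interpolate_at_node (r := fun γ : ℝ => F (γ * I)) (hvi.injOn (s := (Γ : Set ℝ))) hγ
    rw [← hL] at h1
    show F (v γ) - L.eval (v γ) = 0
    rw [h1]
    exact sub_self _)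
  have hprod : ∀ z, ∏ w ∈ Γ.image v, (z - w) = ∏ γ ∈ Γ, (z - v γ) := fun z => Finset.prod_image fun x _ y _ h => hvi h
  set Bt : ℝ := B + (k + 1) * D ^ k * μ with hBt
  have hHb : ∀ z : ℂ, ‖z‖ ≤ 8 * T → ‖H z‖ ≤ Bt / (7 * T) ^ (k + 1) := by
    intro z hz
    refine norm_le_of_forall_mem_frontier_norm_le (U := Metric.ball 0 (8 * T)) Metric.isBounded_ball
      hH.diffContOnCl (fun ζ hζ => ?_) (by
        rw [closure_ball _ (by positivity)]
        simpa using hz)
    rw [frontier_ball _ (by positivity), mem_sphere_zero_iff_norm] at hζ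
    have h1 := hGH ζ
    rw [hprod] at h1
    have h2 : (7 * T) ^ (k + 1) ≤ ‖∏ γ ∈ Γ, (ζ - v γ)‖ := by
      rw [norm_prod, ← hk, ← Finset.prod_const]
      refine Finset.prod_le_prod (fun _ _ => by positivity) fun x hx => ?_
      have h3 := hΓ x hx
      have h4 : ‖v x‖ = |x| := by
        simp only [hv]; rw [norm_mul, norm_I, mul_one, norm_real, Real.norm_eq_abs]
      have := norm_sub_norm_le ζ (v x)
      linarith
    have h3 : ‖∏ γ ∈ Γ, (ζ - v γ)‖ * ‖H ζ‖ ≤ Bt := by
      rw [← norm_mul, ← h1]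
      refine (norm_sub_le _ _).trans ?_
      have := hLz ζ hζ.le
      have := hB ζ hζ
      linarith
    rw [le_div_iff₀ (by positivity), mul_comm]
    exact (mul_le_mul_of_nonneg_right h2 (norm_nonneg _)).trans h3
  intro z hz
  have hz8 : ‖z‖ ≤ 8 * T := by linarith
  have h1 := hGH z
  rw [hprod] at h1
  have h2 : ‖∏ γ ∈ Γ, (z - v γ)‖ ≤ (2 * T) ^ (k + 1) := by
    rw [norm_prod, ← hk, ← Finset.prod_const]
    refine Finset.prod_le_prod (fun _ _ => norm_nonneg _) fun x hx => ?_
    have h3 := hΓ x hx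
    have h4 : ‖v x‖ = |x| := by
      simp only [hv]; rw [norm_mul, norm_I, mul_one, norm_real, Real.norm_eq_abs]
    have := norm_sub_le z (v x)
    linarith
  have h3 : ‖F z - L.eval z‖ ≤ (2 / 7) ^ (k + 1) * Bt := by
    rw [h1, norm_mul]
    refine (mul_le_mul h2 (hHb z hz8) (norm_nonneg _) (by positivity)).trans (le_of_eq ?_)
    rw [mul_pow, mul_pow, div_pow]
    field_simp
  have h4 := hLz z hz8
  have h5 : ‖F z‖ ≤ ‖F z - L.eval z‖ + ‖L.eval z‖ := by
    have := norm_add_le (F z - L.eval z) (L.eval z)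
    rwa [sub_add_cancel] at this
  have h6 : ((2 : ℝ) / 7) ^ (k + 1) ≤ 1 := pow_le_one₀ (by norm_num) (by norm_num)
  have h7 : 0 ≤ (k + 1) * D ^ k * μ := by positivity
  rw [hBt] at h3
  nlinarith

end Pool.Agent.N965.LE
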