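import Pool.Agent.N965.LE.Hn

/-! # Trigonometric polynomials: completeness and the weighted norm -/

set_option autoImplicit false
set_option linter.unusedSectionVars false
set_option maxHeartbeats 2000000

open Complex Filter Topology Set MeasureTheory
open scoped ComplexConjugate

namespace Pool.Agent.N965.LE

open Pool.Agent.Y23 Pool.Agent.Y23.G

lemma Fa_sum {ι : Type*} (s : Finset ι) {a : ℝ} {f : ι → ℝ → ℂ} (hf : ∀ i ∈ s, Fa a (f i)) :
    Fa a (fun x => ∑ i ∈ s, f i x) := by
  classical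
  induction s using Finset.induction_on with
  | empty => simpa using (Fa.zero (a := a))
  | insert i s hi ih =>
    have h1 := (hf i (Finset.mem_insert_self i s)).add (ih fun j hj => hf j (Finset.mem_insert_of_mem hj))
    refine ⟨?_, fun x hx => ?_⟩
    · have e : (fun x => ∑ j ∈ insert i s, f j x) = fun x => f i x + ∑ j ∈ s, f j x := by
        funext x; rw [Finset.sum_insert hi]
      rw [e]; exact h1.1
    · simp only
      rw [Finset.sum_insert hi]; exact h1.2 x hx

lemma TT_sum {ι : Type*} (s : Finset ι) {a : ℝ} {f : ι → ℝ → ℂ} (hf : ∀ i ∈ s, Fa a (f i)) (w : ℂ) :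
    TT (fun x => ∑ i ∈ s, f i x) w = ∑ i ∈ s, TT (f i) w := by
  classical
  induction s using Finset.induction_on with
  | empty => simp [TT]
  | insert i s hi ih =>
    have e : (fun x => ∑ j ∈ insert i s, f j x) = fun x => f i x + ∑ j ∈ s, f j x := by
      funext x; rw [Finset.sum_insert hi]
    rw [e, TT_add (hf i (Finset.mem_insert_self i s)) (Fa_sum s fun j hj => hf j (Finset.mem_insert_of_mem hj)),
      Finset.sum_insert hi, ih fun j hj => hf j (Finset.mem_insert_of_mem hj)]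

/-- completeness of the exponentials -/
lemma N2_zero_of_nodes {a : ℝ} (ha : 0 < a) {f : ℝ → ℂ} (hf : Fa a f) (h0 : ∀ k : ℤ, TT f (nd a k) = 0) : N2 f = 0 := by
  have hab : -a < a := by linarith
  have h := hasSum_sq_fourierCoeffOn hab (f := f) (hf.1.restrict _)
  have hc : ∀ n : ℤ, fourierCoeffOn hab f n = 0 := by
    intro n
    rw [fourierCoeffOn_eq_integral]
    have h1 : ∫ x in (-a)..a, (fourier (-n)) (x : AddCircle (a - -a)) • f x = TT f (nd a (-n)) := by
      rw [TT_interval ha hf]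
      refine intervalIntegral.integral_congr fun x _ => ?_
      simp only [smul_eq_mul]
      rw [fourier_coe_apply, mul_comm]
      congr 2
      unfold nd
      have : (a : ℂ) ≠ 0 := by exact_mod_cast ha.ne'
      push_cast
      field_simp
      ring
    rw [h1, h0, smul_zero]
  simp only [hc, norm_zero, ne_eq, OfNat.ofNat_ne_zero, not_false_eq_true, zero_pow] at h
  have h2 := h.unique hasSum_zero
  rw [smul_eq_mul] at h2
  have h3 : ∫ x in (-a)..a, ‖f x‖ ^ 2 = 0 := (mul_eq_zero.1 h2).resolve_left (by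
    have : (0 : ℝ) < (a - -a)⁻¹ := by
      apply inv_pos.2; linarith
    exact this.ne')
  unfold N2
  rw [← h3, intervalIntegral.integral_of_le (by linarith), ← integral_Icc_eq_integral_Ioc,
    ← integral_indicator measurableSet_Icc]
  congr 1
  funext x
  by_cases hx : x ∈ Icc (-a) a
  · rw [indicator_of_mem hx]
  · rw [indicator_of_notMem hx]
    rw [mem_Icc, ← abs_le, not_le] at hx
    rw [hf.2 x hx]; simp

lemma TT_zero_of_N2 {a : ℝ} (ha : 0 < a) {f : ℝ → ℂ} (hf : Fa a f) (h0 : N2 f = 0) (w : ℂ) : TT f w = 0 := by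
  have h1 := norm_TT_le ha hf w
  rw [h0, mul_zero] at h1
  have h2 : ‖TT f w‖ ^ 2 = 0 := le_antisymm h1 (sq_nonneg _)
  exact norm_eq_zero.1 (pow_eq_zero_iff two_ne_zero |>.1 h2)

/-- the transform of a trigonometric polynomial -/
lemma TT_trig {a : ℝ} (ha : 0 < a) {n : ℕ} {f : ℝ → ℂ} (hf : Hn a n f) (w : ℂ) :
    TT f w = ∑ k ∈ Finset.Icc (-(n : ℤ)) n, TT f (nd a k) / (2 * a) * TT (ek a k) w := by
  classical
  set s := Finset.Icc (-(n : ℤ)) n with hs
  set g : ℝ → ℂ := fun x => ∑ k ∈ s, (TT f (nd a k) / (2 * a)) * ek a k x with hg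
  have hFk : ∀ k ∈ s, Fa a (fun x => (TT f (nd a k) / (2 * a)) * ek a k x) := fun k _ => (Fa_ek k).smul _
  have hFg : Fa a g := Fa_sum s hFk
  have hTg : ∀ w, TT g w = ∑ k ∈ s, TT f (nd a k) / (2 * a) * TT (ek a k) w := by
    intro w
    rw [hg, TT_sum s hFk]
    exact Finset.sum_congr rfl fun k _ => TT_smul _ _ _
  have hz : N2 (fun x => f x - g x) = 0 := by
    refine N2_zero_of_nodes ha (hf.1.sub hFg) fun j => ?_
    rw [TT_sub hf.1 hFg, hTg]
    by_cases hj : j ∈ s
    · rw [Finset.sum_eq_single_of_mem j hj (fun k _ hk => by rw [TT_ek_nd ha (Ne.symm hk), mul_zero]), TT_ek_self ha]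
      have : (a : ℂ) ≠ 0 := by exact_mod_cast ha.ne'
      field_simp
      ring
    · rw [Finset.sum_eq_zero (fun k hk => by
        have hne : j ≠ k := by
          intro h
          rw [h] at hj
          exact hj hk
        rw [TT_ek_nd ha hne, mul_zero]), sub_zero]
      refine hf.2.2 j ?_
      rw [hs, Finset.mem_Icc] at hj
      have : n < j.natAbs := by omega
      exact_mod_cast this
  have h1 := TT_zero_of_N2 ha (hf.1.sub hFg) hz w
  rw [TT_sub hf.1 hFg, hTg, sub_eq_zero] at h1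
  exact h1

/-- the weighted norm of a trigonometric polynomial -/
theorem LL_le : ∃ C : ℝ, 0 < C ∧ ∀ (a : ℝ) (n : ℕ) (f : ℝ → ℂ), 1 ≤ a → Hn a n f →
    LL f ≤ C * Real.log (n + 3) * N2 f := by
  set J : ℝ := ∫ x : ℝ, (1 + ‖x‖) ^ (-(3 / 2) : ℝ) with hJ
  have hJi : Integrable (fun x : ℝ => (1 + ‖x‖) ^ (-(3 / 2) : ℝ)) := integrable_one_add_norm (by simp; norm_num)
  have hJ0 : 0 ≤ J := integral_nonneg fun x => by positivity
  refine ⟨18 * (2 * Real.pi) + 1000 * J, by positivity, fun a n f ha hf => ?_⟩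
  have ha0 : 0 < a := by linarith
  have hpi := Real.pi_gt_three
  have hpi2 := Real.pi_lt_d2
  have hN := N2_nonneg f
  set b : ℝ := (2 * n + 2 : ℝ) with hb
  have hb2 : 2 ≤ b := by rw [hb]; have : (0 : ℝ) ≤ n := Nat.cast_nonneg n; linarith
  set T : ℝ := b ^ 8 with hT
  have hTb : 64 * b ≤ T := by
    rw [hT]
    have h1 : (2 : ℝ) ^ 7 ≤ b ^ 7 := pow_le_pow_left₀ (by norm_num) hb2 7
    calc 64 * b ≤ 2 ^ 7 * b := mul_le_mul_of_nonneg_right (by norm_num) (by linarith)
      _ ≤ b ^ 7 * b := mul_le_mul_of_nonneg_right h1 (by linarith)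
      _ = b ^ 8 := by ring
  -- the size of the coefficients
  have hcoef : ∀ k : ℤ, ‖TT f (nd a k) / (2 * a)‖ ≤ Real.sqrt (N2 f) := by
    intro k
    have h1 := norm_TT_le ha0 hf.1 (nd a k)
    rw [nd_re, abs_zero, mul_zero, Real.exp_zero, mul_one] at h1
    rw [norm_div]
    have h2 : ‖(2 * a : ℂ)‖ = 2 * a := by
      rw [norm_mul, Complex.norm_real, Real.norm_eq_abs, abs_of_pos ha0]; simp
    rw [h2]
    apply Real.le_sqrt_of_sq_le
    rw [div_pow, div_le_iff₀ (by positivity)]
    nlinarith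
  -- the tail
  have htail : ∀ t : ℝ, T ≤ |t| → ‖TT f (t * I)‖ ^ 2 ≤ 16 * b ^ 2 * N2 f / t ^ 2 := by
    intro t ht
    have ht0 : 0 < |t| := by linarith
    have h1 : ‖TT f (t * I)‖ ≤ ∑ k ∈ Finset.Icc (-(n : ℤ)) n, Real.sqrt (N2 f) * (4 / |t|) := by
      rw [TT_trig ha0 hf]
      refine (norm_sum_le _ _).trans (Finset.sum_le_sum fun k hk => ?_)
      rw [norm_mul]
      refine mul_le_mul (hcoef k) ?_ (norm_nonneg _) (Real.sqrt_nonneg _)
      rw [TT_ek]
      have h2 := TT_box ha0 (-nd a k + t * I)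
      have h3 : ‖(-nd a k + t * I : ℂ)‖ * ‖TT (box a) (-nd a k + t * I)‖ ≤ 2 := by
        rw [← norm_mul, h2]
        refine (norm_sub_le _ _).trans ?_
        rw [Complex.norm_exp, Complex.norm_exp]
        have e1 : ((a : ℂ) * (-nd a k + t * I)).re = 0 := by simp [nd_re]
        rw [Complex.neg_re, e1, neg_zero, Real.exp_zero]
        norm_num
      have h4 : |t| / 2 ≤ ‖(-nd a k + t * I : ℂ)‖ := by
        refine le_trans ?_ (Complex.abs_im_le_norm _)
        have e2 : (-nd a k + (t : ℂ) * I).im = t - (nd a k).im := by simp; ring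
        rw [e2, nd_im]
        have h5 : |Real.pi * k / a| ≤ 4 * n := by
          rw [Finset.mem_Icc] at hk
          have h6 : |(k : ℝ)| ≤ n := by
            rw [abs_le]
            constructor
            · exact_mod_cast hk.1
            · exact_mod_cast hk.2
          rw [abs_div, abs_mul, abs_of_pos (by linarith : (0 : ℝ) < Real.pi), abs_of_pos ha0, div_le_iff₀ ha0]
          have h7 : (0 : ℝ) ≤ n := Nat.cast_nonneg n
          have h8 := abs_nonneg (k : ℝ)
          nlinarith [mul_nonneg h7 (sub_nonneg.2 ha)]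
        have h6 := abs_sub_abs_le_abs_sub t (Real.pi * k / a)
        have h7 : 4 * (n : ℝ) ≤ |t| / 2 := by
          have : (4 : ℝ) * n ≤ T / 2 := by rw [hb] at hTb; linarith [(Nat.cast_nonneg n : (0 : ℝ) ≤ n)]
          linarith
        linarith
      have h5 : |t| / 2 * ‖TT (box a) (-nd a k + t * I)‖ ≤ 2 :=
        (mul_le_mul_of_nonneg_right h4 (norm_nonneg _)).trans h3
      rw [le_div_iff₀ ht0]
      linarith
    have h2 : ∑ k ∈ Finset.Icc (-(n : ℤ)) n, Real.sqrt (N2 f) * (4 / |t|) ≤ b * (Real.sqrt (N2 f) * (4 / |t|)) := by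
      rw [Finset.sum_const, nsmul_eq_mul]
      refine mul_le_mul_of_nonneg_right ?_ (by positivity)
      rw [Int.card_Icc]
      have : ((n : ℤ) + 1 - -(n : ℤ)).toNat = 2 * n + 1 := by omega
      rw [this, hb]
      push_cast
      linarith
    have h3 := pow_le_pow_left₀ (norm_nonneg _) (h1.trans h2) 2
    refine h3.trans (le_of_eq ?_)
    rw [mul_pow, mul_pow, Real.sq_sqrt hN, div_pow, sq_abs]
    ring
  -- the pointwise bound
  have hpt : ∀ t : ℝ, Lg t * ‖TT f (t * I)‖ ^ 2 ≤ Real.log (3 + T) * ‖TT f (t * I)‖ ^ 2 +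
      1000 * N2 f * (1 + ‖t‖) ^ (-(3 / 2) : ℝ) := by
    intro t
    have h0 : 0 ≤ 1000 * N2 f * (1 + ‖t‖) ^ (-(3 / 2) : ℝ) := by positivity
    rcases le_or_gt |t| T with h | h
    · have h1 : Lg t ≤ Real.log (3 + T) := Real.log_le_log (by positivity) (by linarith)
      have := mul_le_mul_of_nonneg_right h1 (sq_nonneg ‖TT f (t * I)‖)
      linarith
    · have h1 := htail t h.le
      have ht0 : 0 < |t| := by linarith
      have ht1 : 1 ≤ |t| := by linarith
      have hT0 : 0 ≤ Real.log (3 + T) * ‖TT f (t * I)‖ ^ 2 := by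
        have : 0 ≤ Real.log (3 + T) := Real.log_nonneg (by linarith)
        positivity
      have hu : 0 < 1 + |t| := by positivity
      have h2 : Lg t ≤ 6 * (1 + |t|) ^ (1 / 4 : ℝ) := by
        unfold Lg
        have h3 : Real.log (3 + |t|) ≤ (3 + |t|) ^ (1 / 4 : ℝ) / (1 / 4) :=
          Real.log_le_rpow_div (by positivity) (by norm_num)
        have h4 : (3 + |t|) ^ (1 / 4 : ℝ) ≤ ((3 / 2 : ℝ) ^ 4 * (1 + |t|)) ^ (1 / 4 : ℝ) :=
          Real.rpow_le_rpow (by positivity) (by norm_num; linarith) (by norm_num)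
        have h5 : ((3 / 2 : ℝ) ^ 4 * (1 + |t|)) ^ (1 / 4 : ℝ) = 3 / 2 * (1 + |t|) ^ (1 / 4 : ℝ) := by
          rw [Real.mul_rpow (by norm_num) (by positivity)]
          congr 1
          rw [← Real.rpow_natCast, ← Real.rpow_mul (by norm_num)]
          norm_num
        rw [h5] at h4
        linarith
      have h3 : b ^ 2 ≤ (1 + |t|) ^ (1 / 4 : ℝ) := by
        have h4 : T ^ (1 / 4 : ℝ) ≤ (1 + |t|) ^ (1 / 4 : ℝ) :=
          Real.rpow_le_rpow (by positivity) (by linarith) (by norm_num)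
        have h5 : T ^ (1 / 4 : ℝ) = b ^ 2 := by
          rw [hT, ← Real.rpow_natCast, ← Real.rpow_mul (by linarith), ← Real.rpow_natCast]
          norm_num
        rw [h5] at h4
        exact h4
      have h4 : 1 / t ^ 2 ≤ 4 / (1 + |t|) ^ 2 := by
        rw [← sq_abs t, div_le_div_iff₀ (by positivity) (by positivity)]
        nlinarith
      set u := (1 + |t|) ^ (1 / 4 : ℝ) with hu4
      have hu40 : 0 < u := Real.rpow_pos_of_pos hu _
      have h5 : (1 + |t|) ^ (-(3 / 2) : ℝ) = u ^ 2 / (1 + |t|) ^ 2 := by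
        rw [hu4, ← Real.rpow_natCast, ← Real.rpow_mul hu.le, ← Real.rpow_natCast (1 + |t|) 2, ← Real.rpow_sub hu]
        norm_num
      rw [Real.norm_eq_abs, h5]
      calc Lg t * ‖TT f (t * I)‖ ^ 2 ≤ (6 * u) * (16 * b ^ 2 * N2 f / t ^ 2) :=
            mul_le_mul h2 h1 (sq_nonneg _) (by positivity)
        _ = 96 * u * N2 f * b ^ 2 * (1 / t ^ 2) := by ring
        _ ≤ 96 * u * N2 f * u * (4 / (1 + |t|) ^ 2) := by
            refine mul_le_mul (mul_le_mul_of_nonneg_left h3 (by positivity)) h4 (by positivity) (by positivity)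
        _ = 384 * (N2 f * (u ^ 2 / (1 + |t|) ^ 2)) := by ring
        _ ≤ 1000 * (N2 f * (u ^ 2 / (1 + |t|) ^ 2)) := mul_le_mul_of_nonneg_right (by norm_num) (by positivity)
        _ ≤ _ := by linarith
  have hint1 : Integrable (fun t : ℝ => Real.log (3 + T) * ‖TT f (t * I)‖ ^ 2) := (int_TT_sq hf.1).const_mul _
  have hint2 : Integrable (fun t : ℝ => 1000 * N2 f * (1 + ‖t‖) ^ (-(3 / 2) : ℝ)) := hJi.const_mul _
  have hL : LL f ≤ Real.log (3 + T) * (2 * Real.pi * N2 f) + 1000 * N2 f * J := by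
    unfold LL
    refine (integral_mono hf.2.1 (hint1.add hint2) hpt).trans (le_of_eq ?_)
    simp only [Pi.add_apply]
    rw [integral_add hint1 hint2, integral_const_mul, integral_const_mul, plancherel hf.1]
  have hlog1 : 1 ≤ Real.log (n + 3) := by
    rw [Real.le_log_iff_exp_le (by positivity)]
    have := Real.exp_one_lt_d9
    have h7 : (0 : ℝ) ≤ n := Nat.cast_nonneg n
    linarith
  have hlog2 : Real.log (3 + T) ≤ 18 * Real.log (n + 3) := by
    have h1 : 3 + T ≤ b ^ 9 := by
      have : (3 : ℝ) ≤ T := by linarith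
      calc 3 + T ≤ 2 * T := by linarith
        _ ≤ b * T := mul_le_mul_of_nonneg_right hb2 (by linarith)
        _ = b ^ 9 := by rw [hT]; ring
    have h2 : b ≤ ((n : ℝ) + 3) ^ 2 := by
      rw [hb]; have h7 : (0 : ℝ) ≤ n := Nat.cast_nonneg n; nlinarith
    calc Real.log (3 + T) ≤ Real.log (b ^ 9) := Real.log_le_log (by linarith) h1
      _ = 9 * Real.log b := by rw [Real.log_pow]; norm_num
      _ ≤ 9 * Real.log (((n : ℝ) + 3) ^ 2) := by
          have := Real.log_le_log (by linarith : 0 < b) h2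
          linarith
      _ = 18 * Real.log (n + 3) := by rw [Real.log_pow]; push_cast; ring
  have h1 : Real.log (3 + T) * (2 * Real.pi * N2 f) ≤ 18 * Real.log (n + 3) * (2 * Real.pi * N2 f) :=
    mul_le_mul_of_nonneg_right hlog2 (by positivity)
  have h2 : 1000 * N2 f * J ≤ Real.log (n + 3) * (1000 * N2 f * J) := le_mul_of_one_le_left (by positivity) hlog1
  have h3 : 0 ≤ Real.log (n + 3) * Real.pi * N2 f := by positivity
  nlinarith
end Pool.Agent.N965.LE
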