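import Pool.Agent.N965.LE.LLn

/-! # Trigonometric polynomials with prescribed transform -/

set_option autoImplicit false
set_option linter.unusedSectionVars false
set_option maxHeartbeats 2000000

open Complex Filter Topology Set MeasureTheory
open scoped ComplexConjugate

namespace Pool.Agent.N965.LE

open Pool.Agent.Y23 Pool.Agent.Y23.G

lemma Hn.mono {a : ℝ} {ν ν' : ℕ∞} {f : ℝ → ℂ} (hf : Hn a ν f) (h : ν ≤ ν') : Hn a ν' f :=
  ⟨hf.1, hf.2.1, fun k hk => hf.2.2 k (lt_of_le_of_lt h hk)⟩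

lemma Hn_sum {ι : Type*} (s : Finset ι) {a : ℝ} {ν : ℕ∞} {f : ι → ℝ → ℂ} (hf : ∀ i ∈ s, Hn a ν (f i)) :
    Hn a ν (fun x => ∑ i ∈ s, f i x) := by
  classical
  induction s using Finset.induction_on with
  | empty => simpa using (Hn.zero (a := a) (ν := ν))
  | insert i s hi ih =>
    have h1 := (hf i (Finset.mem_insert_self i s)).add (ih fun j hj => hf j (Finset.mem_insert_of_mem hj))
    have e : (fun x => ∑ j ∈ insert i s, f j x) = fun x => f i x + ∑ j ∈ s, f j x := by
      funext x; rw [Finset.sum_insert hi]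
    rw [e]; exact h1

lemma fact_low (m i : ℕ) (hm : 1 ≤ m) (hi : i ≤ 2 * m) :
    ((m : ℝ) / Real.exp 1) ^ (2 * m) ≤ (i.factorial : ℝ) * ((2 * m - i).factorial : ℝ) := by
  have h1 : (((2 * m).choose i : ℕ) : ℝ) * (i.factorial : ℝ) * ((2 * m - i).factorial : ℝ) = ((2 * m).factorial : ℝ) := by
    exact_mod_cast Nat.choose_mul_factorial_mul_factorial hi
  have h2 : (((2 * m).choose i : ℕ) : ℝ) ≤ 2 ^ (2 * m) := by
    have : (2 * m).choose i ≤ 2 ^ (2 * m) := by
      rw [← Nat.sum_range_choose (2 * m)]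
      exact Finset.single_le_sum (f := fun j => (2 * m).choose j) (fun _ _ => Nat.zero_le _) (Finset.mem_range.2 (by omega))
    exact_mod_cast this
  have h3 : (((2 * m : ℕ) : ℝ)) ^ (2 * m) / ((2 * m).factorial : ℝ) ≤ Real.exp ((2 * m : ℕ) : ℝ) :=
    Real.pow_div_factorial_le_exp _ (Nat.cast_nonneg _) _
  have hf : (0 : ℝ) < ((2 * m).factorial : ℝ) := by exact_mod_cast Nat.factorial_pos _
  have h4 : Real.exp ((2 * m : ℕ) : ℝ) = Real.exp 1 ^ (2 * m) := by
    rw [← Real.exp_nat_mul]; simp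
  rw [h4, div_le_iff₀ hf] at h3
  have he : 0 < Real.exp 1 ^ (2 * m) := by positivity
  have h5 : 0 ≤ (i.factorial : ℝ) * ((2 * m - i).factorial : ℝ) := by positivity
  rw [div_pow, div_le_iff₀ he]
  have h6 : ((2 * m : ℕ) : ℝ) ^ (2 * m) = 2 ^ (2 * m) * (m : ℝ) ^ (2 * m) := by
    rw [← mul_pow]; push_cast; rfl
  rw [h6, ← h1] at h3
  have h7 : (2 : ℝ) ^ (2 * m) * (m : ℝ) ^ (2 * m) ≤ 2 ^ (2 * m) * ((i.factorial : ℝ) * ((2 * m - i).factorial : ℝ) * Real.exp 1 ^ (2 * m)) := by
    refine h3.trans ?_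
    have h8 := mul_le_mul_of_nonneg_right h2 (mul_nonneg h5 he.le)
    calc Real.exp 1 ^ (2 * m) * ((((2 * m).choose i : ℕ) : ℝ) * (i.factorial : ℝ) * ((2 * m - i).factorial : ℝ)) =
        (((2 * m).choose i : ℕ) : ℝ) * ((i.factorial : ℝ) * ((2 * m - i).factorial : ℝ) * Real.exp 1 ^ (2 * m)) := by ring
      _ ≤ _ := h8
  exact le_of_mul_le_mul_left h7 (by positivity)

lemma prod_int (m : ℕ) {k : ℤ} (hk : k ∈ Finset.Icc (-(m : ℤ)) m) :
    ∏ j ∈ (Finset.Icc (-(m : ℤ)) m).erase k, |((k : ℝ) - j)| =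
      (((m + k).toNat).factorial : ℝ) * (((m - k).toNat).factorial : ℝ) := by
  classical
  rw [Finset.mem_Icc] at hk
  have hd : (Finset.Icc (-(m : ℤ)) m).erase k = ((Finset.range (m + k).toNat).image fun l : ℕ => k - 1 - (l : ℤ)) ∪
      ((Finset.range (m - k).toNat).image fun l : ℕ => k + 1 + (l : ℤ)) := by
    ext j
    simp only [Finset.mem_erase, Finset.mem_Icc, Finset.mem_union, Finset.mem_image, Finset.mem_range]
    constructor
    · rintro ⟨h1, h2, h3⟩
      rcases lt_or_gt_of_ne h1 with h | h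
      · left; exact ⟨(k - 1 - j).toNat, by omega, by omega⟩
      · right; exact ⟨(j - k - 1).toNat, by omega, by omega⟩
    · rintro (⟨l, h1, rfl⟩ | ⟨l, h1, rfl⟩)
      · refine ⟨by omega, by omega, by omega⟩
      · refine ⟨by omega, by omega, by omega⟩
  have hdisj : Disjoint ((Finset.range (m + k).toNat).image fun l : ℕ => k - 1 - (l : ℤ))
      ((Finset.range (m - k).toNat).image fun l : ℕ => k + 1 + (l : ℤ)) := by
    rw [Finset.disjoint_left]
    intro j h1 h2
    rw [Finset.mem_image] at h1 h2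
    obtain ⟨l, _, rfl⟩ := h1
    obtain ⟨l', _, h3⟩ := h2
    omega
  rw [hd, Finset.prod_union hdisj, Finset.prod_image (fun x _ y _ h => by simpa using h),
    Finset.prod_image (fun x _ y _ h => by simpa using h)]
  congr 1
  · rw [← Finset.prod_range_add_one_eq_factorial]
    push_cast
    refine Finset.prod_congr rfl fun l _ => ?_
    have : ((k : ℝ) - (k - 1 - l)) = l + 1 := by ring
    rw [this, abs_of_pos (by positivity)]
  · rw [← Finset.prod_range_add_one_eq_factorial]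
    push_cast
    refine Finset.prod_congr rfl fun l _ => ?_
    have : ((k : ℝ) - (k + 1 + l)) = -(l + 1) := by ring
    rw [this, abs_neg, abs_of_pos (by positivity)]

lemma nd_sub (a : ℝ) (j k : ℤ) : ‖nd a k - nd a j‖ = |Real.pi / a| * |(k : ℝ) - j| := by
  unfold nd
  rw [← sub_mul, ← Complex.ofReal_sub, norm_mul, Complex.norm_I, mul_one, Complex.norm_real, Real.norm_eq_abs, ← abs_mul]
  congr 1; ring

lemma prod_nd {a : ℝ} (ha : 0 < a) {m : ℕ} (hm : 1 ≤ m) {k : ℤ} (hk : k ∈ Finset.Icc (-(m : ℤ)) m) :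
    ((m : ℝ) / a) ^ (2 * m) ≤ ∏ j ∈ (Finset.Icc (-(m : ℤ)) m).erase k, ‖nd a k - nd a j‖ := by
  have hpi := Real.pi_gt_three
  simp only [nd_sub]
  rw [Finset.prod_mul_distrib, Finset.prod_const, Finset.card_erase_of_mem hk, prod_int m hk]
  have hc : (Finset.Icc (-(m : ℤ)) m).card - 1 = 2 * m := by
    rw [Int.card_Icc]; omega
  rw [hc, abs_of_pos (by positivity)]
  have hk' := Finset.mem_Icc.1 hk
  have h1 := fact_low m (m + k).toNat hm (by omega)
  have h2 : 2 * m - (m + k).toNat = (m - k).toNat := by omega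
  rw [h2] at h1
  calc ((m : ℝ) / a) ^ (2 * m) ≤ (Real.pi / a) ^ (2 * m) * ((m : ℝ) / Real.exp 1) ^ (2 * m) := by
        rw [← mul_pow]
        refine pow_le_pow_left₀ (by positivity) ?_ _
        have h3 : Real.exp 1 ≤ Real.pi := by linarith [Real.exp_one_lt_d9]
        rw [div_mul_div_comm, div_le_div_iff₀ ha (by positivity)]
        have h4 : 0 ≤ (m : ℝ) * a := by positivity
        nlinarith [Real.exp_pos 1]
    _ ≤ _ := mul_le_mul_of_nonneg_left h1 (by positivity)

lemma nd_inj {a : ℝ} (ha : 0 < a) : Function.Injective (nd a) := by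
  intro j k h
  have h1 := congrArg Complex.im h
  rw [nd_im, nd_im, div_left_inj' ha.ne'] at h1
  have h2 := mul_left_cancel₀ Real.pi_pos.ne' h1
  exact_mod_cast h2

lemma exp_two_nd {a : ℝ} (ha : 0 < a) (k : ℤ) : cexp (2 * (a * nd a k)) = 1 := by
  have : (2 : ℂ) * (a * nd a k) = (k : ℂ) * (2 * Real.pi * I) := by
    unfold nd
    have : (a : ℂ) ≠ 0 := by exact_mod_cast ha.ne'
    push_cast
    field_simp
  rw [this, Complex.exp_int_mul_two_pi_mul_I]

lemma box_sq (a x : ℝ) : ‖box a x‖ ^ 2 = ‖box a x‖ := by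
  unfold box
  by_cases hx : x ∈ Icc (-a) a
  · rw [indicator_of_mem hx]; simp
  · rw [indicator_of_notMem hx]; simp

lemma N2_trig_le {a : ℝ} (ha : 0 < a) (s : Finset ℤ) (c : ℤ → ℂ) :
    N2 (fun x => ∑ k ∈ s, c k * ek a k x) ≤ 2 * a * (∑ k ∈ s, ‖c k‖) ^ 2 := by
  set B := ∑ k ∈ s, ‖c k‖ with hB
  have hB0 : 0 ≤ B := Finset.sum_nonneg fun k _ => norm_nonneg _
  have hpt : ∀ x : ℝ, ‖∑ k ∈ s, c k * ek a k x‖ ≤ B * ‖box a x‖ := by
    intro x
    refine (norm_sum_le _ _).trans ?_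
    rw [hB, Finset.sum_mul]
    refine Finset.sum_le_sum fun k _ => ?_
    unfold ek
    rw [norm_mul, norm_mul]
    have : ‖cexp (-nd a k * x)‖ = 1 := by
      rw [Complex.norm_exp]
      have : (-nd a k * x).re = 0 := by
        rw [Complex.mul_re, Complex.neg_re, nd_re, Complex.ofReal_im]; ring
      rw [this, Real.exp_zero]
    rw [this, mul_one]
  have hF : Fa a (fun x => ∑ k ∈ s, c k * ek a k x) := Fa_sum s fun k _ => (Fa_ek k).smul _
  have hbi : Integrable (fun x => ‖box a x‖ ^ 2) := Fa_box.sq_int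
  calc N2 (fun x => ∑ k ∈ s, c k * ek a k x) ≤ ∫ x, B ^ 2 * ‖box a x‖ ^ 2 := by
        unfold N2
        refine integral_mono hF.sq_int (hbi.const_mul _) fun x => ?_
        simp only
        have := pow_le_pow_left₀ (norm_nonneg _) (hpt x) 2
        rwa [mul_pow] at this
    _ = B ^ 2 * N2 (box a) := by rw [integral_const_mul]; rfl
    _ = _ := by rw [N2_box ha]; ring

/-- a trigonometric polynomial with prescribed transform -/
theorem exists_trig {a : ℝ} (ha : 0 < a) {m : ℕ} (hm : 1 ≤ m) (p : Polynomial ℂ) (hp : p.natDegree ≤ 2 * m) {M : ℝ}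
    (hM : ∀ k ∈ Finset.Icc (-(m : ℤ)) m, ‖p.eval (nd a k)‖ ≤ M) :
    ∃ f : ℝ → ℂ, Hn a m f ∧
      (∀ w, TT f w * ∏ k ∈ Finset.Icc (-(m : ℤ)) m, (w - nd a k) = (cexp (a * w) - cexp (-(a * w))) * p.eval w) ∧
      N2 f ≤ 2 * a * ((2 * m + 1) * M * (a / m) ^ (2 * m)) ^ 2 := by
  classical
  set s := Finset.Icc (-(m : ℤ)) m with hs
  have hmR : (0 : ℝ) < m := by exact_mod_cast hm
  have hcard : s.card = 2 * m + 1 := by rw [hs, Int.card_Icc]; omega
  set d : ℤ → ℂ := fun k => ∏ j ∈ s.erase k, (nd a k - nd a j)⁻¹ with hd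
  set c : ℤ → ℂ := fun k => cexp (a * nd a k) * (p.eval (nd a k) * d k) with hc
  have hFk : ∀ k ∈ s, Fa a (fun x => c k * ek a k x) := fun k _ => (Fa_ek k).smul _
  refine ⟨fun x => ∑ k ∈ s, c k * ek a k x, ?_, fun w => ?_, ?_⟩
  · refine Hn_sum s fun k hk => (Hn_ek ha ?_).smul _
    rw [hs, Finset.mem_Icc] at hk
    have : k.natAbs ≤ m := by omega
    exact_mod_cast this
  · rw [TT_sum s hFk, Finset.sum_mul]
    have hp2 : p.eval w = ∑ k ∈ s, p.eval (nd a k) * d k * ∏ j ∈ s.erase k, (w - nd a j) := by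
      have h1 := Lagrange.eq_interpolate (s := s) (v := nd a) (f := p) ((nd_inj ha).injOn) (by
        rw [hcard]
        refine lt_of_le_of_lt Polynomial.degree_le_natDegree ?_
        exact_mod_cast (by omega : p.natDegree < 2 * m + 1))
      conv_lhs => rw [h1]
      rw [Lagrange.interpolate_apply, Polynomial.eval_finset_sum]
      refine Finset.sum_congr rfl fun k _ => ?_
      rw [Polynomial.eval_mul, Polynomial.eval_C, Lagrange.basis, Polynomial.eval_prod, mul_assoc]
      congr 1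
      rw [hd]
      simp only
      rw [← Finset.prod_mul_distrib]
      refine Finset.prod_congr rfl fun j _ => ?_
      simp [Lagrange.basisDivisor]
    rw [hp2, Finset.mul_sum]
    refine Finset.sum_congr rfl fun k hk => ?_
    rw [TT_smul, ← Finset.mul_prod_erase s _ hk, TT_ek]
    have h2 := TT_box ha (-nd a k + w)
    have h3 : cexp (a * nd a k) * (cexp (a * (-nd a k + w)) - cexp (-(a * (-nd a k + w)))) = cexp (a * w) - cexp (-(a * w)) := by
      rw [mul_sub, ← Complex.exp_add, ← Complex.exp_add]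
      have e1 : (a : ℂ) * nd a k + a * (-nd a k + w) = a * w := by ring
      have e2 : (a : ℂ) * nd a k + -(a * (-nd a k + w)) = 2 * (a * nd a k) + -(a * w) := by ring
      rw [e1, e2, Complex.exp_add, exp_two_nd ha, one_mul]
    have h4 : w - nd a k = -nd a k + w := by ring
    calc c k * TT (box a) (-nd a k + w) * ((w - nd a k) * ∏ x ∈ s.erase k, (w - nd a x)) =
        (cexp (a * nd a k) * ((-nd a k + w) * TT (box a) (-nd a k + w))) * (p.eval (nd a k) * d k * ∏ x ∈ s.erase k, (w - nd a x)) := by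
          rw [h4, hc]; ring
      _ = _ := by rw [h2, h3]
  · refine (N2_trig_le ha s c).trans ?_
    refine mul_le_mul_of_nonneg_left ?_ (by linarith)
    refine pow_le_pow_left₀ (Finset.sum_nonneg fun k _ => norm_nonneg _) ?_ 2
    have h1 : ∀ k ∈ s, ‖c k‖ ≤ M * (a / m) ^ (2 * m) := by
      intro k hk
      rw [hc]
      simp only
      rw [norm_mul, norm_mul]
      have e1 : ‖cexp (a * nd a k)‖ = 1 := by
        rw [Complex.norm_exp]
        have : ((a : ℂ) * nd a k).re = 0 := by simp [nd_re]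
        rw [this, Real.exp_zero]
      rw [e1, one_mul]
      refine mul_le_mul (hM k hk) ?_ (norm_nonneg _) ((norm_nonneg _).trans (hM k hk))
      rw [hd]
      simp only [norm_prod, norm_inv]
      rw [Finset.prod_inv_distrib]
      have h2 := prod_nd ha hm hk
      have h3 : (a / (m : ℝ)) ^ (2 * m) = (((m : ℝ) / a) ^ (2 * m))⁻¹ := by rw [← inv_pow, inv_div]
      rw [h3]
      exact inv_anti₀ (by positivity) h2
    refine (Finset.sum_le_sum h1).trans (le_of_eq ?_)
    rw [Finset.sum_const, hcard, nsmul_eq_mul]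
    push_cast
    ring

end Pool.Agent.N965.LE
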