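import Pool.Agent.N965.LE.Hn

/-! # The lower bound for the Weil form -/

set_option autoImplicit false
set_option linter.unusedSectionVars false
set_option maxHeartbeats 2000000

open Complex Filter Topology Set MeasureTheory
open scoped ComplexConjugate

namespace Pool.Agent.N965.LE

open Pool.Agent.Y23 Pool.Agent.Y23.G

variable [D : ZD]

/-- the sum over the zeros near the line -/
lemma sum_near : ∃ K : ℝ, 0 < K ∧ ∀ (a η : ℝ) (f : ℝ → ℂ), 1 ≤ a → Hd a f → ∀ S : Finset Zt,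
    (∀ ρ ∈ S, |((ρ : ℂ) - 1 / 2).re| ≤ η) →
    ∑ ρ ∈ S, (mu ρ : ℝ) * ‖TT f ((ρ : ℂ) - 1 / 2)‖ ^ 2 ≤ K * a ^ 2 * Real.exp (2 * η * a) * LL f := by
  classical
  obtain ⟨K, hK, hz⟩ := zsum
  refine ⟨24 ^ 2 * K, by positivity, fun a η f ha hf S hS => ?_⟩
  have hint : ∀ y : ℝ, Integrable (fun t : ℝ => ‖TT f (t * I)‖ ^ 2 * (1 / (1 + (y - t) ^ 2))) := by
    intro y
    refine (int_TT_sq hf.1).mono' ?_ (Eventually.of_forall fun t => ?_)
    · refine Continuous.aestronglyMeasurable ?_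
      refine ((TT_line_cont hf.1).norm.pow 2).mul ?_
      refine continuous_const.div (by fun_prop) fun t => ?_
      positivity
    · have h1 : 1 / (1 + (y - t) ^ 2) ≤ 1 := by
        rw [div_le_one (by positivity)]
        have := sq_nonneg (y - t)
        linarith
      have h2 : 0 ≤ 1 / (1 + (y - t) ^ 2) := by positivity
      have h3 := sq_nonneg ‖TT f (t * I)‖
      rw [Real.norm_eq_abs, abs_of_nonneg (mul_nonneg h3 h2)]
      nlinarith
  set C : ℝ := 24 ^ 2 * a ^ 2 * Real.exp (2 * η * a) with hC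
  have hC0 : 0 < C := by positivity
  calc ∑ ρ ∈ S, (mu ρ : ℝ) * ‖TT f ((ρ : ℂ) - 1 / 2)‖ ^ 2
      ≤ ∑ ρ ∈ S, (mu ρ : ℝ) * (C * ∫ t : ℝ, ‖TT f (t * I)‖ ^ 2 * (1 / (1 + ((ρ : ℂ).im - t) ^ 2))) := by
        refine Finset.sum_le_sum fun ρ hρ => mul_le_mul_of_nonneg_left ?_ (Nat.cast_nonneg _)
        have h1 := pp2 ha hf.1 ((ρ : ℂ) - 1 / 2) (half_re ρ)
        have e : ((ρ : ℂ) - 1 / 2).im = (ρ : ℂ).im := by simp
        rw [e] at h1
        refine h1.trans (mul_le_mul_of_nonneg_right ?_ (integral_nonneg fun t => by positivity))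
        rw [hC, mul_pow, mul_pow, ← Real.exp_nat_mul]
        refine mul_le_mul_of_nonneg_left (Real.exp_le_exp.2 ?_) (by positivity)
        have h2 := hS ρ hρ
        push_cast
        nlinarith
    _ = C * ∫ t : ℝ, ∑ ρ ∈ S, (mu ρ : ℝ) * (‖TT f (t * I)‖ ^ 2 * (1 / (1 + ((ρ : ℂ).im - t) ^ 2))) := by
        rw [integral_finsetSum _ fun ρ _ => (hint _).const_mul _, Finset.mul_sum]
        refine Finset.sum_congr rfl fun ρ _ => ?_
        rw [integral_const_mul]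
        ring
    _ ≤ C * ∫ t : ℝ, K * (Lg t * ‖TT f (t * I)‖ ^ 2) := by
        refine mul_le_mul_of_nonneg_left ?_ hC0.le
        refine integral_mono (integrable_finsetSum _ fun ρ _ => (hint _).const_mul _) (hf.2.const_mul K) fun t => ?_
        simp only
        have h1 := hz t (S.map (Function.Embedding.subtype _)) (by
          intro s hs
          rw [Finset.mem_map] at hs
          obtain ⟨u, _, rfl⟩ := hs
          exact u.2)
        rw [Finset.sum_map] at h1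
        have e : ∑ ρ ∈ S, (mu ρ : ℝ) * (‖TT f (t * I)‖ ^ 2 * (1 / (1 + ((ρ : ℂ).im - t) ^ 2))) =
            ‖TT f (t * I)‖ ^ 2 * ∑ ρ ∈ S, (mu ρ : ℝ) * (1 / (1 + ((ρ : ℂ).im - t) ^ 2)) := by
          rw [Finset.mul_sum]
          exact Finset.sum_congr rfl fun ρ _ => by ring
        rw [e]
        have h2 : ‖TT f (t * I)‖ ^ 2 * ∑ ρ ∈ S, (mu ρ : ℝ) * (1 / (1 + ((ρ : ℂ).im - t) ^ 2)) ≤
            ‖TT f (t * I)‖ ^ 2 * (K * Lg t) := mul_le_mul_of_nonneg_left h1 (sq_nonneg _)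
        linarith
    _ = _ := by
        rw [integral_const_mul]
        unfold LL
        rw [hC]
        ring

lemma nGG (f g : ℝ → ℂ) (w : ℂ) : ‖GG f g w‖ ≤ 1 / 2 * (‖TT f w‖ ^ 2 + ‖TT g (-conj w)‖ ^ 2) := by
  unfold GG
  rw [norm_mul, RCLike.norm_conj]
  nlinarith [sq_nonneg (‖TT f w‖ - ‖TT g (-conj w)‖)]

lemma sGG {f : ℝ → ℂ} (hf : Dom f) :
    Summable (fun ρ : Zt => (mu ρ : ℝ) * (GG f f ((ρ : ℂ) - 1 / 2)).re) := by
  refine Summable.of_norm_bounded ((hf.add hf.refl).mul_left (1 / 2)) fun ρ => ?_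
  rw [norm_mul, Real.norm_eq_abs, Real.norm_eq_abs, abs_of_nonneg (Nat.cast_nonneg _ : (0 : ℝ) ≤ (mu ρ : ℝ))]
  have h := mul_le_mul_of_nonneg_left ((Complex.abs_re_le_norm _).trans (nGG f f ((ρ : ℂ) - 1 / 2))) (Nat.cast_nonneg (mu ρ) : (0 : ℝ) ≤ mu ρ)
  calc _ ≤ _ := h
    _ = _ := by ring

lemma re_GG_ge (f : ℝ → ℂ) (w : ℂ) : -(1 / 2 * ‖TT f w‖ ^ 2 + 1 / 2 * ‖TT f (-conj w)‖ ^ 2) ≤ (GG f f w).re := by
  have h1 := nGG f f w
  have h2 := Complex.abs_re_le_norm (GG f f w)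
  have h3 := neg_abs_le (GG f f w).re
  linarith

lemma sum_near' : ∃ K : ℝ, 0 < K ∧ ∀ (a η : ℝ) (f : ℝ → ℂ), 1 ≤ a → Hd a f → ∀ S : Finset Zt,
    (∀ ρ ∈ S, |((ρ : ℂ) - 1 / 2).re| ≤ η) →
    ∑ ρ ∈ S, (mu ρ : ℝ) * ‖TT f (-conj ((ρ : ℂ) - 1 / 2))‖ ^ 2 ≤ K * a ^ 2 * Real.exp (2 * η * a) * LL f := by
  classical
  obtain ⟨K, hK, h⟩ := sum_near
  refine ⟨K, hK, fun a η f ha hf S hS => ?_⟩
  have h1 := h a η f ha hf (S.map rfZ.toEmbedding) (fun ρ hρ => by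
    rw [Finset.mem_map] at hρ
    obtain ⟨σ, hσ, rfl⟩ := hρ
    rw [Equiv.coe_toEmbedding, rfZ_sub]
    have := hS σ hσ
    rwa [Complex.neg_re, Complex.conj_re, abs_neg])
  rw [Finset.sum_map] at h1
  refine le_trans (le_of_eq ?_) h1
  refine Finset.sum_congr rfl fun ρ _ => ?_
  rw [Equiv.coe_toEmbedding, mu_rfZ, rfZ_sub]

/-- **the lower bound** for functions whose transform vanishes at the zeros far to the right -/
theorem QQ_ge : ∃ K : ℝ, 0 < K ∧ ∀ (a η : ℝ) (f : ℝ → ℂ), 1 ≤ a → 0 ≤ η → Hd a f →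
    (∀ ρ : Zt, η < ((ρ : ℂ) - 1 / 2).re → TT f ((ρ : ℂ) - 1 / 2) = 0) →
    -(K * a ^ 2 * Real.exp (2 * η * a) * LL f) ≤ QQ f := by
  classical
  obtain ⟨K, hK, h⟩ := sum_near
  obtain ⟨K', hK', h'⟩ := sum_near'
  refine ⟨K + K', by positivity, fun a η f ha hη hf hv => ?_⟩
  have ha0 : 0 < a := by linarith
  obtain ⟨C, _, hC⟩ := dom_of_Hd (D := D) ha0
  have hD := (hC f hf).1
  set s : Zt → ℝ := fun ρ => if |((ρ : ℂ) - 1 / 2).re| ≤ η then
    (mu ρ : ℝ) * (1 / 2 * ‖TT f ((ρ : ℂ) - 1 / 2)‖ ^ 2 + 1 / 2 * ‖TT f (-conj ((ρ : ℂ) - 1 / 2))‖ ^ 2) else 0 with hs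
  have hs0 : ∀ ρ, 0 ≤ s ρ := fun ρ => by
    simp only [hs]
    split_ifs
    · positivity
    · exact le_rfl
  have hB : ∀ S : Finset Zt, ∑ ρ ∈ S, s ρ ≤ (K + K') * a ^ 2 * Real.exp (2 * η * a) * LL f := by
    intro S
    have h1 := h a η f ha hf (S.filter fun ρ => |((ρ : ℂ) - 1 / 2).re| ≤ η) (fun ρ hρ => (Finset.mem_filter.1 hρ).2)
    have h2 := h' a η f ha hf (S.filter fun ρ => |((ρ : ℂ) - 1 / 2).re| ≤ η) (fun ρ hρ => (Finset.mem_filter.1 hρ).2)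
    have h3 : ∑ ρ ∈ S, s ρ = 1 / 2 * ∑ ρ ∈ S.filter (fun ρ : Zt => |((ρ : ℂ) - 1 / 2).re| ≤ η), (mu ρ : ℝ) * ‖TT f ((ρ : ℂ) - 1 / 2)‖ ^ 2 +
        1 / 2 * ∑ ρ ∈ S.filter (fun ρ : Zt => |((ρ : ℂ) - 1 / 2).re| ≤ η), (mu ρ : ℝ) * ‖TT f (-conj ((ρ : ℂ) - 1 / 2))‖ ^ 2 := by
      rw [Finset.mul_sum, Finset.mul_sum, ← Finset.sum_add_distrib, Finset.sum_filter]
      refine Finset.sum_congr rfl fun ρ _ => ?_
      simp only [hs]
      split_ifs
      · ring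
      · rfl
    rw [h3]
    have h4 : 0 ≤ a ^ 2 * Real.exp (2 * η * a) * LL f := mul_nonneg (by positivity) (LL_nonneg f)
    nlinarith
  have hsum : Summable s := summable_of_sum_le hs0 hB
  have hle : ∑' ρ, s ρ ≤ (K + K') * a ^ 2 * Real.exp (2 * η * a) * LL f := Real.tsum_le_of_sum_le hs0 hB
  have hQ := sGG hD
  have hge : -∑' ρ, s ρ ≤ QQ f := by
    unfold QQ
    rw [← tsum_neg]
    refine hsum.neg.tsum_le_tsum (fun ρ => ?_) hQ
    simp only [hs]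
    split_ifs with h1
    · have h2 := re_GG_ge f ((ρ : ℂ) - 1 / 2)
      have h3 := mul_le_mul_of_nonneg_left h2 (Nat.cast_nonneg (mu ρ) : (0 : ℝ) ≤ mu ρ)
      linarith
    · push Not at h1
      have h2 : GG f f ((ρ : ℂ) - 1 / 2) = 0 := by
        unfold GG
        rcases lt_abs.1 h1 with h3 | h3
        · rw [hv ρ h3, zero_mul]
        · have h4 := hv (rfZ ρ) (by
            rw [rfZ_sub, Complex.neg_re, Complex.conj_re]; exact h3)
          rw [rfZ_sub] at h4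
          rw [h4, map_zero, mul_zero]
      rw [h2]; simp
  linarith

/-- the form is nonnegative on the functions whose transform vanishes at the zeros to the right -/
theorem QQ_nonneg_of {f : ℝ → ℂ}
    (hv : ∀ ρ : Zt, 0 < ((ρ : ℂ) - 1 / 2).re → TT f ((ρ : ℂ) - 1 / 2) = 0) : 0 ≤ QQ f := by
  unfold QQ
  refine tsum_nonneg fun ρ => mul_nonneg (Nat.cast_nonneg _) ?_
  unfold GG
  rcases lt_trichotomy (((ρ : ℂ) - 1 / 2).re) 0 with h | h | h
  · have h4 := hv (rfZ ρ) (by rw [rfZ_sub, Complex.neg_re, Complex.conj_re]; linarith)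
    rw [rfZ_sub] at h4
    rw [h4, map_zero, mul_zero]; simp
  · have h1 : -conj ((ρ : ℂ) - 1 / 2) = (ρ : ℂ) - 1 / 2 := by
      apply Complex.ext
      · rw [Complex.neg_re, Complex.conj_re, h]; simp
      · rw [Complex.neg_im, Complex.conj_im, neg_neg]
    rw [h1, Complex.mul_conj, Complex.ofReal_re]
    exact Complex.normSq_nonneg _
  · rw [hv ρ h, zero_mul]; simp

end Pool.Agent.N965.LE
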