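import Pool.Agent.N965.LE.Fi

/-! # The exponents: limits -/

set_option autoImplicit false
set_option linter.unusedSectionVars false
set_option maxHeartbeats 2000000

open Complex Filter Topology Set MeasureTheory
open scoped ComplexConjugate

namespace Pool.Agent.N965.LE

open Pool.Agent.Y23 Pool.Agent.Y23.G

lemma log_add_three (n : ℕ) : Real.log ((n : ℝ) + 3) ≤ Real.log n + 2 := by
  have h4 : Real.log 4 ≤ 2 := by
    rw [Real.log_le_iff_le_exp (by norm_num)]
    have := Real.exp_one_gt_d9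
    have e : Real.exp 2 = Real.exp 1 * Real.exp 1 := by rw [← Real.exp_add]; norm_num
    rw [e]; nlinarith
  rcases Nat.eq_zero_or_pos n with h | h
  · subst h
    simp only [Nat.cast_zero, zero_add, Real.log_zero]
    exact (Real.log_le_log (by norm_num) (by norm_num : (3 : ℝ) ≤ 4)).trans h4
  · have h1 : (1 : ℝ) ≤ n := by exact_mod_cast h
    calc Real.log ((n : ℝ) + 3) ≤ Real.log (n * 4) := Real.log_le_log (by linarith) (by linarith)
      _ = Real.log n + Real.log 4 := Real.log_mul (by linarith) (by norm_num)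
      _ ≤ _ := by linarith

lemma exp_ev (c : ℝ) {γ : ℝ} (hγ : 0 < γ) : ∀ᶠ a : ℝ in atTop, c ≤ Real.exp (γ * a) :=
  (Real.tendsto_exp_atTop.comp (tendsto_id.const_mul_atTop hγ)).eventually (eventually_ge_atTop _)

lemma sq_ev {γ : ℝ} (hγ : 0 < γ) : ∀ᶠ a : ℝ in atTop, a ^ 2 ≤ Real.exp (γ * a) := by
  have h1 := (Real.tendsto_pow_mul_exp_neg_atTop_nhds_zero 2).comp (tendsto_id.const_mul_atTop hγ)
  have h2 := h1.eventually (gt_mem_nhds (show (0 : ℝ) < γ ^ 2 by positivity))
  filter_upwards [h2] with a ha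
  simp only [Function.comp, id] at ha
  rw [mul_pow, mul_assoc] at ha
  have h3 : a ^ 2 * Real.exp (-(γ * a)) < 1 := by
    have : 0 < γ ^ 2 := by positivity
    by_contra hc
    rw [not_lt] at hc
    nlinarith
  rw [Real.exp_neg, ← div_eq_mul_inv, div_lt_one (Real.exp_pos _)] at h3
  exact h3.le

lemma ev_small {n : ℝ → ℕ} (h : ∀ γ : ℝ, 0 < γ → ∀ᶠ a in atTop, Real.log (n a) ≤ Real.exp (γ * a)) (C : ℝ) {γ : ℝ} (hγ : 0 < γ) :
    ∀ᶠ a in atTop, C * a ^ 2 * Real.log (n a + 3) < Real.exp (γ * a) := by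
  have h3 : 0 < γ / 4 := by positivity
  filter_upwards [h (γ / 4) h3, exp_ev (2 * (|C| + 1)) h3, sq_ev h3, exp_ev 2 h3, eventually_gt_atTop 0] with a h1 h2 h4 h5 ha
  have e1 := log_add_three (n a)
  have e2 : Real.log ((n a : ℝ) + 3) ≤ Real.exp (γ / 4 * a) * 2 := by linarith
  have e3 : 0 ≤ Real.log ((n a : ℝ) + 3) := Real.log_nonneg (by have : (0 : ℝ) ≤ n a := Nat.cast_nonneg _; linarith)
  have e4 : C ≤ |C| := le_abs_self C
  set E := Real.exp (γ / 4 * a) with hE
  have hEp : 0 < E := Real.exp_pos _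
  have e5 : Real.exp (γ * a) = E * (E * (E * E)) := by
    rw [hE, ← Real.exp_add, ← Real.exp_add, ← Real.exp_add]; congr 1; ring
  rw [e5]
  have e6 : C * a ^ 2 * Real.log (n a + 3) ≤ (|C| + 1) * a ^ 2 * Real.log (n a + 3) := by
    refine mul_le_mul_of_nonneg_right (mul_le_mul_of_nonneg_right (by linarith) (by positivity)) e3
  have e7 : (|C| + 1) * a ^ 2 * Real.log (n a + 3) ≤ (|C| + 1) * E * (E * 2) := by
    have : 0 ≤ |C| + 1 := by positivity
    exact mul_le_mul (mul_le_mul_of_nonneg_left h4 this) e2 e3 (by positivity)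
  have e8 : (|C| + 1) * E * (E * 2) ≤ E * (E * E) := by
    have := mul_le_mul_of_nonneg_right h2 (mul_pos hEp hEp).le
    nlinarith
  have e9 : E * (E * E) < E * (E * (E * E)) := by
    have : 1 < E := by linarith
    have h6 : 0 < E * (E * E) := by positivity
    nlinarith
  linarith

lemma ev_log {n : ℝ → ℕ} (hL : Tendsto (fun a => Real.log (Real.log (n a)) / a) atTop (𝓝 0)) :
    ∀ γ : ℝ, 0 < γ → ∀ᶠ a in atTop, Real.log (n a) ≤ Real.exp (γ * a) := by
  intro γ hγ
  filter_upwards [hL.eventually (gt_mem_nhds hγ), eventually_gt_atTop 0] with a h1 ha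
  rw [div_lt_iff₀ ha] at h1
  rcases le_or_gt (Real.log (n a)) 0 with h2 | h2
  · exact h2.trans (Real.exp_pos _).le
  · exact ((Real.log_lt_iff_lt_exp h2).1 h1).le

lemma mm_log {κ : ℝ} (hκ : 0 < κ) : ∀ γ : ℝ, 0 < γ → ∀ᶠ a in atTop, Real.log (mm κ a) ≤ Real.exp (γ * a) := by
  intro γ hγ
  filter_upwards [(mm_div κ hκ).eventually (gt_mem_nhds one_pos), eventually_gt_atTop 1, sq_ev hγ] with a h1 ha h2
  rw [div_lt_one (by linarith)] at h1
  have h3 : Real.log (mm κ a) ≤ mm κ a := by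
    rcases Nat.eq_zero_or_pos (mm κ a) with h | h
    · rw [h]; simp
    · have : (0 : ℝ) < mm κ a := by exact_mod_cast h
      have := Real.log_le_sub_one_of_pos this
      linarith
  nlinarith

variable [D : ZD]

/-- **the exponents** -/
theorem lyap {k : ℕ} (hk : 1 ≤ k) {κ : ℝ} (hκ : 0 < κ) (hκβ : 5 * (bet 1 - bet k) < 4 * κ) {n : ℝ → ℕ}
    (hn : ∀ᶠ a in atTop, mm κ a ≤ n a) (hL : Tendsto (fun a => Real.log (Real.log (n a)) / a) atTop (𝓝 0)) :
    Tendsto (fun a => Real.log (max 1 (-eg a (n a) k)) / a) atTop (𝓝 (2 * bet k - 1)) := by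
  have hβ := bet_ge (D := D) hk
  rw [tendsto_order]
  constructor
  · intro l hl
    rcases lt_or_ge l 0 with hl0 | hl0
    · filter_upwards [eventually_gt_atTop 0] with a ha
      refine lt_of_lt_of_le hl0 (div_nonneg (Real.log_nonneg (le_max_left _ _)) ha.le)
    · -- choose a half-plane
      obtain ⟨θ, h1, h2⟩ : ∃ θ, max ((l + 1) / 2) (bet k - (4 * κ - 5 * (bet 1 - bet k)) / 10) < θ ∧ θ < bet k := by
        apply exists_between
        refine max_lt (by linarith) (by linarith)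
      have h3 := (le_max_left _ _).trans_lt h1
      have h4 := (le_max_right _ _).trans_lt h1
      obtain ⟨δ, hδ, hev⟩ := dir (k := k) (θ := θ) hκ (by linarith) (by linarith) (many_of_lt (by linarith) h2)
      filter_upwards [hev, hn, eventually_ge_atTop 1] with a h5 h6 ha
      have h7 := eg_le ha hk (h5 (n a) (by exact_mod_cast h6))
      rw [lt_div_iff₀ (by linarith)]
      have h8 : Real.exp ((2 * θ - 1 + δ) * a) ≤ max 1 (-eg a (n a) k) := le_max_of_le_right (by linarith)
      have h9 := Real.log_le_log (Real.exp_pos _) h8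
      rw [Real.log_exp] at h9
      refine lt_of_lt_of_le ?_ h9
      refine mul_lt_mul_of_pos_right ?_ (by linarith)
      linarith
  · intro u hu
    obtain ⟨θ, h1, h2⟩ : ∃ θ, bet k < θ ∧ θ < (u + 1) / 2 := exists_between (by linarith)
    have hfew := few_of_gt hk h1
    obtain ⟨C, hC, hge⟩ := eg_ge (D := D)
    filter_upwards [ev_small (ev_log hL) C (γ := u - (2 * θ - 1)) (by linarith), eventually_ge_atTop 1] with a h3 ha
    have h4 := hge a (n a) k θ ha (by linarith) hfew
    have h5 : C * a ^ 2 * Real.log (n a + 3) * Real.exp ((2 * θ - 1) * a) < Real.exp (u * a) := by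
      have := mul_lt_mul_of_pos_right h3 (Real.exp_pos ((2 * θ - 1) * a))
      rw [← Real.exp_add] at this
      have e : (u - (2 * θ - 1)) * a + (2 * θ - 1) * a = u * a := by ring
      rwa [e] at this
    rw [div_lt_iff₀ (by linarith), Real.log_lt_iff_lt_exp (lt_of_lt_of_le one_pos (le_max_left _ _))]
    refine max_lt ?_ (by linarith)
    rw [Real.one_lt_exp_iff]
    have : 0 < u := by linarith
    positivity

/-- **half-planes** -/
theorem half {θ κ : ℝ} (hθ : 1 / 2 ≤ θ) (hκ : 0 < κ) : (∀ s ∈ D.Zs, s.re ≤ θ) ↔ ∀ δ : ℝ, 0 < δ → ∀ A : ℝ, ∃ (a : ℝ) (n : ℕ),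
    A ≤ a ∧ mm κ a ≤ n ∧ ∀ f, Hn a n f → -Real.exp ((2 * θ - 1 + δ) * a) * N2 f ≤ QQ f := by
  constructor
  · intro hz δ hδ A
    obtain ⟨C, hC, h⟩ := form_ge (D := D)
    obtain ⟨a, h1, h2, h3⟩ := ((ev_small (mm_log hκ) C hδ).and ((eventually_ge_atTop A).and (eventually_ge_atTop 1))).exists
    refine ⟨a, mm κ a, h2, le_rfl, fun f hf => ?_⟩
    refine le_trans ?_ (h a (mm κ a) (θ - 1 / 2) f h3 (by linarith) hf fun ρ hρ => ?_)
    · refine mul_le_mul_of_nonneg_right (neg_le_neg ?_) (N2_nonneg f)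
      have := mul_le_mul_of_nonneg_right h1.le (Real.exp_pos (2 * (θ - 1 / 2) * a)).le
      refine this.trans (le_of_eq ?_)
      rw [← Real.exp_add]
      congr 1; ring
    · have h4 := hz ρ ρ.2
      have e1 : (wz ρ).re = (ρ : ℂ).re - 1 / 2 := by unfold wz; simp
      rw [e1] at hρ
      linarith
  · intro h s hs
    by_contra hc
    rw [not_le] at hc
    have h1 := re_le_bet hs
    set θ' : ℝ := max θ (bet 1 - κ / 2) with hθ'
    have h2 : θ' < bet 1 := max_lt (by linarith) (by linarith)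
    have h3 : θ ≤ θ' := le_max_left _ _
    have h4 : bet 1 - κ / 2 ≤ θ' := le_max_right _ _
    obtain ⟨δ, hδ, hev⟩ := dir (k := 1) (θ := θ') hκ (by linarith) (by linarith) (many_of_lt (by linarith) h2)
    obtain ⟨A, hA⟩ := eventually_atTop.1 hev
    obtain ⟨a, n, ha, hn, hf⟩ := h (δ / 2) (by positivity) (max A 1)
    have ha1 : 1 ≤ a := (le_max_right _ _).trans ha
    obtain ⟨f, hfH, hpos, hle⟩ := hA a ((le_max_left _ _).trans ha) n (by exact_mod_cast hn)
    have h5 := hpos 1 one_ne_zero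
    have h6 := hle 1
    have h7 := hf _ (Hn_comb hfH 1)
    have h8 := le_of_mul_le_mul_right (h7.trans h6) h5
    rw [neg_le_neg_iff, Real.exp_le_exp] at h8
    have h9 := le_of_mul_le_mul_right h8 (by linarith)
    linarith

end Pool.Agent.N965.LE
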