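import Pool.Agent.N965.LE.Ly

/-! # The exponents with respect to the norm of the form domain -/

set_option autoImplicit false
set_option linter.unusedSectionVars false
set_option maxHeartbeats 2000000

open Complex Filter Topology Set MeasureTheory
open scoped ComplexConjugate

namespace Pool.Agent.N965.LE

open Pool.Agent.Y23 Pool.Agent.Y23.G

variable [D : ZD]

/-- a subspace of dimension `k` on which the form is at most `r` -/
def NegL (a : ℝ) (ν : ℕ∞) (k : ℕ) (r : ℝ) : Prop := ∃ f : Fin k → ℝ → ℂ, (∀ i, Hn a ν (f i)) ∧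
  (∀ x : Fin k → ℂ, x ≠ 0 → 0 < LL (fun t => ∑ i, x i * f i t)) ∧
  ∀ x : Fin k → ℂ, QQ (fun t => ∑ i, x i * f i t) ≤ r * LL (fun t => ∑ i, x i * f i t)

/-- the `k`-th eigenvalue -/
noncomputable def egL (a : ℝ) (ν : ℕ∞) (k : ℕ) : ℝ := sInf {r | NegL a ν k r}

theorem negL_ge : ∃ C : ℝ, 0 < C ∧ ∀ (a : ℝ) (ν : ℕ∞) (k : ℕ) (θ r : ℝ), 1 ≤ a → 1 / 2 ≤ θ → (Rt θ).encard < k → NegL a ν k r →
    -(C * a ^ 2 * Real.exp ((2 * θ - 1) * a)) ≤ r := by
  obtain ⟨C, hC, h⟩ := QQ_ge (D := D)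
  refine ⟨C, hC, fun a ν k θ r ha hθ hfew hr => ?_⟩
  obtain ⟨f, hf, hpos, hle⟩ := hr
  obtain ⟨Z, hZ, hZm⟩ := few_finset hfew
  obtain ⟨x, hx, hv⟩ := kern Z hZ fun i => (hf i).1
  have h1 := h a (θ - 1 / 2) _ ha (by linarith) (Hn_comb hf x).hd fun ρ hρ => hv ρ (hZm ρ hρ)
  have h2 := h1.trans (hle x)
  have e : 2 * (θ - 1 / 2) * a = (2 * θ - 1) * a := by ring
  rw [e, ← neg_mul] at h2
  exact le_of_mul_le_mul_right h2 (hpos x hx)

theorem egL_ge : ∃ C : ℝ, 0 < C ∧ ∀ (a : ℝ) (ν : ℕ∞) (k : ℕ) (θ : ℝ), 1 ≤ a → 1 / 2 ≤ θ → (Rt θ).encard < k →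
    -(C * a ^ 2 * Real.exp ((2 * θ - 1) * a)) ≤ egL a ν k := by
  obtain ⟨C, hC, h⟩ := negL_ge (D := D)
  refine ⟨C, hC, fun a ν k θ ha hθ hfew => ?_⟩
  refine Real.le_sInf (fun r hr => h a ν k θ r ha hθ hfew hr) ?_
  rw [neg_nonpos]
  positivity

lemma egL_le {a : ℝ} {ν : ℕ∞} {k : ℕ} {r : ℝ} (ha : 1 ≤ a) (hk : 1 ≤ k) (hr : NegL a ν k r) : egL a ν k ≤ r := by
  obtain ⟨C, hC, h⟩ := negL_ge (D := D)
  refine csInf_le ⟨_, fun r hr => h a ν k (3 / 2) r ha (by norm_num) ?_ hr⟩ hr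
  rw [Rt_empty le_rfl, Set.encard_empty]
  exact_mod_cast hk

/-- zeros to the right give negative directions -/
theorem dirL {κ θ : ℝ} {k : ℕ} (hκ : 0 < κ) (hθ : 1 / 2 ≤ θ) (hκθ : 5 * (bet 1 - θ) < 4 * κ) (hk : (k : ℕ∞) ≤ (Rt θ).encard) :
    ∃ δ : ℝ, 0 < δ ∧ ∀ᶠ a in atTop, ∀ ν : ℕ∞, ((mm κ a : ℕ) : ℕ∞) ≤ ν → NegL a ν k (-Real.exp ((2 * θ - 1 + δ) * a)) := by
  obtain ⟨δ, hδ, h⟩ := dir hκ hθ hκθ hk
  obtain ⟨C, hC, hLL⟩ := LL_le
  refine ⟨δ / 2, by positivity, ?_⟩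
  filter_upwards [h, ev_small (mm_log hκ) C (γ := δ / 2) (by positivity), eventually_ge_atTop 1] with a h1 h2 ha ν hν
  obtain ⟨f, hf, hpos, hle⟩ := h1 (mm κ a) le_rfl
  have hL : ∀ x : Fin k → ℂ, LL (fun t => ∑ i, x i * f i t) ≤ Real.exp (δ / 2 * a) * N2 (fun t => ∑ i, x i * f i t) := by
    intro x
    refine (hLL a (mm κ a) _ ha (Hn_comb hf x)).trans (mul_le_mul_of_nonneg_right ?_ (N2_nonneg _))
    refine le_trans ?_ h2.le
    have h3 : 0 ≤ Real.log ((mm κ a : ℝ) + 3) := Real.log_nonneg (by have : (0 : ℝ) ≤ mm κ a := Nat.cast_nonneg _; linarith)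
    have h4 : 1 ≤ a ^ 2 := one_le_pow₀ ha
    calc C * Real.log ((mm κ a : ℝ) + 3) ≤ (C * a ^ 2) * Real.log ((mm κ a : ℝ) + 3) := by
          refine mul_le_mul_of_nonneg_right ?_ h3
          nlinarith
      _ = _ := rfl
  refine ⟨f, fun i => (hf i).mono hν, fun x hx => ?_, fun x => ?_⟩
  · have h3 := N2_le_LL (Hn_comb hf x).hd
    have h4 := hpos x hx
    have := Real.pi_pos
    have : 0 < 2 * Real.pi * N2 (fun t => ∑ i, x i * f i t) := by positivity
    linarith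
  · refine (hle x).trans ?_
    have h3 := hL x
    have e : Real.exp ((2 * θ - 1 + δ) * a) = Real.exp ((2 * θ - 1 + δ / 2) * a) * Real.exp (δ / 2 * a) := by
      rw [← Real.exp_add]; congr 1; ring
    rw [e, neg_mul, neg_mul, neg_le_neg_iff, mul_assoc]
    exact mul_le_mul_of_nonneg_left h3 (Real.exp_pos _).le

/-- **the exponents** -/
theorem lyapL {k : ℕ} (hk : 1 ≤ k) {κ : ℝ} (hκ : 0 < κ) (hκβ : 5 * (bet 1 - bet k) < 4 * κ) {ν : ℝ → ℕ∞}
    (hn : ∀ᶠ a in atTop, ((mm κ a : ℕ) : ℕ∞) ≤ ν a) :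
    Tendsto (fun a => Real.log (max 1 (-egL a (ν a) k)) / a) atTop (𝓝 (2 * bet k - 1)) := by
  have hβ := bet_ge (D := D) hk
  rw [tendsto_order]
  constructor
  · intro l hl
    rcases lt_or_ge l 0 with hl0 | hl0
    · filter_upwards [eventually_gt_atTop 0] with a ha
      refine lt_of_lt_of_le hl0 (div_nonneg (Real.log_nonneg (le_max_left _ _)) ha.le)
    · obtain ⟨θ, h1, h2⟩ : ∃ θ, max ((l + 1) / 2) (bet k - (4 * κ - 5 * (bet 1 - bet k)) / 10) < θ ∧ θ < bet k := by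
        apply exists_between
        refine max_lt (by linarith) (by linarith)
      have h3 := (le_max_left _ _).trans_lt h1
      have h4 := (le_max_right _ _).trans_lt h1
      obtain ⟨δ, hδ, hev⟩ := dirL (k := k) (θ := θ) hκ (by linarith) (by linarith) (many_of_lt (by linarith) h2)
      filter_upwards [hev, hn, eventually_ge_atTop 1] with a h5 h6 ha
      have h7 := egL_le ha hk (h5 (ν a) h6)
      rw [lt_div_iff₀ (by linarith)]
      have h8 : Real.exp ((2 * θ - 1 + δ) * a) ≤ max 1 (-egL a (ν a) k) := le_max_of_le_right (by linarith)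
      have h9 := Real.log_le_log (Real.exp_pos _) h8
      rw [Real.log_exp] at h9
      refine lt_of_lt_of_le ?_ h9
      refine mul_lt_mul_of_pos_right ?_ (by linarith)
      linarith
  · intro u hu
    obtain ⟨θ, h1, h2⟩ : ∃ θ, bet k < θ ∧ θ < (u + 1) / 2 := exists_between (by linarith)
    have hfew := few_of_gt hk h1
    obtain ⟨C, hC, hge⟩ := egL_ge (D := D)
    have hγ : 0 < u - (2 * θ - 1) := by linarith
    filter_upwards [sq_ev (γ := (u - (2 * θ - 1)) / 3) (by linarith), exp_ev C (γ := (u - (2 * θ - 1)) / 3) (by linarith),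
      exp_ev 2 (γ := (u - (2 * θ - 1)) / 3) (by linarith), eventually_ge_atTop 1] with a h3 h3' h3'' ha
    have h4 := hge a (ν a) k θ ha (by linarith) hfew
    set E := Real.exp ((u - (2 * θ - 1)) / 3 * a) with hE
    have hE0 : 0 < E := Real.exp_pos _
    have h5 : C * a ^ 2 * Real.exp ((2 * θ - 1) * a) < Real.exp (u * a) := by
      have e : Real.exp (u * a) = E * E * E * Real.exp ((2 * θ - 1) * a) := by
        rw [hE, ← Real.exp_add, ← Real.exp_add, ← Real.exp_add]; congr 1; ring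
      rw [e]
      refine mul_lt_mul_of_pos_right ?_ (Real.exp_pos _)
      have h6 : C * a ^ 2 ≤ E * E := mul_le_mul h3' h3 (by positivity) hE0.le
      nlinarith [mul_pos hE0 hE0]
    rw [div_lt_iff₀ (by linarith), Real.log_lt_iff_lt_exp (lt_of_lt_of_le one_pos (le_max_left _ _))]
    refine max_lt ?_ (by linarith)
    rw [Real.one_lt_exp_iff]
    have : 0 < u := by linarith
    positivity

end Pool.Agent.N965.LE
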