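import Pool.Agent.N965.LE.In
import Pool.Agent.N965.LE.La
import Pool.Agent.Y23.Fin
import Pool.Agent.H297R2.LG.Final

/-! # The lowest eigenvalue on the Riemann hypothesis -/

set_option autoImplicit false
set_option linter.unusedSectionVars false
set_option maxHeartbeats 2000000

open Complex Filter Topology Set MeasureTheory
open scoped ComplexConjugate

namespace Pool.Agent.N965.LE

open Pool.Agent.Y23

/-- many separated zeros -/
theorem sep_zeros (hRH : SP.RHs) : ∃ ε T0 : ℝ, 0 < ε ∧ ε ≤ 1 ∧ 10 ≤ T0 ∧ ∀ T : ℝ, T0 ≤ T → ∃ Γ : Finset ℝ,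
    ε * (T * Real.log T) ≤ (Γ.card : ℝ) ∧ (∀ γ ∈ Γ, T ≤ γ ∧ γ ≤ 2 * T ∧ riemannZeta (1 / 2 + γ * I) = 0) ∧
    ∀ x ∈ Γ, ∀ y ∈ Γ, x ≠ y → 22 / Real.log T ≤ |x - y| := by
  classical
  obtain ⟨P, B0, r, F, q, h1, h2, h3, h4, h5⟩ := LG.PAR
  obtain ⟨η, ε, K, T0, hη, hε, hK, hT0, hloc⟩ := LG.LOCAL hRH P B0 h1 r h2 F q h3 _ (by norm_num) h4 h5
  obtain ⟨ε', T1, hε', hT1, hb⟩ := LG.pos_large P.κ P.hκ _ hε hK hT0 hloc
  refine ⟨min ε' 1, T1, lt_min hε' one_pos, min_le_right _ _, hT1, fun T hT => ?_⟩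
  have hlogT : 0 < Real.log T := Real.log_pos (by linarith)
  have h6 := hb T hT
  set S : Set ℕ := {n : ℕ | 1 ≤ n ∧ T ≤ SG.ord n ∧ SG.ord n ≤ 2 * T ∧
      2 * Real.pi * (357 / 100 + η) / Real.log T < SG.ord (n + 1) - SG.ord n} with hS
  have hSfin : S.Finite := LG.PosA.fin_ord (2 * T) S fun n hn => ⟨hn.1, hn.2.2.1⟩
  have hsep : ∀ n ∈ S, ∀ m ∈ S, n < m → 22 / Real.log T < SG.ord m - SG.ord n := by
    intro n hn m hm hnm
    have h7 := hn.2.2.2
    have h8 := SG.ord_mono (n := n + 1) (m := m) (by omega) hnm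
    have h9 : 22 / Real.log T ≤ 2 * Real.pi * (357 / 100 + η) / Real.log T := by
      refine div_le_div_of_nonneg_right ?_ hlogT.le
      have := Real.pi_gt_d2
      nlinarith
    linarith
  have hpos : 0 < 22 / Real.log T := by positivity
  have hinj : Set.InjOn SG.ord S := by
    intro n hn m hm h
    rcases lt_trichotomy n m with h1 | h1 | h1
    · have := hsep n hn m hm h1; linarith
    · exact h1
    · have := hsep m hm n hn h1; linarith
  refine ⟨hSfin.toFinset.image SG.ord, ?_, ?_, ?_⟩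
  · rw [Finset.card_image_of_injOn (by rw [Set.Finite.coe_toFinset]; exact hinj), ← Set.ncard_eq_toFinset_card S hSfin]
    refine le_trans (mul_le_mul_of_nonneg_right (min_le_left _ _) ?_) h6
    have : 0 < T := by linarith
    positivity
  · intro γ hγ
    rw [Finset.mem_image] at hγ
    obtain ⟨n, hn, rfl⟩ := hγ
    rw [Set.Finite.mem_toFinset] at hn
    refine ⟨hn.2.1, hn.2.2.1, ?_⟩
    have h7 := SG.ord_count (SG.ord n) (SG.ord_pos hn.1)
    have h8 : {m : ℕ | 1 ≤ m ∧ SG.ord m = SG.ord n}.ncard ≠ 0 :=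
      Set.ncard_ne_zero_of_mem (a := n) ⟨hn.1, rfl⟩ (LG.PosA.fin_ord (SG.ord n) _ fun m hm => ⟨hm.1, hm.2.le⟩)
    rw [h7] at h8
    obtain ⟨s, hs, _⟩ := exists_ne_zero_of_finsum_mem_ne_zero h8
    obtain ⟨a1, a2, a3, a4⟩ := hs
    have a5 := hRH s a2 a3 a1
    have e : (1 / 2 : ℂ) + (SG.ord n : ℂ) * I = s := by
      apply Complex.ext
      · simp [a5]
      · simp [a4]
    rw [e]; exact a1
  · intro x hx y hy hne
    rw [Finset.mem_image] at hx hy
    obtain ⟨n, hn, rfl⟩ := hx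
    obtain ⟨m, hm, rfl⟩ := hy
    rw [Set.Finite.mem_toFinset] at hn hm
    rcases lt_trichotomy n m with h1 | h1 | h1
    · have := hsep n hn m hm h1
      rw [abs_sub_comm, abs_of_pos (by linarith)]; exact this.le
    · exact absurd (by rw [h1]) hne
    · have := hsep m hm n hn h1
      rw [abs_of_pos (by linarith)]; exact this.le

/-- the norm through the nodes -/
lemma N2_nodes {a : ℝ} (ha : 0 < a) {n : ℕ} {f : ℝ → ℂ} (hf : Hn a n f) {M : ℝ}
    (hM : ∀ k ∈ Finset.Icc (-(n : ℤ)) n, ‖TT f (nd a k)‖ ≤ M) : N2 f ≤ (2 * n + 1) ^ 2 * M ^ 2 / (2 * a) := by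
  classical
  set s := Finset.Icc (-(n : ℤ)) n with hs
  set g : ℝ → ℂ := fun x => ∑ k ∈ s, (TT f (nd a k) / (2 * a)) * ek a k x with hg
  have hFk : ∀ k ∈ s, Fa a (fun x => (TT f (nd a k) / (2 * a)) * ek a k x) := fun k _ => (Fa_ek k).smul _
  have hFg : Fa a g := Fa_sum s hFk
  have hTg : ∀ w, TT g w = TT f w := by
    intro w
    rw [hg, TT_sum s hFk, TT_trig ha hf w]
    exact Finset.sum_congr rfl fun k _ => TT_smul _ _ _
  have h1 : N2 f = N2 g := by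
    have h1 := plancherel hf.1
    have h2 := plancherel hFg
    simp only [hTg] at h2
    have hpi := Real.pi_pos
    have h3 : 2 * Real.pi * N2 f = 2 * Real.pi * N2 g := by rw [← h1, ← h2]
    exact mul_left_cancel₀ (by positivity) h3
  rw [h1]
  refine (N2_trig_le ha s _).trans ?_
  have h2 : ∑ k ∈ s, ‖TT f (nd a k) / (2 * a)‖ ≤ (2 * n + 1) * (M / (2 * a)) := by
    refine (Finset.sum_le_card_nsmul _ _ (M / (2 * a)) fun k hk => ?_).trans (le_of_eq ?_)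
    · rw [norm_div]
      have h3 : ‖(2 * a : ℂ)‖ = 2 * a := by
        rw [norm_mul, Complex.norm_real, Real.norm_eq_abs, abs_of_pos ha]; simp
      rw [h3]
      exact div_le_div_of_nonneg_right (hM k hk) (by positivity)
    · rw [nsmul_eq_mul, hs, Int.card_Icc]
      congr 1
      have : ((n : ℤ) + 1 - -(n : ℤ)).toNat = 2 * n + 1 := by omega
      rw [this]; push_cast; ring
  have h3 : 0 ≤ ∑ k ∈ s, ‖TT f (nd a k) / (2 * a)‖ := Finset.sum_nonneg fun _ _ => norm_nonneg _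
  calc 2 * a * (∑ k ∈ s, ‖TT f (nd a k) / (2 * a)‖) ^ 2 ≤ 2 * a * ((2 * n + 1) * (M / (2 * a))) ^ 2 :=
        mul_le_mul_of_nonneg_left (pow_le_pow_left₀ h3 h2 2) (by positivity)
    _ = _ := by field_simp

lemma val_le (hRH : ∀ ρ : Zt, (ρ : ℂ).re = 1 / 2) {a : ℝ} (ha : 0 < a) {f : ℝ → ℂ} (hf : Hd a f) {γ : ℝ}
    (hγ : riemannZeta (1 / 2 + γ * I) = 0) : ‖TT f (γ * I)‖ ^ 2 ≤ QQ f := by
  have hz : (0 : ℝ) < ((1 / 2 : ℂ) + γ * I).re ∧ ((1 / 2 : ℂ) + γ * I).re < 1 := by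
    constructor <;> simp <;> norm_num
  set ρ : Zt := ⟨1 / 2 + γ * I, hγ, hz.1, hz.2⟩ with hρ
  obtain ⟨_, _, hC⟩ := dom_of_Hd ha
  have hs := (hC f hf).1
  rw [QQ_eq_SS hRH]
  have h1 := hs.le_tsum ρ (fun σ _ => by positivity)
  have e : ((ρ : ℂ) - 1 / 2) = γ * I := by
    show (1 / 2 + (γ : ℂ) * I) - 1 / 2 = _
    ring
  have h2 : (1 : ℝ) ≤ mu (ρ : ℂ) := by exact_mod_cast mu_pos (s := (ρ : ℂ)) ρ.2
  have h3 : ‖TT f (γ * I)‖ ^ 2 ≤ (mu (ρ : ℂ) : ℝ) * ‖TT f ((ρ : ℂ) - 1 / 2)‖ ^ 2 := by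
    rw [e]
    exact le_mul_of_one_le_left (sq_nonneg _) h2
  exact h3.trans h1

lemma num1 {ε a T : ℝ} (hε : 0 < ε) (ha : 1 ≤ a) (hT10 : 10 ≤ T) (hl : 40 * a ≤ ε * Real.log T) {n k : ℕ}
    (hn : 2 * (n : ℝ) ≤ T) (hk1 : ε * (T * Real.log T) ≤ k + 1) :
    4 * a * (2 * n + 1) ^ 2 * ((2 / 7) ^ (2 * (k + 1)) * Real.exp (32 * a * T)) ≤ 1 / 2 := by
  have hT0 : 0 < T := by linarith
  have ha0 : 0 < a := by linarith
  have h1 : ((2 : ℝ) / 7) ^ (2 * (k + 1)) ≤ Real.exp (-(2 * ((k : ℝ) + 1))) := by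
    have e1 : ((2 : ℝ) / 7) ^ (2 * (k + 1)) = (4 / 49) ^ (k + 1) := by
      rw [pow_mul]; norm_num
    have e2 : Real.exp (-(2 * ((k : ℝ) + 1))) = (Real.exp (-2)) ^ (k + 1) := by
      rw [← Real.exp_nat_mul]; congr 1; push_cast; ring
    rw [e1, e2]
    refine pow_le_pow_left₀ (by norm_num) ?_ _
    rw [Real.exp_neg, ← one_div, div_le_div_iff₀ (by norm_num) (Real.exp_pos _)]
    have e3 : Real.exp 2 = Real.exp 1 * Real.exp 1 := by rw [← Real.exp_add]; norm_num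
    have := Real.exp_one_lt_d9
    have := Real.exp_pos 1
    rw [e3]; nlinarith
  have h2 : 40 * a * T ≤ (k : ℝ) + 1 := by
    refine le_trans ?_ hk1
    calc 40 * a * T ≤ (ε * Real.log T) * T := mul_le_mul_of_nonneg_right hl hT0.le
      _ = _ := by ring
  have h3 : ((2 : ℝ) / 7) ^ (2 * (k + 1)) * Real.exp (32 * a * T) ≤ Real.exp (-(48 * a * T)) := by
    calc _ ≤ Real.exp (-(2 * ((k : ℝ) + 1))) * Real.exp (32 * a * T) := mul_le_mul_of_nonneg_right h1 (Real.exp_pos _).le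
      _ = Real.exp (-(2 * ((k : ℝ) + 1)) + 32 * a * T) := (Real.exp_add _ _).symm
      _ ≤ _ := Real.exp_le_exp.2 (by linarith)
  have h4 : (2 * (n : ℝ) + 1) ^ 2 ≤ (2 * T) ^ 2 := pow_le_pow_left₀ (by positivity) (by linarith) 2
  have h5 : 1152 * (a * T) ^ 2 ≤ Real.exp (48 * a * T) := by
    have := Real.quadratic_le_exp_of_nonneg (x := 48 * a * T) (by positivity)
    nlinarith [mul_pos ha0 hT0]
  calc 4 * a * (2 * n + 1) ^ 2 * ((2 / 7) ^ (2 * (k + 1)) * Real.exp (32 * a * T)) ≤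
      4 * a * (2 * T) ^ 2 * Real.exp (-(48 * a * T)) := by
        refine mul_le_mul (mul_le_mul_of_nonneg_left h4 (by positivity)) h3 (by positivity) (by positivity)
    _ ≤ 1 / 2 := by
        rw [Real.exp_neg, ← div_eq_mul_inv, div_le_div_iff₀ (Real.exp_pos _) (by norm_num)]
        have h6 : a * T ^ 2 ≤ (a * T) ^ 2 := by nlinarith [mul_nonneg ha0.le (sq_nonneg T)]
        nlinarith

lemma num2 {ε T : ℝ} (hε : 0 < ε) (hε1 : ε ≤ 1) (hT10 : 10 ≤ T) {n k : ℕ}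
    (hn : 2 * (n : ℝ) ≤ T) (hk2 : (k : ℝ) ≤ ε * (T * Real.log T)) :
    16 * (2 * n + 1) ^ 2 * (k + 1) ^ 2 * (10 / ε) ^ (2 * k) ≤ Real.exp ((7 + 2 * Real.log (10 / ε)) * (T * Real.log T)) := by
  have hT0 : 0 < T := by linarith
  have hl1 : 1 ≤ Real.log T := by
    rw [Real.le_log_iff_exp_le hT0]
    have := Real.exp_one_lt_d9
    linarith
  have hl2 : Real.log T ≤ T - 1 := Real.log_le_sub_one_of_pos hT0
  have hTl : 0 < T * Real.log T := by positivity
  have hkT : (k : ℝ) ≤ T * Real.log T := hk2.trans (by nlinarith)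
  have hD : 1 ≤ 10 / ε := by rw [le_div_iff₀ hε]; linarith
  have hlD : 0 ≤ Real.log (10 / ε) := Real.log_nonneg hD
  have h1 : (2 * (n : ℝ) + 1) ^ 2 ≤ (2 * T) ^ 2 := pow_le_pow_left₀ (by positivity) (by linarith) 2
  have h2 : ((k : ℝ) + 1) ^ 2 ≤ (T ^ 2) ^ 2 := by
    refine pow_le_pow_left₀ (by positivity) ?_ 2
    nlinarith
  have h3 : (10 / ε) ^ (2 * k) ≤ Real.exp (2 * Real.log (10 / ε) * (T * Real.log T)) := by
    have e : (10 / ε) ^ (2 * k) = Real.exp (2 * Real.log (10 / ε) * k) := by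
      rw [show 2 * Real.log (10 / ε) * k = ((2 * k : ℕ) : ℝ) * Real.log (10 / ε) by push_cast; ring, Real.exp_nat_mul,
        Real.exp_log (by linarith)]
    rw [e]
    exact Real.exp_le_exp.2 (mul_le_mul_of_nonneg_left hkT (by positivity))
  have h4 : 16 * (2 * T) ^ 2 * (T ^ 2) ^ 2 ≤ Real.exp (7 * (T * Real.log T)) := by
    have e1 : 16 * (2 * T) ^ 2 * (T ^ 2) ^ 2 = 64 * T ^ 6 := by ring
    have e2 : T ^ 6 = Real.exp (6 * Real.log T) := by
      rw [show 6 * Real.log T = ((6 : ℕ) : ℝ) * Real.log T by norm_num, Real.exp_nat_mul, Real.exp_log hT0]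
    have e3 : (64 : ℝ) ≤ Real.exp (T * Real.log T) := by
      have h5 := Real.quadratic_le_exp_of_nonneg (x := T * Real.log T) hTl.le
      have h6 : 2 ≤ Real.log T := by
        rw [Real.le_log_iff_exp_le hT0]
        have e3 : Real.exp 2 = Real.exp 1 * Real.exp 1 := by rw [← Real.exp_add]; norm_num
        have := Real.exp_one_lt_d9
        have := Real.exp_pos 1
        rw [e3]; nlinarith
      have h7 : 20 ≤ T * Real.log T := by nlinarith
      nlinarith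
    rw [e1, e2]
    calc 64 * Real.exp (6 * Real.log T) ≤ Real.exp (T * Real.log T) * Real.exp (6 * (T * Real.log T)) := by
          refine mul_le_mul e3 (Real.exp_le_exp.2 ?_) (Real.exp_pos _).le (Real.exp_pos _).le
          nlinarith
      _ = _ := by rw [← Real.exp_add]; congr 1; ring
  calc 16 * (2 * n + 1) ^ 2 * (k + 1) ^ 2 * (10 / ε) ^ (2 * k) ≤
      Real.exp (7 * (T * Real.log T)) * Real.exp (2 * Real.log (10 / ε) * (T * Real.log T)) := by
        refine mul_le_mul (le_trans ?_ h4) h3 (by positivity) (Real.exp_pos _).le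
        exact mul_le_mul (mul_le_mul_of_nonneg_left h1 (by norm_num)) h2 (by positivity) (by positivity)
    _ = _ := by rw [← Real.exp_add]; congr 1; ring

lemma num3 {x : ℝ} {n : ℕ} (hx : 10 ≤ x) : (x + 2 * n) * Real.log (x + 2 * n) ≤ 4 * x ^ 2 + 8 * (n * Real.log (n + 3)) := by
  have hn0 : (0 : ℝ) ≤ n := Nat.cast_nonneg n
  have hl0 : 0 ≤ Real.log ((n : ℝ) + 3) := Real.log_nonneg (by linarith)
  have hnl : 0 ≤ (n : ℝ) * Real.log (n + 3) := mul_nonneg hn0 hl0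
  set T : ℝ := x + 2 * n with hT
  have hT0 : 0 < T := by linarith
  have hlT0 : 0 ≤ Real.log T := Real.log_nonneg (by linarith)
  rcases le_or_gt (2 * (n : ℝ)) x with h | h
  · have h1 : T ≤ 2 * x := by linarith
    have h2 : Real.log T ≤ 2 * x := (Real.log_le_sub_one_of_pos hT0).trans (by linarith)
    nlinarith [mul_le_mul h1 h2 hlT0 (by linarith : (0 : ℝ) ≤ 2 * x)]
  · have h1 : T ≤ 4 * n := by linarith
    have h2 : Real.log T ≤ 2 * Real.log (n + 3) := by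
      have e : 2 * Real.log ((n : ℝ) + 3) = Real.log (((n : ℝ) + 3) ^ 2) := by rw [Real.log_pow]; norm_num
      rw [e]
      refine Real.log_le_log hT0 ?_
      nlinarith
    have h3 := mul_le_mul h1 h2 hlT0 (by linarith : (0 : ℝ) ≤ 4 * n)
    nlinarith [sq_nonneg x]

/-- **the lower bound for the form on the Riemann hypothesis** -/
theorem rh_lower (hRH : ∀ ρ : Zt, (ρ : ℂ).re = 1 / 2) : ∃ C : ℝ, 0 < C ∧ ∀ (a : ℝ) (n : ℕ) (f : ℝ → ℂ), 1 ≤ a → Hn a n f →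
    Real.exp (-(C * (n * Real.log (n + 3)) + Real.exp (C * a))) * N2 f ≤ QQ f := by
  classical
  have hRHs : SP.RHs := fun s h1 h2 h3 => hRH ⟨s, h3, h1, h2⟩
  obtain ⟨ε, T0, hε, hε1, hT0, hsep⟩ := sep_zeros hRHs
  have hD1 : 1 ≤ 10 / ε := by rw [le_div_iff₀ hε]; linarith
  have hlD : 0 ≤ Real.log (10 / ε) := Real.log_nonneg hD1
  set C2 : ℝ := 7 + 2 * Real.log (10 / ε) with hC2
  have hC2pos : 0 < C2 := by linarith
  set C1 : ℝ := 40 / ε with hC1
  have hC1pos : 0 < C1 := by positivity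
  have hlT0 : 0 ≤ Real.log (T0 + 1) := Real.log_nonneg (by linarith)
  refine ⟨8 * C2 + 2 * C1 + 2 * Real.log (T0 + 1), by positivity, fun a n f ha hf => ?_⟩
  have ha0 : 0 < a := by linarith
  have hn0 : (0 : ℝ) ≤ n := Nat.cast_nonneg n
  set x : ℝ := T0 + Real.exp (C1 * a) with hx
  have hxe : 0 < Real.exp (C1 * a) := Real.exp_pos _
  have hx10 : 10 ≤ x := by linarith
  set T : ℝ := x + 2 * n with hT
  have hT10 : 10 ≤ T := by linarith
  have hTT0 : T0 ≤ T := by linarith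
  have hnT : 2 * (n : ℝ) ≤ T := by linarith
  have hTpos : 0 < T := by linarith
  have hlT : C1 * a ≤ Real.log T := by
    rw [Real.le_log_iff_exp_le hTpos]; linarith
  have hl : 40 * a ≤ ε * Real.log T := by
    have := mul_le_mul_of_nonneg_left hlT hε.le
    refine le_trans (le_of_eq ?_) this
    rw [hC1]; field_simp
  have hlogpos : 0 < Real.log T := lt_of_lt_of_le (by positivity) hlT
  obtain ⟨Γ, hΓ1, hΓ2, hΓ3⟩ := hsep T hTT0
  -- choose a subset
  have hbig : 40 ≤ ε * (T * Real.log T) := by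
    have h1 : 40 * 1 ≤ ε * Real.log T := (mul_le_mul_of_nonneg_left ha (by norm_num)).trans hl
    nlinarith
  set K : ℕ := ⌈ε * (T * Real.log T)⌉₊ with hK
  have hKΓ : K ≤ Γ.card := Nat.ceil_le.2 hΓ1
  obtain ⟨Γ', hΓ'sub, hΓ'card⟩ := Finset.exists_subset_card_eq hKΓ
  have hK1 : ε * (T * Real.log T) ≤ K := Nat.le_ceil _
  have hK2 : (K : ℝ) < ε * (T * Real.log T) + 1 := Nat.ceil_lt_add_one (by linarith)
  have hKpos : 2 ≤ K := by
    have : (2 : ℝ) ≤ K := by linarith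
    exact_mod_cast this
  obtain ⟨k, hk⟩ : ∃ k, K = k + 1 := ⟨K - 1, by omega⟩
  have hk1 : 1 ≤ k := by omega
  have hkK : (K : ℝ) = k + 1 := by rw [hk]; push_cast; ring
  rw [hkK] at hK1 hK2
  have hkle : (k : ℝ) ≤ ε * (T * Real.log T) := by linarith
  have hQ0 : 0 ≤ QQ f := by rw [QQ_eq_SS hRH]; exact SS_nonneg f
  set μ : ℝ := Real.sqrt (QQ f) with hμ
  have hμ0 : 0 ≤ μ := Real.sqrt_nonneg _
  have hμ2 : μ ^ 2 = QQ f := Real.sq_sqrt hQ0
  have hN := N2_nonneg f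
  set B : ℝ := Real.sqrt (2 * a * Real.exp (32 * a * T) * N2 f) with hB
  have hB0 : 0 ≤ B := Real.sqrt_nonneg _
  have hB2 : B ^ 2 = 2 * a * Real.exp (32 * a * T) * N2 f := Real.sq_sqrt (by positivity)
  have key := small_on (F := TT f) (T := 2 * T) (s := 22 / Real.log T) (μ := μ) (B := B) (D := 10 / ε) (differentiable_TT hf.1)
    (by positivity) (by positivity) hμ0 Γ' (k := k) (by rw [hΓ'card, hk]) hk1
    (fun γ hγ => by
      have := hΓ2 γ (hΓ'sub hγ)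
      rw [abs_of_nonneg (by linarith)]; exact this.2.1)
    (fun u hu v hv hne => hΓ3 u (hΓ'sub hu) v (hΓ'sub hv) hne)
    (fun γ hγ => by
      apply Real.le_sqrt_of_sq_le
      exact val_le hRH ha0 hf.hd (hΓ2 γ (hΓ'sub hγ)).2.2)
    (fun ζ hζ => by
      apply Real.le_sqrt_of_sq_le
      refine (norm_TT_le ha0 hf.1 ζ).trans ?_
      refine mul_le_mul_of_nonneg_right (mul_le_mul_of_nonneg_left (Real.exp_le_exp.2 ?_) (by positivity)) hN
      have h1 := Complex.abs_re_le_norm ζ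
      rw [hζ] at h1
      nlinarith)
    (by
      have h1 : 11 * ε * T ≤ 22 / Real.log T * k := by
        have h2 : ε * (T * Real.log T) / 2 ≤ k := by linarith
        calc 11 * ε * T = 22 / Real.log T * (ε * (T * Real.log T) / 2) := by field_simp; ring
          _ ≤ _ := mul_le_mul_of_nonneg_left h2 (by positivity)
      have h2 := mul_le_mul_of_nonneg_left h1 (by positivity : 0 ≤ 10 / ε)
      have h3 : 10 / ε * (11 * ε * T) = 110 * T := by field_simp; ring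
      rw [h3] at h2
      linarith)
  set M : ℝ := 2 * ((k + 1) * (10 / ε) ^ k * μ) + (2 / 7) ^ (k + 1) * B with hM
  have hnode : ∀ j ∈ Finset.Icc (-(n : ℤ)) n, ‖TT f (nd a j)‖ ≤ M := by
    intro j hj
    refine key _ ?_
    unfold nd
    rw [norm_mul, Complex.norm_I, mul_one, Complex.norm_real, Real.norm_eq_abs, abs_div, abs_mul, abs_of_pos ha0,
      abs_of_pos Real.pi_pos, div_le_iff₀ ha0]
    rw [Finset.mem_Icc] at hj
    have h6 : |(j : ℝ)| ≤ n := by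
      rw [abs_le]
      constructor
      · exact_mod_cast hj.1
      · exact_mod_cast hj.2
    have h7 := Real.pi_lt_four
    have h8 := Real.pi_pos
    calc Real.pi * |(j : ℝ)| ≤ 4 * n := mul_le_mul h7.le h6 (abs_nonneg _) (by norm_num)
      _ ≤ 2 * T * 1 := by linarith
      _ ≤ 2 * T * a := mul_le_mul_of_nonneg_left ha (by positivity)
  have h1 := N2_nodes ha0 hf hnode
  have hM2 : M ^ 2 ≤ 8 * ((k + 1) ^ 2 * (10 / ε) ^ (2 * k) * QQ f) + 2 * ((2 / 7) ^ (2 * (k + 1)) * B ^ 2) := by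
    have e1 : (2 * ((k + 1) * (10 / ε) ^ k * μ)) ^ 2 = 4 * ((k + 1) ^ 2 * (10 / ε) ^ (2 * k) * QQ f) := by
      rw [← hμ2, mul_comm 2 k, pow_mul]; ring
    have e2 : ((2 / 7 : ℝ) ^ (k + 1) * B) ^ 2 = (2 / 7) ^ (2 * (k + 1)) * B ^ 2 := by
      rw [mul_comm 2 (k + 1), pow_mul]; ring
    have h3 : M ^ 2 ≤ 2 * (2 * ((k + 1) * (10 / ε) ^ k * μ)) ^ 2 + 2 * ((2 / 7 : ℝ) ^ (k + 1) * B) ^ 2 := by
      rw [hM]
      nlinarith [sq_nonneg (2 * ((k + 1) * (10 / ε) ^ k * μ) - (2 / 7 : ℝ) ^ (k + 1) * B)]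
    rw [e1, e2] at h3
    linarith
  have h2 : N2 f ≤ (2 * n + 1) ^ 2 * M ^ 2 := by
    refine h1.trans ?_
    rw [div_le_iff₀ (by positivity)]
    have h3 : 0 ≤ (2 * (n : ℝ) + 1) ^ 2 * M ^ 2 := by positivity
    nlinarith
  have h3 := num1 (n := n) (k := k) hε ha hT10 hl hnT hK1
  have h4 := num2 (n := n) (k := k) hε hε1 hT10 hnT hkle
  rw [← hC2] at h4
  have h5 : N2 f ≤ 16 * (2 * n + 1) ^ 2 * (k + 1) ^ 2 * (10 / ε) ^ (2 * k) * QQ f := by
    have h6 : (2 * (n : ℝ) + 1) ^ 2 * M ^ 2 ≤ (2 * (n : ℝ) + 1) ^ 2 *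
        (8 * ((k + 1) ^ 2 * (10 / ε) ^ (2 * k) * QQ f) + 2 * ((2 / 7) ^ (2 * (k + 1)) * B ^ 2)) :=
      mul_le_mul_of_nonneg_left hM2 (sq_nonneg _)
    have h7 : (2 * (n : ℝ) + 1) ^ 2 * (2 * ((2 / 7) ^ (2 * (k + 1)) * B ^ 2)) =
        (4 * a * (2 * n + 1) ^ 2 * ((2 / 7) ^ (2 * (k + 1)) * Real.exp (32 * a * T))) * N2 f := by
      rw [hB2]; ring
    have h8 := mul_le_mul_of_nonneg_right h3 hN
    have h9 : (2 * (n : ℝ) + 1) ^ 2 * (8 * ((k + 1) ^ 2 * (10 / ε) ^ (2 * k) * QQ f) + 2 * ((2 / 7) ^ (2 * (k + 1)) * B ^ 2)) =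
        8 * (2 * n + 1) ^ 2 * (k + 1) ^ 2 * (10 / ε) ^ (2 * k) * QQ f + (2 * (n : ℝ) + 1) ^ 2 * (2 * ((2 / 7) ^ (2 * (k + 1)) * B ^ 2)) := by ring
    rw [h9, h7] at h6
    linarith
  have h6 : N2 f ≤ Real.exp (C2 * (T * Real.log T)) * QQ f := h5.trans (mul_le_mul_of_nonneg_right h4 hQ0)
  -- the exponent
  have h7 := num3 (n := n) hx10
  rw [← hT] at h7
  have h8 : x ≤ Real.exp ((C1 + Real.log (T0 + 1)) * a) := by
    have e1 : Real.exp ((C1 + Real.log (T0 + 1)) * a) = Real.exp (C1 * a) * Real.exp (Real.log (T0 + 1) * a) := by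
      rw [← Real.exp_add]; congr 1; ring
    have e2 : T0 + 1 ≤ Real.exp (Real.log (T0 + 1) * a) := by
      calc T0 + 1 = Real.exp (Real.log (T0 + 1)) := (Real.exp_log (by linarith)).symm
        _ ≤ _ := Real.exp_le_exp.2 (by nlinarith)
    have e3 : 1 ≤ Real.exp (C1 * a) := Real.one_le_exp (by positivity)
    rw [e1]
    nlinarith
  have h9 : C2 * (T * Real.log T) ≤ (8 * C2 + 2 * C1 + 2 * Real.log (T0 + 1)) * (n * Real.log (n + 3)) +
      Real.exp ((8 * C2 + 2 * C1 + 2 * Real.log (T0 + 1)) * a) := by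
    have hnl : 0 ≤ (n : ℝ) * Real.log (n + 3) := mul_nonneg hn0 (Real.log_nonneg (by linarith))
    have e1 : C2 * (T * Real.log T) ≤ C2 * (4 * x ^ 2) + 8 * C2 * (n * Real.log (n + 3)) := by
      have := mul_le_mul_of_nonneg_left h7 hC2pos.le
      linarith
    have e2 : 8 * C2 * (n * Real.log (n + 3)) ≤ (8 * C2 + 2 * C1 + 2 * Real.log (T0 + 1)) * (n * Real.log (n + 3)) :=
      mul_le_mul_of_nonneg_right (by linarith) hnl
    have e3 : x ^ 2 ≤ Real.exp (2 * (C1 + Real.log (T0 + 1)) * a) := by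
      have := pow_le_pow_left₀ (by linarith) h8 2
      refine this.trans (le_of_eq ?_)
      rw [← Real.exp_nat_mul]; congr 1; push_cast; ring
    have e4 : 4 * C2 ≤ Real.exp (4 * C2 * a) := by
      have h10 := Real.add_one_le_exp (4 * C2 * a)
      nlinarith [mul_le_mul_of_nonneg_left ha (by positivity : 0 ≤ 4 * C2)]
    have e5 : C2 * (4 * x ^ 2) ≤ Real.exp ((8 * C2 + 2 * C1 + 2 * Real.log (T0 + 1)) * a) := by
      calc C2 * (4 * x ^ 2) = (4 * C2) * x ^ 2 := by ring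
        _ ≤ Real.exp (4 * C2 * a) * Real.exp (2 * (C1 + Real.log (T0 + 1)) * a) := mul_le_mul e4 e3 (by positivity) (Real.exp_pos _).le
        _ = Real.exp (4 * C2 * a + 2 * (C1 + Real.log (T0 + 1)) * a) := (Real.exp_add _ _).symm
        _ ≤ _ := Real.exp_le_exp.2 (by nlinarith [mul_pos hC2pos ha0])
    linarith
  rw [Real.exp_neg, inv_mul_le_iff₀ (Real.exp_pos _)]
  exact h6.trans (mul_le_mul_of_nonneg_right (Real.exp_le_exp.2 h9) hQ0)

end Pool.Agent.N965.LE
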