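import Pool.Agent.N965.LE.Rh
import Pool.Agent.Y23.Co
import Pool.Agent.Y23.Dm

/-! # The full form on the Riemann hypothesis -/

set_option autoImplicit false
set_option linter.unusedSectionVars false
set_option maxHeartbeats 2000000

open Complex Filter Topology Set MeasureTheory
open scoped ComplexConjugate

namespace Pool.Agent.N965.LE

open Pool.Agent.Y23

lemma num4 {ε a T : ℝ} (ha : 1 ≤ a) (hT10 : 10 ≤ T) (hl : 40 * a ≤ ε * Real.log T) {k : ℕ}
    (hk1 : ε * (T * Real.log T) ≤ k + 1) :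
    4 * a * ((2 / 7) ^ (2 * (k + 1)) * Real.exp (32 * a * T)) ≤ Real.exp (-(40 * a * T)) := by
  have hT0 : 0 < T := by linarith
  have ha0 : 0 < a := by linarith
  have h1 : ((2 : ℝ) / 7) ^ (2 * (k + 1)) ≤ Real.exp (-(2 * ((k : ℝ) + 1))) := by
    have e1 : ((2 : ℝ) / 7) ^ (2 * (k + 1)) = (4 / 49) ^ (k + 1) := by
      rw [pow_mul]; norm_num
    have e2 : Real.exp (-(2 * ((k : ℝ) + 1))) = (Real.exp (-2)) ^ (k + 1) := by
      rw [← Real.exp_nat_mul]; congr 1; push_cast; ring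
    rw [e1, e2]
    refine pow_le_pow_left₀ (by norm_num) ?_ _
    rw [Real.exp_neg, ← one_div, div_le_div_iff₀ (by norm_num) (Real.exp_pos _)]
    have e3 : Real.exp 2 = Real.exp 1 * Real.exp 1 := by rw [← Real.exp_add]; norm_num
    have := Real.exp_one_lt_d9
    have := Real.exp_pos 1
    rw [e3]; nlinarith
  have h2 : 40 * a * T ≤ (k : ℝ) + 1 := by
    refine le_trans ?_ hk1
    calc 40 * a * T ≤ (ε * Real.log T) * T := mul_le_mul_of_nonneg_right hl hT0.le
      _ = _ := by ring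
  have h3 : ((2 : ℝ) / 7) ^ (2 * (k + 1)) * Real.exp (32 * a * T) ≤ Real.exp (-(48 * a * T)) := by
    calc _ ≤ Real.exp (-(2 * ((k : ℝ) + 1))) * Real.exp (32 * a * T) := mul_le_mul_of_nonneg_right h1 (Real.exp_pos _).le
      _ = Real.exp (-(2 * ((k : ℝ) + 1)) + 32 * a * T) := (Real.exp_add _ _).symm
      _ ≤ _ := Real.exp_le_exp.2 (by linarith)
  have h4 : 4 * a ≤ Real.exp (8 * a * T) := by
    have := Real.add_one_le_exp (8 * a * T)
    nlinarith [mul_pos ha0 hT0]
  calc _ ≤ Real.exp (8 * a * T) * Real.exp (-(48 * a * T)) := mul_le_mul h4 h3 (by positivity) (Real.exp_pos _).le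
    _ = _ := by rw [← Real.exp_add]; congr 1; ring

lemma num5 {ε T : ℝ} (hε : 0 < ε) (hε1 : ε ≤ 1) (hT10 : 10 ≤ T) {k : ℕ} (hk2 : (k : ℝ) ≤ ε * (T * Real.log T)) :
    8 * (k + 1) ^ 2 * (10 / ε) ^ (2 * k) ≤ Real.exp ((7 + 2 * Real.log (10 / ε)) * (T * Real.log T)) := by
  have h := num2 (n := 0) hε hε1 hT10 (by simp; linarith) hk2
  refine le_trans ?_ h
  simp only [Nat.cast_zero, mul_zero, zero_add, one_pow, mul_one]
  have : 0 ≤ ((k : ℝ) + 1) ^ 2 * (10 / ε) ^ (2 * k) := by positivity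
  nlinarith

/-- values of the transform at low height, through the values at the zeros -/
theorem core (hRH : ∀ ρ : Zt, (ρ : ℂ).re = 1 / 2) : ∃ C1 C2 T0 : ℝ, 0 < C1 ∧ 0 < C2 ∧ 10 ≤ T0 ∧
    ∀ (a T : ℝ) (f : ℝ → ℂ), 1 ≤ a → Hd a f → T0 ≤ T → C1 * a ≤ Real.log T → ∀ z : ℂ, ‖z‖ ≤ 2 * T →
      ‖TT f z‖ ^ 2 ≤ Real.exp (C2 * (T * Real.log T)) * QQ f + Real.exp (-(40 * a * T)) * N2 f := by
  classical
  have hRHs : SP.RHs := fun s h1 h2 h3 => hRH ⟨s, h3, h1, h2⟩
  obtain ⟨ε, T0, hε, hε1, hT0, hsep⟩ := sep_zeros hRHs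
  have hD1 : 1 ≤ 10 / ε := by rw [le_div_iff₀ hε]; linarith
  have hlD : 0 ≤ Real.log (10 / ε) := Real.log_nonneg hD1
  refine ⟨40 / ε, 7 + 2 * Real.log (10 / ε), T0, by positivity, by positivity, hT0, fun a T f ha hf hTT0 hlT z hz => ?_⟩
  have ha0 : 0 < a := by linarith
  have hT10 : 10 ≤ T := by linarith
  have hTpos : 0 < T := by linarith
  have hl : 40 * a ≤ ε * Real.log T := by
    have := mul_le_mul_of_nonneg_left hlT hε.le
    refine le_trans (le_of_eq ?_) this
    field_simp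
  have hlogpos : 0 < Real.log T := lt_of_lt_of_le (by positivity) hlT
  obtain ⟨Γ, hΓ1, hΓ2, hΓ3⟩ := hsep T hTT0
  have hbig : 40 ≤ ε * (T * Real.log T) := by
    have h1 : 40 * 1 ≤ ε * Real.log T := (mul_le_mul_of_nonneg_left ha (by norm_num)).trans hl
    nlinarith
  set K : ℕ := ⌈ε * (T * Real.log T)⌉₊ with hK
  have hKΓ : K ≤ Γ.card := Nat.ceil_le.2 hΓ1
  obtain ⟨Γ', hΓ'sub, hΓ'card⟩ := Finset.exists_subset_card_eq hKΓ
  have hK1 : ε * (T * Real.log T) ≤ K := Nat.le_ceil _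
  have hK2 : (K : ℝ) < ε * (T * Real.log T) + 1 := Nat.ceil_lt_add_one (by linarith)
  have hKpos : 2 ≤ K := by
    have : (2 : ℝ) ≤ K := by linarith
    exact_mod_cast this
  obtain ⟨k, hk⟩ : ∃ k, K = k + 1 := ⟨K - 1, by omega⟩
  have hk1 : 1 ≤ k := by omega
  have hkK : (K : ℝ) = k + 1 := by rw [hk]; push_cast; ring
  rw [hkK] at hK1 hK2
  have hkle : (k : ℝ) ≤ ε * (T * Real.log T) := by linarith
  have hQ0 : 0 ≤ QQ f := by rw [QQ_eq_SS hRH]; exact SS_nonneg f
  set μ : ℝ := Real.sqrt (QQ f) with hμ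
  have hμ0 : 0 ≤ μ := Real.sqrt_nonneg _
  have hμ2 : μ ^ 2 = QQ f := Real.sq_sqrt hQ0
  have hN := N2_nonneg f
  set B : ℝ := Real.sqrt (2 * a * Real.exp (32 * a * T) * N2 f) with hB
  have hB0 : 0 ≤ B := Real.sqrt_nonneg _
  have hB2 : B ^ 2 = 2 * a * Real.exp (32 * a * T) * N2 f := Real.sq_sqrt (by positivity)
  have key := small_on (F := TT f) (T := 2 * T) (s := 22 / Real.log T) (μ := μ) (B := B) (D := 10 / ε) (differentiable_TT hf.1)
    (by positivity) (by positivity) hμ0 Γ' (k := k) (by rw [hΓ'card, hk]) hk1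
    (fun γ hγ => by
      have := hΓ2 γ (hΓ'sub hγ)
      rw [abs_of_nonneg (by linarith)]; exact this.2.1)
    (fun u hu v hv hne => hΓ3 u (hΓ'sub hu) v (hΓ'sub hv) hne)
    (fun γ hγ => by
      apply Real.le_sqrt_of_sq_le
      exact val_le hRH ha0 hf (hΓ2 γ (hΓ'sub hγ)).2.2)
    (fun ζ hζ => by
      apply Real.le_sqrt_of_sq_le
      refine (norm_TT_le ha0 hf.1 ζ).trans ?_
      refine mul_le_mul_of_nonneg_right (mul_le_mul_of_nonneg_left (Real.exp_le_exp.2 ?_) (by positivity)) hN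
      have h1 := Complex.abs_re_le_norm ζ
      rw [hζ] at h1
      nlinarith)
    (by
      have h1 : 11 * ε * T ≤ 22 / Real.log T * k := by
        have h2 : ε * (T * Real.log T) / 2 ≤ k := by linarith
        calc 11 * ε * T = 22 / Real.log T * (ε * (T * Real.log T) / 2) := by field_simp; ring
          _ ≤ _ := mul_le_mul_of_nonneg_left h2 (by positivity)
      have h2 := mul_le_mul_of_nonneg_left h1 (by positivity : 0 ≤ 10 / ε)
      have h3 : 10 / ε * (11 * ε * T) = 110 * T := by field_simp; ring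
      rw [h3] at h2
      linarith) z hz
  have hsq := pow_le_pow_left₀ (norm_nonneg _) key 2
  have e1 : (2 * ((k + 1) * (10 / ε) ^ k * μ)) ^ 2 = 4 * ((k + 1) ^ 2 * (10 / ε) ^ (2 * k) * QQ f) := by
    rw [← hμ2, mul_comm 2 k, pow_mul]; ring
  have e2 : ((2 / 7 : ℝ) ^ (k + 1) * B) ^ 2 = (2 / 7) ^ (2 * (k + 1)) * B ^ 2 := by
    rw [mul_comm 2 (k + 1), pow_mul]; ring
  have h3 : (2 * ((k + 1) * (10 / ε) ^ k * μ) + (2 / 7) ^ (k + 1) * B) ^ 2 ≤
      2 * (2 * ((k + 1) * (10 / ε) ^ k * μ)) ^ 2 + 2 * ((2 / 7 : ℝ) ^ (k + 1) * B) ^ 2 := by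
    nlinarith [sq_nonneg (2 * ((k + 1) * (10 / ε) ^ k * μ) - (2 / 7 : ℝ) ^ (k + 1) * B)]
  rw [e1, e2, hB2] at h3
  have h4 := num4 (k := k) ha hT10 hl hK1
  have h5 := num5 (k := k) hε hε1 hT10 hkle
  have h6 := mul_le_mul_of_nonneg_right h4 hN
  have h7 := mul_le_mul_of_nonneg_right h5 hQ0
  linarith

/-- **the lower bound for the full form on the Riemann hypothesis** -/
theorem rh_full (hRH : ∀ ρ : Zt, (ρ : ℂ).re = 1 / 2) : ∃ C : ℝ, 0 < C ∧ ∀ (a : ℝ) (f : ℝ → ℂ), 1 ≤ a → Hd a f →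
    Real.exp (-Real.exp (Real.exp (C * a))) * LL f ≤ QQ f := by
  obtain ⟨C1, C2, T0, hC1, hC2, hT0, hcore⟩ := core hRH
  obtain ⟨Cc, hCc, hco⟩ := coercive
  refine ⟨4 * Cc + C2 + 3 + 2 * C1 + 2 * T0 + 3, by positivity, fun a f ha hf => ?_⟩
  have ha0 : 0 < a := by linarith
  set E : ℝ := Cc * ((1 + a) * Real.exp (2 * a)) with hE
  have hE0 : 0 < E := by positivity
  have hN := N2_nonneg f
  have hL0 := LL_nonneg f
  have hQ0 : 0 ≤ QQ f := by rw [QQ_eq_SS hRH]; exact SS_nonneg f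
  have hD : Dom f := ((Hd_iff ha0 f).1 hf).2
  have hLL : LL f ≤ 4 * Real.pi * QQ f + E * N2 f := (hco a ha0 f hf.1 hD).2
  set T : ℝ := Real.exp (2 * E + C1 * a + T0) with hT
  have hlT : Real.log T = 2 * E + C1 * a + T0 := Real.log_exp _
  have hT1 : 2 * E + C1 * a + T0 + 1 ≤ T := Real.add_one_le_exp _
  have hC1a : 0 < C1 * a := by positivity
  have hT10 : 10 ≤ T := by linarith
  have hTpos : 0 < T := by linarith
  set X : ℝ := Real.exp (C2 * (T * Real.log T)) with hX
  have hlT0 : 0 < Real.log T := by rw [hlT]; positivity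
  have hX1 : 1 ≤ X := Real.one_le_exp (by positivity)
  have hc := hcore a T f ha hf (by linarith) (by rw [hlT]; linarith)
  set S : ℝ := X * QQ f + Real.exp (-(40 * a * T)) * N2 f with hS
  have hS0 : 0 ≤ S := by positivity
  -- the splitting
  have h1 : 2 * Real.pi * N2 f ≤ 2 * T * S + LL f / Real.log T := by
    rw [← plancherel hf.1]
    have hi1 : Integrable (fun v : ℝ => (Icc (-T) T).indicator (fun _ => S) v) :=
      (integrable_indicator_iff measurableSet_Icc).2 (by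
        rw [integrableOn_const_iff]
        right
        rw [Real.volume_Icc]
        exact ENNReal.ofReal_lt_top)
    have hi2 : Integrable (fun v : ℝ => Lg v * ‖TT f (v * I)‖ ^ 2 / Real.log T) := hf.2.div_const _
    calc ∫ v : ℝ, ‖TT f (v * I)‖ ^ 2 ≤ ∫ v : ℝ, ((Icc (-T) T).indicator (fun _ => S) v + Lg v * ‖TT f (v * I)‖ ^ 2 / Real.log T) := by
          refine integral_mono (int_TT_sq hf.1) (hi1.add hi2) fun v => ?_
          simp only
          have hLv := one_le_Lg v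
          by_cases hv : v ∈ Icc (-T) T
          · rw [indicator_of_mem hv]
            have h3 := hc (v * I) (by
              rw [norm_mul, Complex.norm_I, mul_one, Complex.norm_real, Real.norm_eq_abs]
              have := abs_le.2 hv
              linarith)
            have h4 : 0 ≤ Lg v * ‖TT f (v * I)‖ ^ 2 / Real.log T := by positivity
            linarith
          · rw [indicator_of_notMem hv, zero_add]
            rw [mem_Icc, ← abs_le, not_le] at hv
            rw [le_div_iff₀ hlT0, mul_comm]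
            refine mul_le_mul_of_nonneg_right ?_ (sq_nonneg _)
            unfold Lg
            exact Real.log_le_log hTpos (by linarith)
      _ = 2 * T * S + LL f / Real.log T := by
          rw [integral_add hi1 hi2, integral_indicator measurableSet_Icc, setIntegral_const, integral_div]
          unfold LL
          congr 1
          rw [smul_eq_mul, Measure.real, Real.volume_Icc, ENNReal.toReal_ofReal (by linarith)]
          ring
  have hpi := Real.pi_gt_three
  have hpi2 := Real.pi_lt_d2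
  have h2 : LL f / Real.log T ≤ 4 * Real.pi * QQ f + N2 f / 2 := by
    rw [div_le_iff₀ hlT0]
    have e1 : 2 * E ≤ Real.log T := by rw [hlT]; linarith
    have e2 : 1 ≤ Real.log T := by rw [hlT]; linarith
    have e3 : 0 ≤ 4 * Real.pi * QQ f := by positivity
    nlinarith [mul_le_mul_of_nonneg_left e2 e3, mul_le_mul_of_nonneg_left e1 hN]
  have h3 : 2 * T * Real.exp (-(40 * a * T)) ≤ 1 / 2 := by
    rw [Real.exp_neg, ← div_eq_mul_inv, div_le_div_iff₀ (Real.exp_pos _) (by norm_num)]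
    have := Real.add_one_le_exp (40 * a * T)
    nlinarith [mul_pos ha0 hTpos]
  have h4 : N2 f ≤ (T * X + 3) * QQ f := by
    have e1 : 2 * T * S = 2 * T * X * QQ f + (2 * T * Real.exp (-(40 * a * T))) * N2 f := by rw [hS]; ring
    rw [e1] at h1
    have e2 := mul_le_mul_of_nonneg_right h3 hN
    have e3 : 0 ≤ T * X * QQ f := by positivity
    nlinarith
  have h5 : LL f ≤ T ^ 3 * X * QQ f := by
    have e1 : E ≤ T := by linarith
    have e2 : E * N2 f ≤ T * ((T * X + 3) * QQ f) := mul_le_mul e1 h4 hN hTpos.le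
    have e3 : (13 + T * (T * X + 3)) ≤ T ^ 3 * X := by
      have q1 : T ^ 2 * (T - 1) ≤ T ^ 2 * (T - 1) * X := le_mul_of_one_le_right (mul_nonneg (sq_nonneg T) (by linarith)) hX1
      have q2 : 13 + 3 * T ≤ T ^ 2 * (T - 1) := by nlinarith
      nlinarith
    have e4 : 4 * Real.pi * QQ f ≤ 13 * QQ f := mul_le_mul_of_nonneg_right (by linarith) hQ0
    nlinarith [mul_le_mul_of_nonneg_right e3 hQ0]
  have h6 : T ^ 3 * X ≤ Real.exp ((C2 + 3) * (T * Real.log T)) := by
    have e1 : T ^ 3 = Real.exp (3 * Real.log T) := by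
      rw [show 3 * Real.log T = ((3 : ℕ) : ℝ) * Real.log T by norm_num, Real.exp_nat_mul, Real.exp_log hTpos]
    rw [e1, hX, ← Real.exp_add]
    refine Real.exp_le_exp.2 ?_
    nlinarith [mul_le_mul_of_nonneg_right (by linarith : (1 : ℝ) ≤ T) hlT0.le]
  have h7 : (C2 + 3) * (T * Real.log T) ≤ Real.exp (Real.exp ((4 * Cc + C2 + 3 + 2 * C1 + 2 * T0 + 3) * a)) := by
    have e1 : Real.log T ≤ T := (Real.log_le_sub_one_of_pos hTpos).trans (by linarith)
    have e2 : (C2 + 3) * (T * Real.log T) ≤ (C2 + 3) * (T * T) :=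
      mul_le_mul_of_nonneg_left (mul_le_mul_of_nonneg_left e1 hTpos.le) (by linarith)
    have e3 : C2 + 3 ≤ Real.exp (C2 + 3) := by have := Real.add_one_le_exp (C2 + 3); linarith
    have e4 : T * T = Real.exp (2 * (2 * E + C1 * a + T0)) := by rw [hT, ← Real.exp_add]; congr 1; ring
    have e5 : (C2 + 3) * (T * T) ≤ Real.exp (C2 + 3 + 2 * (2 * E + C1 * a + T0)) := by
      rw [e4, Real.exp_add]
      exact mul_le_mul_of_nonneg_right e3 (Real.exp_pos _).le
    refine e2.trans (e5.trans (Real.exp_le_exp.2 ?_))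
    have e6 : 1 + a ≤ Real.exp a := by have := Real.add_one_le_exp a; linarith
    have e7 : E ≤ Cc * Real.exp (3 * a) := by
      rw [hE]
      refine mul_le_mul_of_nonneg_left ?_ hCc.le
      calc (1 + a) * Real.exp (2 * a) ≤ Real.exp a * Real.exp (2 * a) := mul_le_mul_of_nonneg_right e6 (Real.exp_pos _).le
        _ = _ := by rw [← Real.exp_add]; congr 1; ring
    have e8 : a ≤ Real.exp (3 * a) := by have := Real.add_one_le_exp (3 * a); linarith
    have e9 : 1 ≤ Real.exp (3 * a) := Real.one_le_exp (by positivity)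
    set C4 : ℝ := 4 * Cc + C2 + 3 + 2 * C1 + 2 * T0 with hC4
    have hC4pos : 0 < C4 := by positivity
    have e10 : C2 + 3 + 2 * (2 * E + C1 * a + T0) ≤ C4 * Real.exp (3 * a) := by
      rw [hC4]
      nlinarith [mul_le_mul_of_nonneg_left e8 hC1.le, mul_le_mul_of_nonneg_left e9 (by linarith : 0 ≤ C2 + 3 + 2 * T0)]
    have e11 : C4 ≤ Real.exp (C4 * a) := by
      have h8 := Real.add_one_le_exp (C4 * a)
      nlinarith [mul_le_mul_of_nonneg_left ha hC4pos.le]
    calc C2 + 3 + 2 * (2 * E + C1 * a + T0) ≤ C4 * Real.exp (3 * a) := e10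
      _ ≤ Real.exp (C4 * a) * Real.exp (3 * a) := mul_le_mul_of_nonneg_right e11 (Real.exp_pos _).le
      _ = Real.exp ((C4 + 3) * a) := by rw [← Real.exp_add]; congr 1; ring
  rw [Real.exp_neg, inv_mul_le_iff₀ (Real.exp_pos _)]
  exact h5.trans (mul_le_mul_of_nonneg_right (h6.trans (Real.exp_le_exp.2 h7)) hQ0)

end Pool.Agent.N965.LE
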