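import Pool.Agent.N965.LE.Si

/-! # The test function for one pair of zeros -/

set_option autoImplicit false
set_option linter.unusedSectionVars false
set_option maxHeartbeats 2000000

open Complex Filter Topology Set MeasureTheory Polynomial
open scoped ComplexConjugate

namespace Pool.Agent.N965.LE

open Pool.Agent.Y23 Pool.Agent.Y23.G

variable [D : ZD]

/-- the value at the zero -/
noncomputable def Av (a : ℝ) (m : ℕ) (P : ℂ[X]) (w : ℂ) : ℂ := sn a w * P.eval w / Qn a m w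

lemma Av_ge {a η c C ε : ℝ} {m : ℕ} {P : ℂ[X]} {w : ℂ} (ha : 0 < a) (hm : 4 * (m : ℝ) ≤ a) (hη : |w.re| = η) (hη0 : 0 < η)
    (hc : 0 < c) (hP : c ≤ ‖P.eval w‖) (hC1 : 1 ≤ C) (hCw : ‖w‖ + 1 ≤ C) (hCc : 2 / c ≤ C) (hCm : C ^ (2 * m + 1) ≤ Real.exp (ε * a))
    (h2 : 2 ≤ Real.exp (η * a)) : Real.exp ((η - 2 * ε) * a) ≤ ‖Av a m P w‖ := by
  have hre : w.re ≠ 0 := fun h => by rw [h, abs_zero] at hη; linarith
  have hQ0 : 0 < ‖Qn a m w‖ := norm_pos_iff.2 (Qn_ne hre)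
  have hQ1 : ‖Qn a m w‖ ≤ Real.exp (ε * a) :=
    (Qn_le ha hm w).trans ((pow_le_pow_left₀ (by positivity) hCw _).trans hCm)
  have hs : Real.exp (η * a) / 2 ≤ ‖sn a w‖ := by
    rcases sn_ge (a := a) w with h | h
    · rw [hη, mul_comm a η] at h
      linarith
    · linarith
  have hCe : C ≤ Real.exp (ε * a) := by
    refine le_trans ?_ hCm
    exact le_self_pow₀ hC1 (by omega)
  have hc2 : Real.exp (-(ε * a)) ≤ c / 2 := by
    have h1 : 2 / c ≤ Real.exp (ε * a) := hCc.trans hCe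
    rw [Real.exp_neg, inv_le_comm₀ (Real.exp_pos _) (by positivity), inv_div]
    exact h1
  unfold Av
  rw [norm_div, norm_mul, le_div_iff₀ hQ0]
  calc Real.exp ((η - 2 * ε) * a) * ‖Qn a m w‖ ≤ Real.exp ((η - 2 * ε) * a) * Real.exp (ε * a) :=
        mul_le_mul_of_nonneg_left hQ1 (Real.exp_pos _).le
    _ = Real.exp (η * a) * Real.exp (-(ε * a)) := by rw [← Real.exp_add, ← Real.exp_add]; congr 1; ring
    _ ≤ Real.exp (η * a) * (c / 2) := mul_le_mul_of_nonneg_left hc2 (Real.exp_pos _).le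
    _ = Real.exp (η * a) / 2 * c := by ring
    _ ≤ _ := mul_le_mul hs hP hc.le (norm_nonneg _)

/-- the key inequality for the distant zeros -/
lemma far_key {h a η C T z : ℝ} {m N : ℕ} (hη : 0 < η) (hC1 : 1 ≤ C) (hC : 8 / η ≤ C) (hT : 0 < T) (hz : T ≤ z) (hN : N + 4 ≤ 2 * m)
    (k6 : C * Real.exp (h * a) * (3 * T) ^ (N + 2) * 2 ^ (2 * m + 1) ≤ T ^ (2 * m)) :
    (2 * Real.exp (h * a)) * ((2 * z / η) * (3 * z) ^ N) * (2 * z ^ 2) ≤ (z / 2) ^ (2 * m + 1) := by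
  have hz0 : 0 < z := by linarith
  obtain ⟨r, hr1, hzr⟩ : ∃ r : ℝ, 1 ≤ r ∧ z = T * r := ⟨z / T, by rw [le_div_iff₀ hT]; linarith, by field_simp⟩
  have hr0 : 0 < r := by linarith
  rw [div_pow, le_div_iff₀ (by positivity)]
  have e1 : (2 * Real.exp (h * a)) * ((2 * z / η) * (3 * z) ^ N) * (2 * z ^ 2) * 2 ^ (2 * m + 1) =
      (8 / η * Real.exp (h * a) * 3 ^ N * 2 ^ (2 * m + 1)) * z ^ (N + 2) * z := by
    rw [mul_pow]; ring
  rw [e1]
  have e2 : z ^ (2 * m + 1) = z ^ (2 * m) * z := pow_succ _ _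
  rw [e2]
  refine mul_le_mul_of_nonneg_right ?_ hz0.le
  have e3 : z ^ (N + 2) = T ^ (N + 2) * r ^ (N + 2) := by rw [hzr, mul_pow]
  have e4 : z ^ (2 * m) = T ^ (2 * m) * r ^ (2 * m) := by rw [hzr, mul_pow]
  rw [e3, e4]
  have e5 : r ^ (N + 2) ≤ r ^ (2 * m) := pow_le_pow_right₀ hr1 (by omega)
  set E : ℝ := Real.exp (h * a) * 3 ^ N * 2 ^ (2 * m + 1) * T ^ (N + 2) with hE
  have hE0 : 0 < E := by positivity
  have e6 : 8 / η * Real.exp (h * a) * 3 ^ N * 2 ^ (2 * m + 1) * T ^ (N + 2) ≤ T ^ (2 * m) := by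
    refine le_trans ?_ k6
    have e7 : (3 * T) ^ (N + 2) = 3 ^ N * 9 * T ^ (N + 2) := by rw [mul_pow, pow_add]; norm_num
    have e10 : C * Real.exp (h * a) * (3 * T) ^ (N + 2) * 2 ^ (2 * m + 1) = 9 * (C * E) := by rw [e7, hE]; ring
    have e11 : 8 / η * Real.exp (h * a) * 3 ^ N * 2 ^ (2 * m + 1) * T ^ (N + 2) = 8 / η * E := by rw [hE]; ring
    rw [e10, e11]
    have e12 : 8 / η * E ≤ C * E := mul_le_mul_of_nonneg_right hC hE0.le
    have e13 : 0 ≤ C * E := by positivity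
    linarith
  calc 8 / η * Real.exp (h * a) * 3 ^ N * 2 ^ (2 * m + 1) * (T ^ (N + 2) * r ^ (N + 2)) =
      (8 / η * Real.exp (h * a) * 3 ^ N * 2 ^ (2 * m + 1) * T ^ (N + 2)) * r ^ (N + 2) := by ring
    _ ≤ T ^ (2 * m) * r ^ (2 * m) := mul_le_mul e6 e5 (by positivity) (by positivity)

/-- the distant zeros -/
lemma far_bound {h μ a η C T : ℝ} {m N : ℕ} {f : ℝ → ℂ} {P L : ℂ[X]} {z : ℂ} {n : ℝ} (ha : 0 < a) (hm : 4 * (m : ℝ) ≤ a)
    (hη : 0 < η) (hC1 : 1 ≤ C) (hC : 8 / η ≤ C) (hCn : n ≤ C) (hT : C ≤ T) (hT3 : 3 ≤ T) (hz : T < |z.im|) (hzh : |z.re| ≤ h + μ) (hN : N + 4 ≤ 2 * m)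
    (k6 : C * Real.exp (h * a) * (3 * T) ^ (N + 2) * 2 ^ (2 * m + 1) ≤ T ^ (2 * m))
    (hf : TT f z * Qn a m z = sn a z * (L.eval z * P.eval z)) (hL : ‖L.eval z‖ ≤ (‖z‖ + n) / η)
    (hP : ‖P.eval z‖ ≤ (‖z‖ + T + 2) ^ N) : ‖TT f z‖ ^ 2 ≤ Real.exp (2 * μ * a) * (1 / (1 + z.im ^ 2)) := by
  have hzn : T < ‖z‖ := lt_of_lt_of_le hz (Complex.abs_im_le_norm z)
  have hz0 : 0 < ‖z‖ := by linarith
  have b1 : ‖sn a z‖ ≤ Real.exp (μ * a) * (2 * Real.exp (h * a)) := by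
    refine (sn_le ha.le hzh).trans (le_of_eq ?_)
    rw [mul_left_comm, ← Real.exp_add]
    congr 2; ring
  have b2 : ‖L.eval z‖ ≤ 2 * ‖z‖ / η := hL.trans (div_le_div_of_nonneg_right (by linarith) hη.le)
  have b3 : ‖P.eval z‖ ≤ (3 * ‖z‖) ^ N := hP.trans (pow_le_pow_left₀ (by positivity) (by linarith) N)
  have b4 := Qn_ge ha hm (z := z) (by linarith)
  have b5 : 1 + z.im ^ 2 ≤ 2 * ‖z‖ ^ 2 := by
    have h1 := Complex.abs_im_le_norm z
    have h2 := pow_le_pow_left₀ (abs_nonneg _) h1 2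
    rw [sq_abs] at h2
    nlinarith
  have key := far_key (z := ‖z‖) (N := N) (m := m) hη hC1 hC (by linarith) hzn.le hN k6
  have hQp : 0 < (‖z‖ / 2) ^ (2 * m + 1) := by positivity
  set y : ℝ := Real.exp (-(μ * a)) * ‖TT f z‖ with hy
  have hy0 : 0 ≤ y := by positivity
  have hEE : Real.exp (-(μ * a)) * Real.exp (μ * a) = 1 := by rw [← Real.exp_add, neg_add_cancel, Real.exp_zero]
  have h2 : y * ‖Qn a m z‖ ≤ (2 * Real.exp (h * a)) * ((2 * ‖z‖ / η) * (3 * ‖z‖) ^ N) := by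
    rw [hy, mul_assoc, ← norm_mul, hf, norm_mul, norm_mul]
    have h3 : ‖sn a z‖ * (‖L.eval z‖ * ‖P.eval z‖) ≤ Real.exp (μ * a) * (2 * Real.exp (h * a)) * ((2 * ‖z‖ / η) * (3 * ‖z‖) ^ N) :=
      mul_le_mul b1 (mul_le_mul b2 b3 (norm_nonneg _) (by positivity)) (by positivity) (by positivity)
    calc Real.exp (-(μ * a)) * (‖sn a z‖ * (‖L.eval z‖ * ‖P.eval z‖)) ≤
        Real.exp (-(μ * a)) * (Real.exp (μ * a) * (2 * Real.exp (h * a)) * ((2 * ‖z‖ / η) * (3 * ‖z‖) ^ N)) :=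
          mul_le_mul_of_nonneg_left h3 (Real.exp_pos _).le
      _ = (Real.exp (-(μ * a)) * Real.exp (μ * a)) * ((2 * Real.exp (h * a)) * ((2 * ‖z‖ / η) * (3 * ‖z‖) ^ N)) := by ring
      _ = _ := by rw [hEE, one_mul]
  have h3 : y * (‖z‖ / 2) ^ (2 * m + 1) ≤ (2 * Real.exp (h * a)) * ((2 * ‖z‖ / η) * (3 * ‖z‖) ^ N) :=
    (mul_le_mul_of_nonneg_left b4 hy0).trans h2
  have h4 : y * (1 + z.im ^ 2) * (‖z‖ / 2) ^ (2 * m + 1) ≤ 1 * (‖z‖ / 2) ^ (2 * m + 1) := by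
    rw [mul_right_comm, one_mul]
    exact (mul_le_mul h3 b5 (by positivity) (by positivity)).trans key
  have h1 : y * (1 + z.im ^ 2) ≤ 1 := le_of_mul_le_mul_right h4 hQp
  have h5 : y ≤ 1 / (1 + z.im ^ 2) := by
    rw [le_div_iff₀ (by positivity)]; exact h1
  have h6 : 1 / (1 + z.im ^ 2) ≤ 1 := by
    rw [div_le_one (by positivity)]; nlinarith [sq_nonneg z.im]
  have h7 : 0 ≤ 1 / (1 + z.im ^ 2) := by positivity
  have h8 : y ^ 2 ≤ 1 / (1 + z.im ^ 2) := by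
    calc y ^ 2 ≤ (1 / (1 + z.im ^ 2)) ^ 2 := pow_le_pow_left₀ hy0 h5 2
      _ ≤ 1 * (1 / (1 + z.im ^ 2)) := by rw [sq]; exact mul_le_mul_of_nonneg_right h6 h7
      _ = _ := one_mul _
  have h9 : ‖TT f z‖ = Real.exp (μ * a) * y := by
    rw [hy, ← mul_assoc, ← Real.exp_add, add_neg_cancel, Real.exp_zero, one_mul]
  have h10 : Real.exp (2 * μ * a) = Real.exp (μ * a) ^ 2 := by
    rw [← Real.exp_nat_mul]; congr 1; push_cast; ring
  rw [h9, mul_pow, h10]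
  exact mul_le_mul_of_nonneg_left h8 (by positivity)

lemma aux1 {C T : ℝ} (hC : 1 ≤ C) (hT : 0 ≤ T) : 1 + T ^ 2 ≤ (C + 2 * T) ^ 2 := by nlinarith [mul_nonneg (by linarith : 0 ≤ C) hT]

lemma aux2 {x y : ℝ} (hx : |x| ≤ y) : (1 : ℝ) ≤ (1 + y ^ 2) * (1 / (1 + x ^ 2)) := by
  rw [mul_one_div, one_le_div (by positivity), ← sq_abs x]
  have := pow_le_pow_left₀ (abs_nonneg _) hx 2
  linarith

lemma aux3 {ε μ a : ℝ} (hμ : 0 ≤ μ) (ha : 0 ≤ a) : 8 * (ε / 8) * a ≤ (ε + 2 * μ) * a := by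
  have := mul_nonneg hμ ha
  nlinarith

lemma aux4 {ε μ a : ℝ} (hε : 0 ≤ ε) (ha : 0 ≤ a) : 2 * μ * a ≤ (ε + 2 * μ) * a := by
  have := mul_nonneg hε ha
  nlinarith

/-- the low zeros on the line -/
lemma near_bound {a ε' : ℝ} {C T : ℝ} {N : ℕ} {f : ℝ → ℂ} {z : ℂ} (ha : 0 < a) (hε : 0 < ε') (hC1 : 1 ≤ C) (hT : 0 ≤ T) (hf : Fa a f) (hz : |z.im| ≤ T) (hre : z.re = 0)
    (k4 : C * (C + 2 * T) ^ (N + 3) ≤ Real.exp (ε' * a)) (k8 : 2 * a ≤ Real.exp (ε' * a)) (hN : N2 f ≤ Real.exp (5 * ε' * a)) :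
    ‖TT f z‖ ^ 2 ≤ Real.exp (8 * ε' * a) * (1 / (1 + z.im ^ 2)) := by
  have h1 := norm_TT_le ha hf z
  rw [hre, abs_zero, mul_zero, Real.exp_zero, mul_one] at h1
  have h2 := aux2 hz
  have h3 : 1 + T ^ 2 ≤ Real.exp (ε' * a) := by
    refine le_trans ?_ k4
    calc 1 + T ^ 2 ≤ (C + 2 * T) ^ 2 := aux1 hC1 hT
      _ ≤ (C + 2 * T) ^ (N + 3) := pow_le_pow_right₀ (by linarith) (by omega)
      _ ≤ _ := le_mul_of_one_le_left (by positivity) hC1
  calc ‖TT f z‖ ^ 2 ≤ 2 * a * N2 f := h1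
    _ ≤ Real.exp (ε' * a) * Real.exp (5 * ε' * a) := mul_le_mul k8 hN (N2_nonneg f) (Real.exp_pos _).le
    _ ≤ (Real.exp (ε' * a) * Real.exp (5 * ε' * a)) * ((1 + T ^ 2) * (1 / (1 + z.im ^ 2))) :=
        le_mul_of_one_le_right (by positivity) h2
    _ = (Real.exp (ε' * a) * Real.exp (5 * ε' * a) * (1 + T ^ 2)) * (1 / (1 + z.im ^ 2)) := by ring
    _ ≤ Real.exp (8 * ε' * a) * (1 / (1 + z.im ^ 2)) := by
        refine mul_le_mul_of_nonneg_right ?_ (by positivity)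
        calc Real.exp (ε' * a) * Real.exp (5 * ε' * a) * (1 + T ^ 2) ≤ Real.exp (ε' * a) * Real.exp (5 * ε' * a) * Real.exp (ε' * a) :=
              mul_le_mul_of_nonneg_left h3 (by positivity)
          _ = Real.exp (7 * ε' * a) := by rw [← Real.exp_add, ← Real.exp_add]; congr 1; ring
          _ ≤ _ := Real.exp_le_exp.2 (by have := mul_pos hε ha; linarith)

/-- **the test function** -/
theorem single {κ h μ : ℝ} (hκ : 0 < κ) (hμ : 0 ≤ μ) (hκh : 5 * h < 4 * κ) (hh : ∀ σ : Zt, |(wz σ).re| ≤ h + μ) (ρ : Zt) (hρ : 0 < (wz ρ).re)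
    {ε : ℝ} (hε : 0 < ε) : ∀ᶠ a in atTop, ∃ f : ℝ → ℂ, Hn a (mm κ a) f ∧ N2 f ≤ Real.exp (ε * a) ∧
      |(ρ : ℂ).im| ≤ th a ∧
      (∀ σ ∈ Om (th a), σ ≠ ρ → σ ≠ rfZ ρ → TT f (wz σ) = 0) ∧
      (∃ Λ : ℝ, Real.exp (2 * ((wz ρ).re - ε) * a) ≤ Λ ∧ TT f (wz ρ) * conj (TT f (-conj (wz ρ))) = -(Λ : ℂ)) ∧
      (∀ σ : Zt, (wz σ).re = 0 ∨ th a < |(σ : ℂ).im| → ‖TT f (wz σ)‖ ^ 2 ≤ Real.exp ((ε + 2 * μ) * a) * (1 / (1 + (σ : ℂ).im ^ 2))) := by
  classical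
  obtain ⟨K0, hK0, hcard⟩ := card_zeros (D := D)
  obtain ⟨c1, hc1, hlow1⟩ := low ρ
  obtain ⟨c2, hc2, hlow2⟩ := low (rfZ ρ)
  set w := wz ρ with hw
  set η := w.re with hηd
  set K : ℝ := K0 * Lg 0 with hK
  have hKpos : 0 < K := mul_pos hK0 (Lg_pos 0)
  set c := min c1 c2 with hc
  have hc0 : 0 < c := lt_min hc1 hc2
  set C : ℝ := ‖w‖ + 3 + 2 / c + (1 + ‖w‖) / η + 8 / η with hC
  have hCpos1 : 0 ≤ ‖w‖ := norm_nonneg _
  have hCpos2 : 0 < 2 / c := by positivity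
  have hCpos3 : 0 < (1 + ‖w‖) / η := by positivity
  have hCpos4 : 0 < 8 / η := by positivity
  have hC1 : 1 ≤ C := by rw [hC]; linarith
  set ε' : ℝ := ε / 8 with hε'
  have hε'0 : 0 < ε' := by rw [hε']; linarith
  have hexp2 : ∀ᶠ a in atTop, 2 ≤ Real.exp (η * a) :=
    (Real.tendsto_exp_atTop.comp (tendsto_id.const_mul_atTop hρ)).eventually (eventually_ge_atTop 2)
  filter_upwards [asym hκ hκh hKpos hC1 hε'0, hexp2] with a ⟨ha1, hm1, hm4, hN, k3, k4, k5, k6, k7, k8⟩ k9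
  set m := mm κ a with hm
  set T := th a with hT
  set N := nn K a with hNd
  have ha : 0 < a := by linarith
  have hT0 : 0 ≤ T := by linarith
  have hT3 : 3 ≤ T := by linarith
  -- the number of zeros
  have hOm : (Om (D := D) T).card ≤ N := by
    rw [hNd]
    unfold nn
    refine Nat.le_floor ?_
    have h1 := hcard 0 T hT0 (Om T) (fun σ hσ => by rw [sub_zero]; exact (mem_Om.1 hσ).1)
    have h2 : T ^ 2 = a ^ (4 / 5 : ℝ) := by
      rw [hT]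
      unfold th
      rw [← Real.rpow_natCast, ← Real.rpow_mul ha.le]
      norm_num
    rwa [h2] at h1
  have hwT : |(ρ : ℂ).im| ≤ T := by
    have h1 := Complex.abs_im_le_norm w
    rw [hw, wz_im] at h1
    have : ‖w‖ ≤ T := by linarith
    exact h1.trans this
  set P := Pk ρ T with hP
  have hPdeg : P.natDegree ≤ N := (Pk_deg ρ T).trans hOm
  -- the reflected point
  set w' := wz (rfZ ρ) with hw'
  have hww : w' = -conj w := by rw [hw', hw, wz_rf]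
  have hw're : |w'.re| = η := by rw [hww, Complex.neg_re, Complex.conj_re, abs_neg, abs_of_pos hρ]
  have hwre : |w.re| = η := abs_of_pos hρ
  have hw'n : ‖w'‖ = ‖w‖ := by rw [hww, norm_neg, RCLike.norm_conj]
  have hPw : c ≤ ‖P.eval w‖ := by
    rw [hP, Pk_eval, norm_prod]
    refine (min_le_left _ _).trans (hlow1 _ ?_)
    intro h
    exact (Finset.mem_filter.1 h).2.1 rfl
  have hPw' : c ≤ ‖P.eval w'‖ := by
    rw [hP, Pk_eval, norm_prod]
    refine (min_le_right _ _).trans (hlow2 _ ?_)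
    intro h
    exact (Finset.mem_filter.1 h).2.2 rfl
  set A := Av a m P w with hA
  set A' := Av a m P w' with hA'
  have hAge : Real.exp ((η - 2 * ε') * a) ≤ ‖A‖ :=
    Av_ge ha hm4 hwre hρ hc0 hPw hC1 (by linarith) (by linarith) k5 k9
  have hA'ge : Real.exp ((η - 2 * ε') * a) ≤ ‖A'‖ :=
    Av_ge ha hm4 hw're hρ hc0 hPw' hC1 (by rw [hw'n]; linarith) (by linarith) k5 k9
  have hA0 : A ≠ 0 := norm_pos_iff.1 (lt_of_lt_of_le (Real.exp_pos _) hAge)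
  have hA'0 : A' ≠ 0 := norm_pos_iff.1 (lt_of_lt_of_le (Real.exp_pos _) hA'ge)
  set u : ℂ := -((‖A‖ * ‖A'‖ : ℝ) : ℂ) / (conj A * A') with hu
  have hcA0 : conj A ≠ 0 := fun h => hA0 (by simpa using congrArg conj h)
  have hcA'0 : conj A' ≠ 0 := fun h => hA'0 (by simpa using congrArg conj h)
  have hu1 : ‖u‖ = 1 := by
    rw [hu, norm_div, norm_neg, norm_mul, RCLike.norm_conj, Complex.norm_real, Real.norm_eq_abs, abs_of_nonneg (by positivity)]
    exact div_self (mul_pos (norm_pos_iff.2 hA0) (norm_pos_iff.2 hA'0)).ne'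
  set p : ℂ[X] := lin w u * P with hp
  have hpdeg : p.natDegree ≤ 2 * m := by
    refine (natDegree_mul_le).trans ?_
    have := lin_deg w u
    omega
  set M : ℝ := C * (C + 2 * T) ^ (N + 3) with hM
  have hM0 : 0 ≤ M := by positivity
  have hMk : ∀ k ∈ Finset.Icc (-(m : ℤ)) m, ‖p.eval (nd a k)‖ ≤ M := by
    intro k hk
    have hz := nd_norm_le ha hm4 hk
    rw [hp, eval_mul, norm_mul]
    have h1 := lin_le hρ hu1 (nd a k)
    have h2 := Pk_le ρ hT0 (nd a k) hOm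
    have h3 : (‖nd a k‖ + ‖w‖) / w.re ≤ C := by
      have : (‖nd a k‖ + ‖w‖) / w.re ≤ (1 + ‖w‖) / η := div_le_div_of_nonneg_right (by linarith) hρ.le
      linarith
    have h4 : (‖nd a k‖ + T + 2) ^ N ≤ (C + 2 * T) ^ (N + 3) := by
      calc (‖nd a k‖ + T + 2) ^ N ≤ (C + 2 * T) ^ N := pow_le_pow_left₀ (by positivity) (by linarith) N
        _ ≤ _ := pow_le_pow_right₀ (by linarith) (by omega)
    exact mul_le_mul (h1.trans h3) (h2.trans h4) (norm_nonneg _) (by linarith)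
  obtain ⟨f, hf, hft, hfN⟩ := exists_trig ha hm1 p hpdeg hMk
  have hft' : ∀ z, TT f z * Qn a m z = sn a z * ((lin w u).eval z * P.eval z) := by
    intro z
    have := hft z
    rw [hp, eval_mul] at this
    exact this
  -- the norm
  have hN2 : N2 f ≤ Real.exp (5 * ε' * a) := by
    refine hfN.trans ?_
    have e1 : (2 * (m : ℝ) + 1) * M * (a / m) ^ (2 * m) = ((2 * (m : ℝ) + 1) * (a / m) ^ (2 * m)) * M := by ring
    rw [e1]
    have h1 : ((2 * (m : ℝ) + 1) * (a / m) ^ (2 * m)) * M ≤ Real.exp (ε' * a) * Real.exp (ε' * a) :=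
      mul_le_mul k3 k4 hM0 (Real.exp_pos _).le
    have h2 : 0 ≤ ((2 * (m : ℝ) + 1) * (a / m) ^ (2 * m)) * M := by positivity
    calc 2 * a * (((2 * (m : ℝ) + 1) * (a / m) ^ (2 * m)) * M) ^ 2 ≤ Real.exp (ε' * a) * (Real.exp (ε' * a) * Real.exp (ε' * a)) ^ 2 :=
          mul_le_mul k8 (pow_le_pow_left₀ h2 h1 2) (by positivity) (Real.exp_pos _).le
      _ = _ := by
          rw [← Real.exp_add, ← Real.exp_nat_mul, ← Real.exp_add]
          congr 1; push_cast; ring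
  refine ⟨f, hf, hN2.trans (Real.exp_le_exp.2 (by rw [hε']; nlinarith)), hwT, fun σ hσ h1 h2 => ?_, ?_, fun σ hσ => ?_⟩
  · have h3 := hft' (wz σ)
    rw [hP, Pk_zero hσ h1 h2, mul_zero, mul_zero] at h3
    exact (mul_eq_zero.1 h3).resolve_right (Qn_ne (mem_Om.1 hσ).2)
  · have hre : w.re ≠ 0 := ne_of_gt hρ
    have hre' : w'.re ≠ 0 := by rw [hww, Complex.neg_re, Complex.conj_re]; exact neg_ne_zero.2 hre
    have v1 : TT f w = A := by
      have h3 := hft' w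
      rw [lin_one hre, one_mul] at h3
      rw [hA]
      unfold Av
      rw [eq_div_iff (Qn_ne hre), h3]
    have v2 : TT f w' = A' * u := by
      have h3 := hft' w'
      have h4 : (lin w u).eval w' = u := by rw [hww]; exact lin_two hre u
      rw [h4] at h3
      rw [hA']
      unfold Av
      rw [div_mul_eq_mul_div, eq_div_iff (Qn_ne hre'), h3]
      ring
    refine ⟨‖A‖ * ‖A'‖, ?_, ?_⟩
    · calc Real.exp (2 * (η - ε) * a) ≤ Real.exp ((η - 2 * ε') * a) * Real.exp ((η - 2 * ε') * a) := by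
            rw [← Real.exp_add]
            refine Real.exp_le_exp.2 ?_
            rw [hε']; nlinarith
        _ ≤ _ := mul_le_mul hAge hA'ge (Real.exp_pos _).le (norm_nonneg _)
    · rw [← hww, v1, v2, hu]
      have e1 : conj (A' * (-((‖A‖ * ‖A'‖ : ℝ) : ℂ) / (conj A * A'))) = -((‖A‖ * ‖A'‖ : ℝ) : ℂ) / A := by
        rw [map_mul, map_div₀, map_neg, Complex.conj_ofReal, map_mul, Complex.conj_conj]
        field_simp
      rw [e1]
      field_simp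
  · -- the other zeros
    have hzim : (wz σ).im = (σ : ℂ).im := wz_im σ
    rcases le_or_gt |(σ : ℂ).im| T with hle | hgt
    · have hre : (wz σ).re = 0 := hσ.resolve_right (not_lt.2 hle)
      have h1 := near_bound (z := wz σ) ha hε'0 hC1 hT0 hf.1 (by rw [hzim]; exact hle) hre k4 k8 hN2
      rw [hzim] at h1
      refine h1.trans (mul_le_mul_of_nonneg_right (Real.exp_le_exp.2 ?_) (by positivity))
      rw [hε']
      exact aux3 hμ ha.le
    · have h1 := far_bound (z := wz σ) (n := ‖w‖) ha hm4 hρ hC1 (by linarith) (by linarith) k7 hT3 (by rw [hzim]; exact hgt) (hh σ) hN k6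
        (hft' (wz σ)) (lin_le hρ hu1 (wz σ)) (Pk_le ρ hT0 (wz σ) hOm)
      rw [hzim] at h1
      refine h1.trans (mul_le_mul_of_nonneg_right (Real.exp_le_exp.2 ?_) (by positivity))
      exact aux4 hε.le ha.le

end Pool.Agent.N965.LE
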