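import Pool.Agent.N965.LE.La
import Pool.Agent.N965.LE.Lo
import Pool.Agent.N965.LE.As

/-! # A trigonometric polynomial which sees one pair of zeros -/

set_option autoImplicit false
set_option linter.unusedSectionVars false
set_option maxHeartbeats 2000000

open Complex Filter Topology Set MeasureTheory Polynomial
open scoped ComplexConjugate

namespace Pool.Agent.N965.LE

open Pool.Agent.Y23 Pool.Agent.Y23.G

variable [D : ZD]

/-- the zero, centred -/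
noncomputable def wz (ρ : Zt) : ℂ := (ρ : ℂ) - 1 / 2

lemma wz_im (ρ : Zt) : (wz ρ).im = (ρ : ℂ).im := by unfold wz; simp

lemma wz_rf (ρ : Zt) : wz (rfZ ρ) = -conj (wz ρ) := by unfold wz; rw [rfZ_sub]

lemma wz_inj : Function.Injective (wz (D := D)) := by
  intro ρ σ h
  unfold wz at h
  exact Subtype.ext (sub_left_injective h)

lemma wz_norm_le (ρ : Zt) : ‖wz ρ‖ ≤ 1 + |(ρ : ℂ).im| := by
  have h1 := Complex.norm_le_abs_re_add_abs_im (wz ρ)
  have h2 : |(wz ρ).re| ≤ 1 := half_re ρ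
  rw [wz_im] at h1
  linarith

lemma mu_pos (ρ : Zt) : (1 : ℝ) ≤ mu (ρ : ℂ) := by
  exact_mod_cast D.mpos _ ρ.2

lemma card_zeros : ∃ K : ℝ, 0 < K ∧ ∀ (t T : ℝ), 0 ≤ T → ∀ S : Finset Zt, (∀ σ ∈ S, |(σ : ℂ).im - t| ≤ T) →
    (S.card : ℝ) ≤ K * Lg t * (1 + T ^ 2) := by
  classical
  obtain ⟨K, hK, hz⟩ := zsum
  refine ⟨K, hK, fun t T hT S hS => ?_⟩
  have h1 := hz t (S.map (Function.Embedding.subtype _)) (by
    intro s hs
    rw [Finset.mem_map] at hs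
    obtain ⟨u, _, rfl⟩ := hs
    exact u.2)
  rw [Finset.sum_map] at h1
  have h2 : (S.card : ℝ) * (1 / (1 + T ^ 2)) ≤ ∑ σ ∈ S, (mu (σ : ℂ) : ℝ) * (1 / (1 + ((σ : ℂ).im - t) ^ 2)) := by
    rw [← nsmul_eq_mul, ← Finset.sum_const]
    refine Finset.sum_le_sum fun σ hσ => ?_
    have h3 : 1 / (1 + T ^ 2) ≤ 1 / (1 + ((σ : ℂ).im - t) ^ 2) := by
      apply one_div_le_one_div_of_le (by positivity)
      have := hS σ hσ
      rw [← sq_abs ((σ : ℂ).im - t)]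
      have := pow_le_pow_left₀ (abs_nonneg _) this 2
      linarith
    have h4 := mu_pos σ
    have h5 : 0 ≤ 1 / (1 + ((σ : ℂ).im - t) ^ 2) := by positivity
    nlinarith
  have h3 : (S.card : ℝ) * (1 / (1 + T ^ 2)) ≤ K * Lg t := h2.trans h1
  rw [mul_one_div, div_le_iff₀ (by positivity)] at h3
  exact h3

lemma fin_im (t T : ℝ) : {σ : Zt | |(σ : ℂ).im - t| ≤ T}.Finite := by
  obtain ⟨K, hK, h⟩ := card_zeros
  by_contra hinf
  obtain ⟨S, hS, hcard⟩ := (show {σ : Zt | |(σ : ℂ).im - t| ≤ T}.Infinite from hinf).exists_subset_card_eq (⌊K * Lg t * (1 + T ^ 2)⌋₊ + 1)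
  by_cases hT : 0 ≤ T
  · have h1 := h t T hT S (fun σ hσ => hS hσ)
    rw [hcard] at h1
    have h2 := Nat.lt_floor_add_one (K * Lg t * (1 + T ^ 2))
    push_cast at h1
    linarith
  · have h0 : S.Nonempty := by
      rw [← Finset.card_pos, hcard]; omega
    obtain ⟨σ, hσ⟩ := h0
    have h1 : |(σ : ℂ).im - t| ≤ T := hS hσ
    have := abs_nonneg ((σ : ℂ).im - t)
    linarith

/-- the zeros off the line, up to the height `T` -/
noncomputable def Om (T : ℝ) : Finset Zt :=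
  ((fin_im 0 T).subset (fun σ (h : σ ∈ {σ : Zt | |(σ : ℂ).im| ≤ T ∧ (wz σ).re ≠ 0}) => by
    simpa using h.1)).toFinset

lemma mem_Om {T : ℝ} {σ : Zt} : σ ∈ Om T ↔ |(σ : ℂ).im| ≤ T ∧ (wz σ).re ≠ 0 := by
  unfold Om
  rw [Set.Finite.mem_toFinset]
  rfl

lemma rf_mem_Om {T : ℝ} {σ : Zt} (h : σ ∈ Om T) : rfZ σ ∈ Om T := by
  rw [mem_Om] at h ⊢
  rw [← wz_im, wz_rf]
  simpa [wz_im] using h

/-- a lower bound for the product of the distances -/
lemma low (σ0 : Zt) : ∃ c : ℝ, 0 < c ∧ ∀ Ω : Finset Zt, σ0 ∉ Ω → c ≤ ∏ σ ∈ Ω, ‖wz σ0 - wz σ‖ := by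
  classical
  set V : Finset Zt := (fin_im (σ0 : ℂ).im 1).toFinset.erase σ0 with hV
  have hpos : ∀ σ : Zt, σ ≠ σ0 → 0 < ‖wz σ0 - wz σ‖ := fun σ h =>
    norm_pos_iff.2 (sub_ne_zero.2 fun h1 => h (wz_inj h1).symm)
  refine ⟨∏ σ ∈ V, min 1 ‖wz σ0 - wz σ‖, Finset.prod_pos fun σ hσ => lt_min one_pos (hpos σ (Finset.ne_of_mem_erase hσ)), fun Ω hΩ => ?_⟩
  have hle : ∀ S : Finset Zt, (∀ σ ∈ S, σ ≠ σ0) → ∀ S' ⊆ S, ∏ σ ∈ S, min 1 ‖wz σ0 - wz σ‖ ≤ ∏ σ ∈ S', min 1 ‖wz σ0 - wz σ‖ := by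
    intro S hS S' h
    rw [← Finset.prod_sdiff h]
    refine mul_le_of_le_one_left (Finset.prod_nonneg fun σ _ => le_min zero_le_one (norm_nonneg _)) ?_
    exact Finset.prod_le_one (fun σ _ => le_min zero_le_one (norm_nonneg _)) fun σ _ => min_le_left _ _
  calc ∏ σ ∈ V, min 1 ‖wz σ0 - wz σ‖ ≤ ∏ σ ∈ Ω.filter (fun σ => σ ∈ V), min 1 ‖wz σ0 - wz σ‖ :=
        hle V (fun σ hσ => Finset.ne_of_mem_erase hσ) _ (fun σ hσ => (Finset.mem_filter.1 hσ).2)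
    _ ≤ ∏ σ ∈ Ω.filter (fun σ => σ ∈ V), ‖wz σ0 - wz σ‖ :=
        Finset.prod_le_prod (fun σ _ => le_min zero_le_one (norm_nonneg _)) fun σ _ => min_le_right _ _
    _ ≤ (∏ σ ∈ Ω.filter (fun σ => σ ∈ V), ‖wz σ0 - wz σ‖) * ∏ σ ∈ Ω.filter (fun σ => ¬ σ ∈ V), ‖wz σ0 - wz σ‖ := by
        refine le_mul_of_one_le_right (Finset.prod_nonneg fun σ _ => norm_nonneg _) ?_
        have h1 : ∀ σ ∈ Ω.filter (fun σ => ¬ σ ∈ V), 1 ≤ ‖wz σ0 - wz σ‖ := by
          intro σ hσ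
          rw [Finset.mem_filter, hV, Finset.mem_erase, Set.Finite.mem_toFinset, mem_setOf_eq, not_and_or, not_le] at hσ
          rcases hσ.2 with h | h
          · exfalso
            rw [not_not] at h
            exact hΩ (h ▸ hσ.1)
          · have h2 := Complex.abs_im_le_norm (wz σ0 - wz σ)
            rw [Complex.sub_im, wz_im, wz_im, abs_sub_comm] at h2
            linarith
        calc (1 : ℝ) = ∏ σ ∈ Ω.filter (fun σ => ¬ σ ∈ V), (1 : ℝ) := by simp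
          _ ≤ _ := Finset.prod_le_prod (fun _ _ => zero_le_one) h1
    _ = _ := Finset.prod_filter_mul_prod_filter_not _ _ _

/-- the polynomial which kills the other zeros -/
noncomputable def Pk (ρ : Zt) (T : ℝ) : ℂ[X] :=
  ∏ σ ∈ (((Om T).filter fun σ => σ ≠ ρ ∧ σ ≠ rfZ ρ)), (X - C (wz σ))

lemma Pk_eval (ρ : Zt) (T : ℝ) (z : ℂ) : (Pk ρ T).eval z = ∏ σ ∈ (Om T).filter (fun σ => σ ≠ ρ ∧ σ ≠ rfZ ρ), (z - wz σ) := by
  unfold Pk
  rw [eval_prod]
  simp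

lemma Pk_zero {ρ : Zt} {T : ℝ} {σ : Zt} (h : σ ∈ Om T) (h1 : σ ≠ ρ) (h2 : σ ≠ rfZ ρ) : (Pk ρ T).eval (wz σ) = 0 := by
  rw [Pk_eval]
  exact Finset.prod_eq_zero (Finset.mem_filter.2 ⟨h, h1, h2⟩) (sub_self _)

lemma Pk_deg (ρ : Zt) (T : ℝ) : (Pk ρ T).natDegree ≤ (Om T).card := by
  unfold Pk
  refine (natDegree_prod_le _ _).trans ?_
  refine (Finset.sum_le_card_nsmul _ _ 1 fun σ _ => natDegree_X_sub_C_le _).trans ?_
  rw [smul_eq_mul, mul_one]
  exact Finset.card_filter_le _ _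

lemma Pk_le (ρ : Zt) {T : ℝ} (hT : 0 ≤ T) (z : ℂ) {N : ℕ} (hN : (Om T).card ≤ N) : ‖(Pk ρ T).eval z‖ ≤ (‖z‖ + T + 2) ^ N := by
  rw [Pk_eval, norm_prod]
  have hb : 1 ≤ ‖z‖ + T + 2 := by have := norm_nonneg z; linarith
  calc ∏ σ ∈ (Om T).filter (fun σ => σ ≠ ρ ∧ σ ≠ rfZ ρ), ‖z - wz σ‖ ≤
      ∏ σ ∈ (Om T).filter (fun σ => σ ≠ ρ ∧ σ ≠ rfZ ρ), (‖z‖ + T + 2) := by
        refine Finset.prod_le_prod (fun σ _ => norm_nonneg _) fun σ hσ => ?_
        have h1 := (mem_Om.1 (Finset.mem_filter.1 hσ).1).1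
        have h2 := wz_norm_le σ
        have h3 := norm_sub_le z (wz σ)
        linarith
    _ = (‖z‖ + T + 2) ^ ((Om T).filter (fun σ => σ ≠ ρ ∧ σ ≠ rfZ ρ)).card := Finset.prod_const _
    _ ≤ _ := pow_le_pow_right₀ hb ((Finset.card_filter_le _ _).trans hN)

/-- the product over the nodes -/
noncomputable def Qn (a : ℝ) (m : ℕ) (z : ℂ) : ℂ := ∏ k ∈ Finset.Icc (-(m : ℤ)) m, (z - nd a k)

lemma Qn_ne {a : ℝ} {m : ℕ} {z : ℂ} (hz : z.re ≠ 0) : Qn a m z ≠ 0 := by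
  unfold Qn
  rw [Finset.prod_ne_zero_iff]
  intro k _ h
  rw [sub_eq_zero] at h
  rw [h, nd_re] at hz
  exact hz rfl

lemma nd_norm_le {a : ℝ} (ha : 0 < a) {m : ℕ} (hm : 4 * (m : ℝ) ≤ a) {k : ℤ} (hk : k ∈ Finset.Icc (-(m : ℤ)) m) : ‖nd a k‖ ≤ 1 := by
  unfold nd
  rw [norm_mul, Complex.norm_I, mul_one, Complex.norm_real, Real.norm_eq_abs, abs_div, abs_mul, abs_of_pos ha,
    abs_of_pos Real.pi_pos, div_le_one ha]
  rw [Finset.mem_Icc] at hk
  have h6 : |(k : ℝ)| ≤ m := by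
    rw [abs_le]
    constructor
    · exact_mod_cast hk.1
    · exact_mod_cast hk.2
  have := Real.pi_lt_four
  have h7 : (0 : ℝ) ≤ m := Nat.cast_nonneg m
  nlinarith [abs_nonneg (k : ℝ), Real.pi_pos]

lemma card_nodes (m : ℕ) : (Finset.Icc (-(m : ℤ)) m).card = 2 * m + 1 := by
  rw [Int.card_Icc]; omega

lemma Qn_le {a : ℝ} (ha : 0 < a) {m : ℕ} (hm : 4 * (m : ℝ) ≤ a) (z : ℂ) : ‖Qn a m z‖ ≤ (‖z‖ + 1) ^ (2 * m + 1) := by
  unfold Qn
  rw [norm_prod, ← card_nodes m, ← Finset.prod_const]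
  refine Finset.prod_le_prod (fun _ _ => norm_nonneg _) fun k hk => ?_
  have := norm_sub_le z (nd a k)
  have := nd_norm_le ha hm hk
  linarith

lemma Qn_ge {a : ℝ} (ha : 0 < a) {m : ℕ} (hm : 4 * (m : ℝ) ≤ a) {z : ℂ} (hz : 2 ≤ ‖z‖) : (‖z‖ / 2) ^ (2 * m + 1) ≤ ‖Qn a m z‖ := by
  unfold Qn
  rw [norm_prod, ← card_nodes m, ← Finset.prod_const]
  refine Finset.prod_le_prod (fun _ _ => by positivity) fun k hk => ?_
  have := norm_sub_norm_le z (nd a k)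
  have := nd_norm_le ha hm hk
  linarith

/-- the linear factor -/
noncomputable def lin (w u : ℂ) : ℂ[X] := C (1 / (2 * w.re : ℂ)) * ((X + C (conj w)) - C u * (X - C w))

lemma lin_deg (w u : ℂ) : (lin w u).natDegree ≤ 1 := by
  unfold lin
  refine (natDegree_C_mul_le _ _).trans ?_
  refine (natDegree_sub_le _ _).trans (max_le ?_ ?_)
  · exact (natDegree_add_le _ _).trans (by simp)
  · refine (natDegree_C_mul_le _ _).trans (natDegree_X_sub_C_le _)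

lemma add_conj' (w : ℂ) : w + conj w = 2 * (w.re : ℂ) := by
  rw [Complex.add_conj]; push_cast; ring

lemma lin_one {w : ℂ} (hw : w.re ≠ 0) (u : ℂ) : (lin w u).eval w = 1 := by
  unfold lin
  have h : (2 * (w.re : ℂ)) ≠ 0 := by
    have : ((w.re : ℝ) : ℂ) ≠ 0 := by exact_mod_cast hw
    exact mul_ne_zero two_ne_zero this
  simp only [eval_mul, eval_C, eval_sub, eval_add, eval_X, sub_self, mul_zero, sub_zero, add_conj']
  rw [one_div, inv_mul_cancel₀ h]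

lemma lin_two {w : ℂ} (hw : w.re ≠ 0) (u : ℂ) : (lin w u).eval (-conj w) = u := by
  unfold lin
  have h : (2 * (w.re : ℂ)) ≠ 0 := by
    have : ((w.re : ℝ) : ℂ) ≠ 0 := by exact_mod_cast hw
    exact mul_ne_zero two_ne_zero this
  simp only [eval_mul, eval_C, eval_sub, eval_add, eval_X]
  have e : -conj w + conj w - u * (-conj w - w) = u * (w + conj w) := by ring
  rw [e, add_conj', one_div, mul_left_comm, inv_mul_cancel₀ h, mul_one]

lemma lin_le {w u : ℂ} (hw : 0 < w.re) (hu : ‖u‖ = 1) (z : ℂ) : ‖(lin w u).eval z‖ ≤ (‖z‖ + ‖w‖) / w.re := by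
  unfold lin
  simp only [eval_mul, eval_C, eval_sub, eval_add, eval_X]
  rw [norm_mul, norm_div, norm_one]
  have h : ‖(2 * (w.re : ℂ))‖ = 2 * w.re := by
    rw [norm_mul, Complex.norm_real, Real.norm_eq_abs, abs_of_pos hw]; simp
  rw [h]
  have h1 : ‖z + conj w - u * (z - w)‖ ≤ 2 * (‖z‖ + ‖w‖) := by
    refine (norm_sub_le _ _).trans ?_
    rw [norm_mul, hu, one_mul]
    have h2 := norm_add_le z (conj w)
    have h3 := norm_sub_le z w
    rw [RCLike.norm_conj] at h2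
    linarith
  calc 1 / (2 * w.re) * ‖z + conj w - u * (z - w)‖ ≤ 1 / (2 * w.re) * (2 * (‖z‖ + ‖w‖)) :=
        mul_le_mul_of_nonneg_left h1 (by positivity)
    _ = _ := by field_simp

/-- the difference of exponentials -/
noncomputable def sn (a : ℝ) (z : ℂ) : ℂ := cexp (a * z) - cexp (-(a * z))

lemma sn_ge {a : ℝ} (z : ℂ) : Real.exp (a * |z.re|) - 1 ≤ ‖sn a z‖ ∨ a < 0 := by
  by_cases ha : a < 0
  · exact Or.inr ha
  · left
    push Not at ha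
    unfold sn
    have e1 : ((a : ℂ) * z).re = a * z.re := by simp
    rcases le_total 0 z.re with h | h
    · have h1 := norm_sub_norm_le (cexp (a * z)) (cexp (-(a * z)))
      rw [Complex.norm_exp, Complex.norm_exp, Complex.neg_re, e1] at h1
      rw [abs_of_nonneg h]
      have h2 : Real.exp (-(a * z.re)) ≤ 1 := by
        rw [Real.exp_le_one_iff]; have := mul_nonneg ha h; linarith
      linarith
    · have h1 := norm_sub_norm_le (cexp (-(a * z))) (cexp (a * z))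
      rw [Complex.norm_exp, Complex.norm_exp, Complex.neg_re, e1, norm_sub_rev] at h1
      rw [abs_of_nonpos h]
      have h2 : Real.exp (a * z.re) ≤ 1 := by
        rw [Real.exp_le_one_iff]; exact mul_nonpos_of_nonneg_of_nonpos ha h
      have e2 : a * -z.re = -(a * z.re) := by ring
      rw [e2]
      linarith

lemma sn_le {a h : ℝ} (ha : 0 ≤ a) {z : ℂ} (hz : |z.re| ≤ h) : ‖sn a z‖ ≤ 2 * Real.exp (h * a) := by
  unfold sn
  have e1 : ((a : ℂ) * z).re = a * z.re := by simp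
  refine (norm_sub_le _ _).trans ?_
  rw [Complex.norm_exp, Complex.norm_exp, Complex.neg_re, e1]
  rw [abs_le] at hz
  have h1 : Real.exp (a * z.re) ≤ Real.exp (h * a) := Real.exp_le_exp.2 (by nlinarith [hz.2])
  have h2 : Real.exp (-(a * z.re)) ≤ Real.exp (h * a) := Real.exp_le_exp.2 (by nlinarith [hz.1])
  linarith

end Pool.Agent.N965.LE
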