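import Pool.Agent.N965.LE.Sg

/-! # The negative directions given by the zeros to the right -/

set_option autoImplicit false
set_option linter.unusedSectionVars false
set_option maxHeartbeats 2000000

open Complex Filter Topology Set MeasureTheory
open scoped ComplexConjugate

namespace Pool.Agent.N965.LE

open Pool.Agent.Y23 Pool.Agent.Y23.G

lemma norm_sum_sq {ι : Type*} (s : Finset ι) (x y : ι → ℂ) :
    ‖∑ i ∈ s, x i * y i‖ ^ 2 ≤ (∑ i ∈ s, ‖x i‖ ^ 2) * ∑ i ∈ s, ‖y i‖ ^ 2 := by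
  have h1 : ‖∑ i ∈ s, x i * y i‖ ≤ ∑ i ∈ s, ‖x i‖ * ‖y i‖ := by
    refine (norm_sum_le _ _).trans (le_of_eq (Finset.sum_congr rfl fun i _ => norm_mul _ _))
  exact (pow_le_pow_left₀ (norm_nonneg _) h1 2).trans (Finset.sum_mul_sq_le_sq_mul_sq _ _ _)

lemma N2_sum_le {ι : Type*} (s : Finset ι) {a : ℝ} {f : ι → ℝ → ℂ} (hf : ∀ i ∈ s, Fa a (f i)) (x : ι → ℂ) :
    N2 (fun t => ∑ i ∈ s, x i * f i t) ≤ (∑ i ∈ s, ‖x i‖ ^ 2) * ∑ i ∈ s, N2 (f i) := by
  have hi : ∀ i ∈ s, Integrable (fun t => ‖f i t‖ ^ 2) := fun i hi => (hf i hi).1.norm.integrable_sq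
  unfold N2
  rw [← integral_finsetSum _ hi, ← integral_const_mul]
  refine integral_mono_of_nonneg (Eventually.of_forall fun t => by positivity)
    ((integrable_finsetSum _ hi).const_mul _) (Eventually.of_forall fun t => ?_)
  exact norm_sum_sq s x fun i => f i t

variable [D : ZD]

lemma TT_comb {ι : Type*} (s : Finset ι) {a : ℝ} {f : ι → ℝ → ℂ} (hf : ∀ i ∈ s, Fa a (f i)) (x : ι → ℂ) (w : ℂ) :
    TT (fun t => ∑ i ∈ s, x i * f i t) w = ∑ i ∈ s, x i * TT (f i) w := by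
  rw [TT_sum s (fun i hi => (hf i hi).smul (x i))]
  exact Finset.sum_congr rfl fun i _ => TT_smul _ _ _

/-- the bound for the form, from the values at the zeros -/
lemma QQ_upper {E B K : ℝ} (hK : ∀ S : Finset Zt, ∑ σ ∈ S, (mu (σ : ℂ) : ℝ) * (1 / (1 + (σ : ℂ).im ^ 2)) ≤ K) (hB : 0 ≤ B)
    {F : ℝ → ℂ} (hF : Dom F) (S : Finset Zt) (u : Zt → ℝ) (hu : ∀ σ, 0 ≤ u σ) (hE : 0 ≤ E)
    (h1 : ∀ σ ∈ S, (GG F F (wz σ)).re ≤ -(E * u σ))
    (h2 : ∀ σ, (GG F F (wz σ)).re ≤ B * (1 / (1 + (σ : ℂ).im ^ 2))) :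
    QQ F ≤ -(E * ∑ σ ∈ S, u σ) + B * K := by
  classical
  have hs := sGG hF
  have hsum : Summable (fun σ : Zt => (mu (σ : ℂ) : ℝ) * (1 / (1 + (σ : ℂ).im ^ 2))) :=
    summable_of_sum_le (fun σ => by positivity) hK
  have hle : ∑' σ : Zt, (mu (σ : ℂ) : ℝ) * (1 / (1 + (σ : ℂ).im ^ 2)) ≤ K := Real.tsum_le_of_sum_le (fun σ => by positivity) hK
  have hind : Summable (fun σ : Zt => if σ ∈ S then -(E * u σ) else 0) :=
    summable_of_ne_finset_zero (s := S) fun σ hσ => if_neg hσ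
  have hindv : ∑' σ : Zt, (if σ ∈ S then -(E * u σ) else 0) = -(E * ∑ σ ∈ S, u σ) := by
    rw [tsum_eq_sum (s := S) fun σ hσ => if_neg hσ, Finset.mul_sum, ← Finset.sum_neg_distrib]
    exact Finset.sum_congr rfl fun σ hσ => if_pos hσ
  calc QQ F ≤ ∑' σ : Zt, ((if σ ∈ S then -(E * u σ) else 0) + B * ((mu (σ : ℂ) : ℝ) * (1 / (1 + (σ : ℂ).im ^ 2)))) := by
        unfold QQ
        refine hs.tsum_le_tsum (fun σ => ?_) (hind.add (hsum.mul_left B))
        have hm := mu_pos σ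
        have h3 : 0 ≤ B * ((mu (σ : ℂ) : ℝ) * (1 / (1 + (σ : ℂ).im ^ 2))) := by positivity
        by_cases hσ : σ ∈ S
        · rw [if_pos hσ]
          have h4 := h1 σ hσ
          have h5 : 0 ≤ E * u σ := mul_nonneg hE (hu σ)
          have h6 : (GG F F (wz σ)).re ≤ 0 := by linarith
          have h7 : (mu (σ : ℂ) : ℝ) * (GG F F (wz σ)).re ≤ (GG F F (wz σ)).re := by nlinarith
          have e : (GG F F ((σ : ℂ) - 1 / 2)).re = (GG F F (wz σ)).re := rfl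
          rw [e]
          linarith
        · rw [if_neg hσ, zero_add]
          have h4 := mul_le_mul_of_nonneg_left (h2 σ) (by linarith : (0 : ℝ) ≤ mu (σ : ℂ))
          have e : (GG F F ((σ : ℂ) - 1 / 2)).re = (GG F F (wz σ)).re := rfl
          rw [e]
          linarith
    _ = -(E * ∑ σ ∈ S, u σ) + B * ∑' σ : Zt, (mu (σ : ℂ) : ℝ) * (1 / (1 + (σ : ℂ).im ^ 2)) := by
        rw [hind.tsum_add (hsum.mul_left B), hindv, tsum_mul_left]
    _ ≤ _ := by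
        have := mul_le_mul_of_nonneg_left hle hB
        linarith

lemma re_GG_le (f : ℝ → ℂ) (w : ℂ) : (GG f f w).re ≤ 1 / 2 * (‖TT f w‖ ^ 2 + ‖TT f (-conj w)‖ ^ 2) :=
  (Complex.re_le_norm _).trans (nGG f f w)

omit [D : ZD] in
lemma GG_cj (f g : ℝ → ℂ) (w : ℂ) : GG g f (-conj w) = conj (GG f g w) := by
  unfold GG
  have : -conj (-conj w) = w := by simp
  rw [this, map_mul, Complex.conj_conj, mul_comm]

/-- **the negative directions** -/
theorem multi {κ h : ℝ} (hκ : 0 < κ) (hh : ∀ σ : Zt, |(wz σ).re| ≤ h) (S : Finset Zt) {η : ℝ} (hη : 0 ≤ η) (hκh : 5 * (h - η) < 4 * κ)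
    (hS : ∀ ρ ∈ S, η < (wz ρ).re) : ∃ δ : ℝ, 0 < δ ∧ ∀ᶠ a in atTop, ∃ f : Zt → ℝ → ℂ, (∀ ρ ∈ S, Hn a (mm κ a) (f ρ)) ∧
      ∀ x : Zt → ℂ, (∃ ρ ∈ S, x ρ ≠ 0) → 0 < N2 (fun t => ∑ ρ ∈ S, x ρ * f ρ t) ∧
        QQ (fun t => ∑ ρ ∈ S, x ρ * f ρ t) ≤ -(Real.exp (2 * (η + δ) * a) * N2 (fun t => ∑ ρ ∈ S, x ρ * f ρ t)) := by
  classical
  -- the gap
  obtain ⟨ε, hε, hgap⟩ : ∃ ε : ℝ, 0 < ε ∧ ∀ ρ ∈ S, η + 5 * ε ≤ (wz ρ).re := by
    rcases S.eq_empty_or_nonempty with h0 | h0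
    · exact ⟨1, one_pos, fun ρ hρ => by simp [h0] at hρ⟩
    · obtain ⟨ρ0, hρ0, hmin⟩ := S.exists_min_image (fun ρ => (wz ρ).re) h0
      have := hS ρ0 hρ0
      exact ⟨((wz ρ0).re - η) / 5, by linarith, fun ρ hρ => by have := hmin ρ hρ; linarith⟩
  obtain ⟨K0, hK0, hz⟩ := zsum (D := D)
  set K : ℝ := K0 * Lg 0 with hK
  have hKpos : 0 < K := mul_pos hK0 (lt_of_lt_of_le one_pos (one_le_Lg 0))
  have hKs : ∀ S : Finset Zt, ∑ σ ∈ S, (mu (σ : ℂ) : ℝ) * (1 / (1 + (σ : ℂ).im ^ 2)) ≤ K := by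
    intro S
    have h1 := hz 0 (S.map (Function.Embedding.subtype _)) (by
      intro s hs
      rw [Finset.mem_map] at hs
      obtain ⟨u, _, rfl⟩ := hs
      exact u.2)
    rw [Finset.sum_map] at h1
    simpa using h1
  have hsing : ∀ᶠ a in atTop, ∀ ρ ∈ S, ∃ f : ℝ → ℂ, Hn a (mm κ a) f ∧ N2 f ≤ Real.exp (ε * a) ∧
      |(ρ : ℂ).im| ≤ th a ∧
      (∀ σ ∈ Om (th a), σ ≠ ρ → σ ≠ rfZ ρ → TT f (wz σ) = 0) ∧
      (∃ Λ : ℝ, Real.exp (2 * ((wz ρ).re - ε) * a) ≤ Λ ∧ TT f (wz ρ) * conj (TT f (-conj (wz ρ))) = -(Λ : ℂ)) ∧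
      (∀ σ : Zt, (wz σ).re = 0 ∨ th a < |(σ : ℂ).im| → ‖TT f (wz σ)‖ ^ 2 ≤ Real.exp ((ε + 2 * η) * a) * (1 / (1 + (σ : ℂ).im ^ 2))) := by
    rw [Filter.eventually_all_finset]
    intro ρ hρ
    exact single (h := h - η) hκ hη hκh (fun σ => by have := hh σ; linarith) ρ (lt_of_le_of_lt hη (hS ρ hρ)) hε
  set k : ℝ := (S.card : ℝ) with hk
  have hbig : ∀ᶠ a in atTop, 2 * (k + 1) * (1 + K) ≤ Real.exp (ε * a) :=
    (Real.tendsto_exp_atTop.comp (tendsto_id.const_mul_atTop hε)).eventually (eventually_ge_atTop _)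
  refine ⟨ε, hε, ?_⟩
  filter_upwards [hsing, hbig, eventually_gt_atTop 0] with a hsa hba ha
  choose! f hfH hfN hfT hfz hfL hfr using hsa
  refine ⟨f, hfH, fun x hx => ?_⟩
  have hFa : ∀ ρ ∈ S, Fa a (f ρ) := fun ρ hρ => (hfH ρ hρ).1
  set F : ℝ → ℂ := fun t => ∑ ρ ∈ S, x ρ * f ρ t with hFd
  have hFH : Hn a (mm κ a) F := Hn_sum S fun ρ hρ => (hfH ρ hρ).smul (x ρ)
  have hTT : ∀ w, TT F w = ∑ ρ ∈ S, x ρ * TT (f ρ) w := TT_comb S hFa x
  set X : ℝ := ∑ ρ ∈ S, ‖x ρ‖ ^ 2 with hX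
  have hXpos : 0 < X := by
    obtain ⟨ρ0, hρ0, hx0⟩ := hx
    exact Finset.sum_pos' (fun ρ _ => sq_nonneg _) ⟨ρ0, hρ0, by positivity⟩
  have hk0 : 0 ≤ k := Nat.cast_nonneg _
  -- the norm
  have hN : N2 F ≤ X * (k * Real.exp (ε * a)) := by
    refine (N2_sum_le S hFa x).trans (mul_le_mul_of_nonneg_left ?_ hXpos.le)
    refine (Finset.sum_le_card_nsmul _ _ _ hfN).trans (le_of_eq ?_)
    rw [nsmul_eq_mul]
  -- the values
  have hrepos : ∀ ρ ∈ S, 0 < (wz ρ).re := fun ρ hρ => lt_of_le_of_lt hη (hS ρ hρ)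
  have hrf : ∀ ρ ∈ S, (wz (rfZ ρ)).re < 0 := fun ρ hρ => by
    rw [wz_rf, Complex.neg_re, Complex.conj_re]
    have := hrepos ρ hρ
    linarith
  have hOm : ∀ ρ ∈ S, ρ ∈ Om (th a) := fun ρ hρ => mem_Om.2 ⟨hfT ρ hρ, (hrepos ρ hρ).ne'⟩
  have hv1 : ∀ σ ∈ S, TT F (wz σ) = x σ * TT (f σ) (wz σ) := by
    intro σ hσ
    rw [hTT, Finset.sum_eq_single_of_mem σ hσ]
    intro ρ hρ hne
    rw [hfz ρ hρ σ (hOm σ hσ) hne.symm, mul_zero]
    intro h1
    have h2 := hrf ρ hρ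
    rw [← h1] at h2
    have := hrepos σ hσ
    linarith
  have hv2 : ∀ σ ∈ S, TT F (-conj (wz σ)) = x σ * TT (f σ) (-conj (wz σ)) := by
    intro σ hσ
    rw [← wz_rf, hTT, Finset.sum_eq_single_of_mem σ hσ]
    intro ρ hρ hne
    rw [hfz ρ hρ (rfZ σ) (rf_mem_Om (hOm σ hσ)), mul_zero]
    · intro h1
      have h2 := hrf σ hσ
      rw [h1] at h2
      have := hrepos ρ hρ
      linarith
    · intro h1
      exact hne (rfZ.injective h1).symm
  have hG1 : ∀ σ ∈ S, ∃ Λ : ℝ, Real.exp (2 * (η + 4 * ε) * a) ≤ Λ ∧ GG F F (wz σ) = ((-(Λ * ‖x σ‖ ^ 2) : ℝ) : ℂ) := by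
    intro σ hσ
    obtain ⟨Λ, h1, h2⟩ := hfL σ hσ
    refine ⟨Λ, (Real.exp_le_exp.2 ?_).trans h1, ?_⟩
    · have := hgap σ hσ
      refine mul_le_mul_of_nonneg_right ?_ ha.le
      linarith
    · unfold GG
      rw [hv1 σ hσ, hv2 σ hσ, map_mul]
      have e : x σ * TT (f σ) (wz σ) * (conj (x σ) * conj (TT (f σ) (-conj (wz σ)))) =
          (x σ * conj (x σ)) * (TT (f σ) (wz σ) * conj (TT (f σ) (-conj (wz σ)))) := by ring
      rw [e, h2, Complex.mul_conj, Complex.normSq_eq_norm_sq]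
      push_cast
      ring
  set E : ℝ := Real.exp (2 * (η + 4 * ε) * a) with hE
  have hE0 : 0 < E := Real.exp_pos _
  set B : ℝ := X * (k * Real.exp ((ε + 2 * η) * a)) with hB
  have hB0 : 0 ≤ B := by positivity
  -- the remaining zeros
  have hrem : ∀ σ : Zt, (wz σ).re = 0 ∨ th a < |(σ : ℂ).im| → ‖TT F (wz σ)‖ ^ 2 ≤ B * (1 / (1 + (σ : ℂ).im ^ 2)) := by
    intro σ hσ
    rw [hTT]
    refine (norm_sum_sq S x _).trans ?_
    rw [hB, mul_assoc X]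
    refine mul_le_mul_of_nonneg_left ?_ hXpos.le
    refine (Finset.sum_le_card_nsmul _ _ _ fun ρ hρ => hfr ρ hρ σ hσ).trans (le_of_eq ?_)
    rw [nsmul_eq_mul, hk]
    ring
  have h2 : ∀ σ : Zt, (GG F F (wz σ)).re ≤ B * (1 / (1 + (σ : ℂ).im ^ 2)) := by
    intro σ
    have hnn : 0 ≤ B * (1 / (1 + (σ : ℂ).im ^ 2)) := by positivity
    by_cases hc : (wz σ).re = 0 ∨ th a < |(σ : ℂ).im|
    · have h3 := hrem σ hc
      have h4 := hrem (rfZ σ) (by
        rcases hc with h | h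
        · left; rw [wz_rf, Complex.neg_re, Complex.conj_re, h, neg_zero]
        · right; rw [← wz_im, wz_rf]; simpa [wz_im] using h)
      have e1 : ((rfZ σ : Zt) : ℂ).im = (σ : ℂ).im := by rw [← wz_im, wz_rf]; simp [wz_im]
      rw [e1, wz_rf] at h4
      have h5 := re_GG_le F (wz σ)
      linarith
    · push Not at hc
      have hσO : σ ∈ Om (th a) := mem_Om.2 ⟨hc.2, hc.1⟩
      by_cases h3 : σ ∈ S
      · obtain ⟨Λ, h4, h5⟩ := hG1 σ h3
        rw [h5, Complex.ofReal_re]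
        have : 0 ≤ Λ * ‖x σ‖ ^ 2 := mul_nonneg (hE0.le.trans h4) (sq_nonneg _)
        linarith
      · by_cases h4 : rfZ σ ∈ S
        · obtain ⟨Λ, h5, h6⟩ := hG1 _ h4
          have h7 : GG F F (wz σ) = conj (GG F F (wz (rfZ σ))) := by
            rw [← GG_cj, ← wz_rf, rfZ_rfZ]
          rw [h7, h6, Complex.conj_ofReal, Complex.ofReal_re]
          have : 0 ≤ Λ * ‖x (rfZ σ)‖ ^ 2 := mul_nonneg (hE0.le.trans h5) (sq_nonneg _)
          linarith
        · have h5 : TT F (wz σ) = 0 := by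
            rw [hTT]
            refine Finset.sum_eq_zero fun ρ hρ => ?_
            rw [hfz ρ hρ σ hσO, mul_zero]
            · intro h; exact h3 (h ▸ hρ)
            · intro h
              apply h4
              rw [h, rfZ_rfZ]
              exact hρ
          unfold GG
          rw [h5, zero_mul, Complex.zero_re]
          exact hnn
  have hDom : Dom F := by
    obtain ⟨_, _, hC⟩ := dom_of_Hd (D := D) ha
    exact (hC F hFH.hd).1
  have hQ := QQ_upper hKs hB0 hDom S (fun σ => ‖x σ‖ ^ 2) (fun σ => sq_nonneg _) hE0.le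
    (fun σ hσ => by
      obtain ⟨Λ, h4, h5⟩ := hG1 σ hσ
      rw [h5, Complex.ofReal_re, neg_le_neg_iff]
      exact mul_le_mul_of_nonneg_right h4 (sq_nonneg _)) h2
  have hk1 : k ≤ k + 1 := by linarith
  -- compare
  have hea : Real.exp (ε * a) * Real.exp ((ε + 2 * η) * a) ≤ E := by
    rw [← Real.exp_add, hE]
    exact Real.exp_le_exp.2 (by nlinarith [mul_pos hε ha, mul_nonneg hη ha.le])
  have hc1 : B * K ≤ E * X / 2 := by
    have h3 : 2 * (k * K) ≤ Real.exp (ε * a) := by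
      refine le_trans ?_ hba
      nlinarith [mul_nonneg hk0 hKpos.le]
    have h4 : B * K = X * (k * K * Real.exp ((ε + 2 * η) * a)) := by rw [hB]; ring
    rw [h4]
    have h5 : k * K * Real.exp ((ε + 2 * η) * a) ≤ E / 2 := by
      have := mul_le_mul_of_nonneg_right h3 (Real.exp_pos ((ε + 2 * η) * a)).le
      linarith
    have := mul_le_mul_of_nonneg_left h5 hXpos.le
    linarith
  have hc2 : Real.exp (2 * (η + ε) * a) * N2 F ≤ E * X / 2 := by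
    have h3 : 2 * k ≤ Real.exp (ε * a) := by
      refine le_trans ?_ hba
      nlinarith [mul_nonneg hk0 hKpos.le]
    have h4 : Real.exp (2 * (η + ε) * a) * (Real.exp (ε * a) * Real.exp (ε * a)) ≤ E := by
      rw [← Real.exp_add, ← Real.exp_add, hE]
      exact Real.exp_le_exp.2 (by nlinarith [mul_pos hε ha])
    have h5 : Real.exp (2 * (η + ε) * a) * N2 F ≤ Real.exp (2 * (η + ε) * a) * (X * (k * Real.exp (ε * a))) :=
      mul_le_mul_of_nonneg_left hN (Real.exp_pos _).le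
    refine h5.trans ?_
    have h6 : k * Real.exp (ε * a) ≤ Real.exp (ε * a) * Real.exp (ε * a) / 2 := by
      have := mul_le_mul_of_nonneg_right h3 (Real.exp_pos (ε * a)).le
      linarith
    have h7 : Real.exp (2 * (η + ε) * a) * (k * Real.exp (ε * a)) ≤ E / 2 := by
      have := mul_le_mul_of_nonneg_left h6 (Real.exp_pos (2 * (η + ε) * a)).le
      linarith
    have := mul_le_mul_of_nonneg_left h7 hXpos.le
    linarith
  have hQ' : QQ F ≤ -(E * X / 2) := by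
    have e : ∑ σ ∈ S, (fun σ => ‖x σ‖ ^ 2) σ = X := rfl
    rw [e] at hQ
    linarith
  refine ⟨?_, hQ'.trans (neg_le_neg hc2)⟩
  rcases (N2_nonneg F).lt_or_eq with h3 | h3
  · exact h3
  · exfalso
    have h4 : QQ F = 0 := by
      unfold QQ
      have h5 : ∀ w, TT F w = 0 := TT_zero_of_N2 ha hFH.1 h3.symm
      refine (tsum_congr fun σ => ?_).trans tsum_zero
      unfold GG
      rw [h5, zero_mul, Complex.zero_re, mul_zero]
    have : 0 < E * X / 2 := by positivity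
    linarith

end Pool.Agent.N965.LE
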