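import Pool.Agent.N965.LE.Ly
import Pool.Agent.Y23.We6
import Pool.Agent.Y23.Fin

/-! # The zeros of zeta as zero data -/

set_option autoImplicit false

open Complex
open scoped ComplexConjugate

namespace Pool.Agent.N965.LE

/-- the nontrivial zeros of zeta -/
@[reducible] noncomputable def zz : Y23.G.ZD where
  Zs := {s | Y23.IsZ s}
  mul := Y23.mu
  strip := fun s hs => by
    have h1 : 0 < s.re := hs.2.1
    have h2 : s.re < 1 := hs.2.2
    rw [abs_le]
    constructor <;> linarith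
  refl := fun _ hs => Y23.isZ_refl hs
  mrefl := fun _ hs => Y23.mu_refl hs
  mpos := fun _ hs => Y23.mu_pos hs
  cnt := Y23.cnt

lemma QQ_zz (f : ℝ → ℂ) : Y23.G.QQ (D := zz) f = Y23.QQ f := rfl

lemma Rt_zz {θ : ℝ} (hθ : 1 / 2 ≤ θ) : Rt (D := zz) θ = {s : ℂ | riemannZeta s = 0 ∧ θ < s.re} := by
  ext s
  constructor
  · rintro ⟨h1, h2⟩
    exact ⟨h1.1, h2⟩
  · rintro ⟨h1, h2⟩
    refine ⟨⟨h1, by linarith, ?_⟩, h2⟩
    by_contra hc
    exact riemannZeta_ne_zero_of_one_le_re (not_lt.1 hc) h1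

end Pool.Agent.N965.LE
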